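import Mathlib.Topology.Sheaves.Presheaf
import Mathlib.Tactic.Monotonicity.Lemmas
import Mathlib.RingTheory.Finiteness.Prod
import Mathlib.Algebra.Order.Ring.Star
import Mathlib.Algebra.Order.Star.Real
import Mathlib.Analysis.Calculus.Deriv.MeanValue
import Mathlib.Analysis.Calculus.BumpFunction.Convolution
import Mathlib.Analysis.Calculus.Rademacher
import Mathlib.Analysis.SpecialFunctions.PolarCoord
import Mathlib.RingTheory.PiTensorProduct
import Mathlib.MeasureTheory.Integral.CurveIntegral.Poincare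
import Mathlib.Tactic.Algebra.Basic
import Mathlib.Topology.UniformSpace.Uniformizable

-- ======== part 0: formerly Pool.Agent.MP_a93f81_an.Basic
section MrgPart0

/-!
Basic calculus for locally Lipschitz functions on the plane (points are pairs (t, x)).
-/

set_option autoImplicit false

open MeasureTheory Filter Topology Set Metric

namespace Pool.Agent.MP_a93f81_an

/-- The plane of points (t, x). -/
abbrev Pl := ℝ × ℝ

/-- Unit vector in time. -/
def et : Pl := (1, 0)

/-- Unit vector in space. -/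
def ex : Pl := (0, 1)

/-- Directional derivative (zero where the function is not differentiable). -/
noncomputable def D (v : Pl) (F : Pl → ℝ) (z : Pl) : ℝ := fderiv ℝ F z v

/-- The open half plane of positive times. -/
def H : Set Pl := {z | 0 < z.1}

lemma measurableSet_H : MeasurableSet H := measurableSet_lt measurable_const measurable_fst

lemma isOpen_H : IsOpen H := isOpen_lt continuous_const continuous_fst

@[simp] lemma norm_et : ‖et‖ = 1 := by simp [et, Prod.norm_def]
@[simp] lemma norm_ex : ‖ex‖ = 1 := by simp [ex, Prod.norm_def]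
@[simp] lemma et_fst : et.1 = 1 := rfl
@[simp] lemma et_snd : et.2 = 0 := rfl
@[simp] lemma ex_fst : ex.1 = 0 := rfl
@[simp] lemma ex_snd : ex.2 = 1 := rfl

/-- Measurable and bounded on bounded sets. -/
structure LB (f : Pl → ℝ) : Prop where
  meas : Measurable f
  bdd : ∀ R : ℝ, ∃ C, ∀ z, ‖z‖ ≤ R → |f z| ≤ C

/-- Vanishes outside a ball. -/
def Van (f : Pl → ℝ) : Prop := ∃ R : ℝ, ∀ z, R < ‖z‖ → f z = 0

lemma LB.of_continuous {f : Pl → ℝ} (hf : Continuous f) : LB f := by
  refine ⟨hf.measurable, fun R => ?_⟩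
  obtain ⟨C, hC⟩ := (isCompact_closedBall (0 : Pl) R).exists_bound_of_continuousOn hf.continuousOn
  exact ⟨C, fun z hz => hC z (by simpa using hz)⟩

lemma LB.of_bdd {f : Pl → ℝ} (hf : Measurable f) (C : ℝ) (h : ∀ z, |f z| ≤ C) : LB f :=
  ⟨hf, fun _ => ⟨C, fun z _ => h z⟩⟩

lemma LB.const (c : ℝ) : LB (fun _ => c) := LB.of_continuous continuous_const

lemma LB.add {f g : Pl → ℝ} (hf : LB f) (hg : LB g) : LB (fun z => f z + g z) := by
  refine ⟨hf.meas.add hg.meas, fun R => ?_⟩
  obtain ⟨C, hC⟩ := hf.bdd R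
  obtain ⟨C', hC'⟩ := hg.bdd R
  exact ⟨C + C', fun z hz => (abs_add_le _ _).trans (add_le_add (hC z hz) (hC' z hz))⟩

lemma LB.mul {f g : Pl → ℝ} (hf : LB f) (hg : LB g) : LB (fun z => f z * g z) := by
  refine ⟨hf.meas.mul hg.meas, fun R => ?_⟩
  obtain ⟨C, hC⟩ := hf.bdd R
  obtain ⟨C', hC'⟩ := hg.bdd R
  refine ⟨C * C', fun z hz => ?_⟩
  rw [abs_mul]
  exact mul_le_mul (hC z hz) (hC' z hz) (abs_nonneg _) ((abs_nonneg _).trans (hC z hz))

lemma LB.comp {f : Pl → ℝ} (hf : LB f) {b : ℝ → ℝ} (hb : Continuous b) :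
    LB (fun z => b (f z)) := by
  refine ⟨hb.measurable.comp hf.meas, fun R => ?_⟩
  obtain ⟨C, hC⟩ := hf.bdd R
  obtain ⟨C', hC'⟩ := (isCompact_Icc (a := -C) (b := C)).exists_bound_of_continuousOn
    hb.continuousOn
  exact ⟨C', fun z hz => hC' _ (abs_le.1 (hC z hz))⟩

lemma LB.neg {f : Pl → ℝ} (hf : LB f) : LB (fun z => - f z) := hf.comp continuous_neg

lemma LB.abs {f : Pl → ℝ} (hf : LB f) : LB (fun z => |f z|) := hf.comp continuous_abs

lemma LB.sub {f g : Pl → ℝ} (hf : LB f) (hg : LB g) : LB (fun z => f z - g z) := by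
  simpa [sub_eq_add_neg] using hf.add hg.neg

lemma LB.const_mul {f : Pl → ℝ} (hf : LB f) (c : ℝ) : LB (fun z => c * f z) :=
  (LB.const c).mul hf

lemma LB.mul_const {f : Pl → ℝ} (hf : LB f) (c : ℝ) : LB (fun z => f z * c) :=
  hf.mul (LB.const c)

lemma LB.div_const {f : Pl → ℝ} (hf : LB f) (c : ℝ) : LB (fun z => f z / c) := by
  simpa [div_eq_mul_inv] using hf.mul_const c⁻¹

lemma LB.pow {f : Pl → ℝ} (hf : LB f) (n : ℕ) : LB (fun z => f z ^ n) :=
  hf.comp (continuous_pow n)

lemma LB.shift {f : Pl → ℝ} (hf : LB f) (a : Pl) : LB (fun z => f (z + a)) := by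
  refine ⟨hf.meas.comp (measurable_add_const a), fun R => ?_⟩
  obtain ⟨C, hC⟩ := hf.bdd (R + ‖a‖)
  exact ⟨C, fun z hz => hC _ ((norm_add_le _ _).trans (by linarith))⟩

lemma LB.shift_sub {f : Pl → ℝ} (hf : LB f) (a : Pl) : LB (fun z => f (z - a)) := by
  simpa [sub_eq_add_neg] using hf.shift (-a)

lemma LB.reflect {f : Pl → ℝ} (hf : LB f) (a : Pl) : LB (fun z => f (a - z)) := by
  refine ⟨hf.meas.comp (measurable_const.sub measurable_id), fun R => ?_⟩
  obtain ⟨C, hC⟩ := hf.bdd (‖a‖ + R)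
  exact ⟨C, fun z hz => hC _ ((norm_sub_le _ _).trans (by linarith))⟩

lemma LB.indicator {f : Pl → ℝ} (hf : LB f) {s : Set Pl} (hs : MeasurableSet s) :
    LB (s.indicator f) := by
  refine ⟨hf.meas.indicator hs, fun R => ?_⟩
  obtain ⟨C, hC⟩ := hf.bdd R
  refine ⟨C, fun z hz => ?_⟩
  by_cases h : z ∈ s
  · simpa [h] using hC z hz
  · simpa [h] using (abs_nonneg _).trans (hC z hz)

lemma Van.mul_left {f : Pl → ℝ} (hf : Van f) (g : Pl → ℝ) : Van (fun z => g z * f z) := by
  obtain ⟨R, hR⟩ := hf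
  exact ⟨R, fun z hz => by simp [hR z hz]⟩

lemma Van.mul_right {f : Pl → ℝ} (hf : Van f) (g : Pl → ℝ) : Van (fun z => f z * g z) := by
  obtain ⟨R, hR⟩ := hf
  exact ⟨R, fun z hz => by simp [hR z hz]⟩

lemma Van.add {f g : Pl → ℝ} (hf : Van f) (hg : Van g) : Van (fun z => f z + g z) := by
  obtain ⟨R, hR⟩ := hf
  obtain ⟨R', hR'⟩ := hg
  exact ⟨max R R', fun z hz => by
    simp [hR z (lt_of_le_of_lt (le_max_left _ _) hz), hR' z (lt_of_le_of_lt (le_max_right _ _) hz)]⟩

lemma Van.comp {f : Pl → ℝ} (hf : Van f) {b : ℝ → ℝ} (hb : b 0 = 0) : Van (fun z => b (f z)) := by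
  obtain ⟨R, hR⟩ := hf
  exact ⟨R, fun z hz => by simp [hR z hz, hb]⟩

lemma Van.neg {f : Pl → ℝ} (hf : Van f) : Van (fun z => - f z) := hf.comp (b := fun s => -s) (by simp)

lemma Van.abs {f : Pl → ℝ} (hf : Van f) : Van (fun z => |f z|) := hf.comp (b := fun s => |s|) (by simp)

lemma Van.sub {f g : Pl → ℝ} (hf : Van f) (hg : Van g) : Van (fun z => f z - g z) := by
  simpa [sub_eq_add_neg] using hf.add hg.neg

lemma Van.div_const {f : Pl → ℝ} (hf : Van f) (c : ℝ) : Van (fun z => f z / c) :=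
  hf.comp (b := fun s => s / c) (by simp)

lemma Van.shift {f : Pl → ℝ} (hf : Van f) (a : Pl) : Van (fun z => f (z + a)) := by
  obtain ⟨R, hR⟩ := hf
  refine ⟨R + ‖a‖, fun z hz => hR _ ?_⟩
  have := norm_sub_le (z + a) a
  simp only [add_sub_cancel_right] at this
  linarith

lemma Van.shift_sub {f : Pl → ℝ} (hf : Van f) (a : Pl) : Van (fun z => f (z - a)) := by
  simpa [sub_eq_add_neg] using hf.shift (-a)

lemma Van.reflect {f : Pl → ℝ} (hf : Van f) (a : Pl) : Van (fun z => f (a - z)) := by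
  obtain ⟨R, hR⟩ := hf
  refine ⟨R + ‖a‖, fun z hz => hR _ ?_⟩
  have := norm_sub_le a (a - z)
  simp only [sub_sub_cancel] at this
  linarith

lemma Van.D {f : Pl → ℝ} (hf : Van f) (v : Pl) : Van (D v f) := by
  obtain ⟨R, hR⟩ := hf
  refine ⟨R, fun z hz => ?_⟩
  have : f =ᶠ[𝓝 z] fun _ => 0 := by
    filter_upwards [(isOpen_lt continuous_const continuous_norm).mem_nhds hz] with y hy
    exact hR y hy
  simp [MP_a93f81_an.D, this.fderiv_eq]

lemma Van.hasCompactSupport {f : Pl → ℝ} (hf : Van f) : HasCompactSupport f := by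
  obtain ⟨R, hR⟩ := hf
  refine HasCompactSupport.intro (isCompact_closedBall (0 : Pl) R) fun z hz => hR z ?_
  simpa using hz

lemma Van.of_hasCompactSupport {f : Pl → ℝ} (hf : HasCompactSupport f) : Van f := by
  obtain ⟨R, hR⟩ := hf.isCompact.isBounded.subset_closedBall (0 : Pl)
  refine ⟨R, fun z hz => ?_⟩
  by_contra h
  have := hR (subset_tsupport _ h)
  simp at this
  linarith

lemma LB.integrable {f : Pl → ℝ} (hf : LB f) (hv : Van f) : Integrable f := by
  obtain ⟨R, hR⟩ := hv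
  obtain ⟨C, hC⟩ := hf.bdd R
  have h1 : IntegrableOn f (closedBall (0 : Pl) R) := by
    refine Measure.integrableOn_of_bounded (M := C) (measure_closedBall_lt_top.ne)
      hf.meas.aestronglyMeasurable ?_
    filter_upwards [ae_restrict_mem measurableSet_closedBall] with z hz
    exact hC z (by simpa using hz)
  refine h1.integrable_of_forall_notMem_eq_zero fun z hz => hR z ?_
  simpa using hz

lemma LB.integrableOn {f : Pl → ℝ} (hf : LB f) (hv : Van f) (s : Set Pl) : IntegrableOn f s :=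
  (hf.integrable hv).integrableOn

lemma LB.locallyIntegrable {f : Pl → ℝ} (hf : LB f) : LocallyIntegrable f := by
  intro z
  obtain ⟨C, hC⟩ := hf.bdd (‖z‖ + 1)
  refine ⟨closedBall z 1, closedBall_mem_nhds z one_pos, ?_⟩
  refine Measure.integrableOn_of_bounded (M := C) (measure_closedBall_lt_top.ne)
      hf.meas.aestronglyMeasurable ?_
  filter_upwards [ae_restrict_mem measurableSet_closedBall] with y hy
  refine hC y ?_
  have := norm_le_norm_add_norm_sub' y z
  rw [mem_closedBall, dist_eq_norm] at hy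
  linarith

/-! ### Locally Lipschitz functions -/

lemma LL_of_contDiff {f : Pl → ℝ} (hf : ContDiff ℝ 1 f) : LocallyLipschitz f :=
  hf.locallyLipschitz

lemma LL_mul {f g : Pl → ℝ} (hf : LocallyLipschitz f) (hg : LocallyLipschitz g) :
    LocallyLipschitz (fun z => f z * g z) := by
  have h : LocallyLipschitz (fun p : ℝ × ℝ => p.1 * p.2) :=
    (contDiff_fst.mul contDiff_snd : ContDiff ℝ 1 (fun p : ℝ × ℝ => p.1 * p.2)).locallyLipschitz
  exact h.comp (hf.prodMk hg)

lemma LL_add {f g : Pl → ℝ} (hf : LocallyLipschitz f) (hg : LocallyLipschitz g) :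
    LocallyLipschitz (fun z => f z + g z) := hf.add hg

lemma LL_sub {f g : Pl → ℝ} (hf : LocallyLipschitz f) (hg : LocallyLipschitz g) :
    LocallyLipschitz (fun z => f z - g z) := hf.sub hg

lemma LL_const (c : ℝ) : LocallyLipschitz (fun _ : Pl => c) := LocallyLipschitz.const c

lemma LL_comp {f : Pl → ℝ} (hf : LocallyLipschitz f) {b : ℝ → ℝ} (hb : ContDiff ℝ 1 b) :
    LocallyLipschitz (fun z => b (f z)) := hb.locallyLipschitz.comp hf

lemma LL_shift {f : Pl → ℝ} (hf : LocallyLipschitz f) (a : Pl) :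
    LocallyLipschitz (fun z => f (z + a)) :=
  hf.comp (contDiff_id.add contDiff_const : ContDiff ℝ 1 (fun z : Pl => z + a)).locallyLipschitz

lemma LL_div_const {f : Pl → ℝ} (hf : LocallyLipschitz f) (c : ℝ) :
    LocallyLipschitz (fun z => f z / c) := by
  simpa [div_eq_mul_inv] using LL_mul hf (LL_const c⁻¹)

lemma LL_lipOn {f : Pl → ℝ} (hf : LocallyLipschitz f) (R : ℝ) :
    ∃ K, LipschitzOnWith K f (closedBall 0 R) :=
  (hf.locallyLipschitzOn).exists_lipschitzOnWith_of_compact (isCompact_closedBall 0 R)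

lemma LL_ae_diff {f : Pl → ℝ} (hf : LocallyLipschitz f) : ∀ᵐ z, DifferentiableAt ℝ f z := by
  have h : ∀ n : ℕ, ∀ᵐ z, z ∈ closedBall (0 : Pl) n → DifferentiableWithinAt ℝ f (closedBall 0 n) z := by
    intro n
    obtain ⟨K, hK⟩ := LL_lipOn hf n
    exact hK.ae_differentiableWithinAt_of_mem
  filter_upwards [ae_all_iff.2 h] with z hz
  obtain ⟨n, hn⟩ := exists_nat_gt ‖z‖
  have h1 : closedBall (0 : Pl) n ∈ 𝓝 z :=
    mem_of_superset (isOpen_ball.mem_nhds (by simpa using hn)) ball_subset_closedBall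
  exact (hz n (mem_of_mem_nhds h1)).differentiableAt h1

lemma measurable_D (v : Pl) (f : Pl → ℝ) : Measurable (D v f) :=
  measurable_fderiv_apply_const ℝ f v

lemma abs_D_le_of_lip {f : Pl → ℝ} {K : NNReal} (hf : LipschitzWith K f) (v z : Pl) :
    |D v f z| ≤ K * ‖v‖ := by
  have h := norm_fderiv_le_of_lipschitz ℝ hf (x₀ := z)
  calc |D v f z| = ‖fderiv ℝ f z v‖ := rfl
    _ ≤ ‖fderiv ℝ f z‖ * ‖v‖ := (fderiv ℝ f z).le_opNorm v
    _ ≤ K * ‖v‖ := by gcongr

lemma LB.D {f : Pl → ℝ} (hf : LocallyLipschitz f) (v : Pl) : LB (D v f) := by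
  refine ⟨measurable_D v f, fun R => ?_⟩
  obtain ⟨K, hK⟩ := LL_lipOn hf (R + 1)
  refine ⟨K * ‖v‖, fun z hz => ?_⟩
  have h1 : closedBall (0 : Pl) (R + 1) ∈ 𝓝 z :=
    mem_of_superset (isOpen_ball.mem_nhds (by simp; linarith)) ball_subset_closedBall
  have h := norm_fderiv_le_of_lipschitzOn ℝ h1 hK
  calc |MP_a93f81_an.D v f z| = ‖fderiv ℝ f z v‖ := rfl
    _ ≤ ‖fderiv ℝ f z‖ * ‖v‖ := (fderiv ℝ f z).le_opNorm v
    _ ≤ K * ‖v‖ := by gcongr

lemma LL_lip_of_van {f : Pl → ℝ} (hf : LocallyLipschitz f) (hv : Van f) :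
    ∃ K, LipschitzWith K f := by
  obtain ⟨R, hR⟩ := hv
  obtain ⟨K, hK⟩ := LL_lipOn hf (max R 0 + 1)
  obtain ⟨C, hC⟩ := (LB.of_continuous hf.continuous).bdd R
  have hC' : ∀ z, |f z| ≤ max C 0 := by
    intro z
    by_cases h : R < ‖z‖
    · simp [hR z h]
    · exact (hC z (not_lt.1 h)).trans (le_max_left _ _)
  refine ⟨K + Real.toNNReal C, LipschitzWith.of_dist_le_mul fun x y => ?_⟩
  rw [NNReal.coe_add, Real.coe_toNNReal']
  have key : ∀ x y : Pl, max R 0 + 1 < ‖y‖ →
      dist (f x) (f y) ≤ (K + max C 0) * dist x y := by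
    intro x y hy
    have hy0 : f y = 0 := hR y (by linarith [le_max_left R 0])
    by_cases hx : R < ‖x‖
    · rw [hR x hx, hy0, dist_self]; positivity
    · have h1 : 1 ≤ dist x y := by
        have := norm_le_norm_add_norm_sub' y x
        rw [dist_comm, dist_eq_norm]
        linarith [le_max_left R 0, not_lt.1 hx]
      rw [hy0, Real.dist_eq, sub_zero]
      calc |f x| ≤ max C 0 * 1 := by simpa using hC' x
        _ ≤ (K + max C 0) * dist x y := by
          gcongr
          · linarith [K.coe_nonneg]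
  by_cases hy : max R 0 + 1 < ‖y‖
  · exact key x y hy
  by_cases hx : max R 0 + 1 < ‖x‖
  · rw [dist_comm, dist_comm x y]; exact key y x hx
  have := hK.dist_le_mul x (by simpa using not_lt.1 hx) y (by simpa using not_lt.1 hy)
  refine this.trans ?_
  gcongr
  simp

/-! ### Pointwise calculus -/

lemma D_add {f g : Pl → ℝ} {z : Pl} (v : Pl) (hf : DifferentiableAt ℝ f z)
    (hg : DifferentiableAt ℝ g z) : D v (fun y => f y + g y) z = D v f z + D v g z := by
  simp [D, fderiv_fun_add hf hg]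

lemma D_sub {f g : Pl → ℝ} {z : Pl} (v : Pl) (hf : DifferentiableAt ℝ f z)
    (hg : DifferentiableAt ℝ g z) : D v (fun y => f y - g y) z = D v f z - D v g z := by
  simp [D, fderiv_fun_sub hf hg]

lemma D_mul {f g : Pl → ℝ} {z : Pl} (v : Pl) (hf : DifferentiableAt ℝ f z)
    (hg : DifferentiableAt ℝ g z) :
    D v (fun y => f y * g y) z = f z * D v g z + D v f z * g z := by
  simp [D, fderiv_fun_mul hf hg, mul_comm]

lemma D_const (v : Pl) (c : ℝ) (z : Pl) : D v (fun _ => c) z = 0 := by simp [D]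

lemma D_const_mul {f : Pl → ℝ} {z : Pl} (v : Pl) (c : ℝ) (hf : DifferentiableAt ℝ f z) :
    D v (fun y => c * f y) z = c * D v f z := by
  rw [D_mul v (differentiableAt_const c) hf, D_const]; ring

lemma D_div_const {f : Pl → ℝ} {z : Pl} (v : Pl) (c : ℝ) (hf : DifferentiableAt ℝ f z) :
    D v (fun y => f y / c) z = D v f z / c := by
  simp only [div_eq_mul_inv]
  rw [D_mul v hf (differentiableAt_const _), D_const]; ring

lemma D_comp {f : Pl → ℝ} {z : Pl} (v : Pl) {b : ℝ → ℝ} {b' : ℝ} (hb : HasDerivAt b b' (f z))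
    (hf : DifferentiableAt ℝ f z) : D v (fun y => b (f y)) z = b' * D v f z := by
  have := (hb.comp_hasFDerivAt z hf.hasFDerivAt).fderiv
  simp only [D]
  rw [show (fun y => b (f y)) = b ∘ f from rfl, this]
  simp

lemma D_shift (f : Pl → ℝ) (v a z : Pl) : D v (fun y => f (y + a)) z = D v f (z + a) := by
  simp [D, fderiv_comp_add_right]

lemma D_shift_sub (f : Pl → ℝ) (v a z : Pl) : D v (fun y => f (y - a)) z = D v f (z - a) := by
  simpa [sub_eq_add_neg] using D_shift f v (-a) z

lemma D_fst (v z : Pl) : D v (fun y => y.1) z = v.1 := by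
  simp [D, fderiv_fst]

lemma D_snd (v z : Pl) : D v (fun y => y.2) z = v.2 := by
  simp [D, fderiv_snd]

lemma D_dir (f : Pl → ℝ) (a b : ℝ) (z : Pl) :
    D (a, b) f z = a * D et f z + b * D ex f z := by
  have : ((a, b) : Pl) = a • et + b • ex := by simp [et, ex]
  simp [D, this]

lemma D_congr {f g : Pl → ℝ} {z : Pl} (v : Pl) (h : f =ᶠ[𝓝 z] g) : D v f z = D v g z := by
  simp [D, h.fderiv_eq]

lemma hasDerivAt_line {f : Pl → ℝ} {z : Pl} (v : Pl) (hf : DifferentiableAt ℝ f z) :
    HasDerivAt (fun s : ℝ => f (z + s • v)) (D v f z) 0 :=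
  (hf.hasFDerivAt.hasLineDerivAt v)

lemma tendsto_quot {f : Pl → ℝ} {z : Pl} (v : Pl) (hf : DifferentiableAt ℝ f z) :
    Tendsto (fun s : ℝ => (f (z + s • v) - f z) / s) (𝓝[>] 0) (𝓝 (D v f z)) := by
  have := (hf.hasFDerivAt.hasLineDerivAt v).tendsto_slope_zero_right
  simpa [div_eq_inv_mul, D] using this

lemma tendsto_quot_neg {f : Pl → ℝ} {z : Pl} (v : Pl) (hf : DifferentiableAt ℝ f z) :
    Tendsto (fun s : ℝ => (f z - f (z - s • v)) / s) (𝓝[>] 0) (𝓝 (D v f z)) := by
  have h := (tendsto_quot (-v) hf).neg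
  have e : D (-v) f z = - D v f z := by simp [D]
  rw [e, neg_neg] at h
  refine h.congr fun s => ?_
  rw [smul_neg, ← sub_eq_add_neg]; ring

/-! ### Integration by parts -/

lemma int_D_mul_eq_zero {F g : Pl → ℝ} (hF : LocallyLipschitz F) (hv : Van F) (hg : LB g) (v : Pl)
    (hinv : ∀ z (s : ℝ), g (z + s • v) = g z) : ∫ z, D v F z * g z = 0 := by
  obtain ⟨K, hK⟩ := LL_lip_of_van hF hv
  have hFc := LB.of_continuous hF.continuous
  obtain ⟨R, hR⟩ := id hv
  have A : Tendsto (fun s : ℝ => ∫ z, (F (z + s • v) - F z) / s * g z) (𝓝[>] 0)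
      (𝓝 (∫ z, D v F z * g z)) := by
    apply tendsto_integral_filter_of_dominated_convergence
      ((closedBall (0 : Pl) (R + ‖v‖)).indicator (fun z => (K * ‖v‖) * |g z|))
    · filter_upwards with s
      exact ((((hFc.shift _).sub hFc).div_const s).mul hg).meas.aestronglyMeasurable
    · filter_upwards [Ioc_mem_nhdsGT zero_lt_one] with s hs
      filter_upwards with z
      by_cases hz : z ∈ closedBall (0 : Pl) (R + ‖v‖)
      · rw [indicator_of_mem hz, Real.norm_eq_abs, abs_mul, abs_div, abs_of_pos hs.1]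
        gcongr
        rw [div_le_iff₀ hs.1]
        have := hK.dist_le_mul (z + s • v) z
        rw [Real.dist_eq, dist_eq_norm, add_sub_cancel_left, norm_smul, Real.norm_eq_abs,
          abs_of_pos hs.1] at this
        linarith
      · rw [indicator_of_notMem hz]
        have hz' : R + ‖v‖ < ‖z‖ := by simpa using hz
        have h1 : F z = 0 := hR z (by linarith [norm_nonneg v])
        have h2 : F (z + s • v) = 0 := by
          refine hR _ ?_
          have := norm_sub_le (z + s • v) (s • v)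
          rw [add_sub_cancel_right, norm_smul, Real.norm_eq_abs, abs_of_pos hs.1] at this
          nlinarith [norm_nonneg v, hs.2]
        simp [h1, h2]
    · refine ((hg.abs.const_mul _).indicator measurableSet_closedBall).integrable ?_
      exact ⟨R + ‖v‖, fun z hz => indicator_of_notMem (by simpa using hz) _⟩
    · filter_upwards [LL_ae_diff hF] with z hz
      exact (tendsto_quot v hz).mul_const _
  have B : ∀ s : ℝ, ∫ z, (F (z + s • v) - F z) / s * g z = 0 := by
    intro s
    have e : ∀ z, (F (z + s • v) - F z) / s * g z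
        = s⁻¹ * (F (z + s • v) * g (z + s • v) - F z * g z) := by
      intro z; rw [hinv]; ring
    simp_rw [e]
    rw [integral_const_mul, integral_sub, integral_add_right_eq_self (fun z => F z * g z)]
    · simp
    · exact ((hFc.mul hg).shift _).integrable ((hv.mul_right g).shift _)
    · exact (hFc.mul hg).integrable (hv.mul_right g)
  simp_rw [B] at A
  exact (tendsto_nhds_unique tendsto_const_nhds A).symm

lemma int_D_eq_zero {F : Pl → ℝ} (hF : LocallyLipschitz F) (hv : Van F) (v : Pl) :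
    ∫ z, D v F z = 0 := by
  simpa using int_D_mul_eq_zero hF hv (LB.const 1) v (fun _ _ => rfl)

lemma int_Dx_H_eq_zero {F : Pl → ℝ} (hF : LocallyLipschitz F) (hv : Van F) :
    ∫ z in H, D ex F z = 0 := by
  have := int_D_mul_eq_zero hF hv ((LB.const 1).indicator measurableSet_H) ex (by
    intro z s
    have : (z + s • ex ∈ H) ↔ z ∈ H := by simp [H]
    by_cases h : z ∈ H <;> simp [indicator, this, h])
  rw [← integral_indicator measurableSet_H, ← this]
  congr 1
  ext z
  by_cases h : z ∈ H <;> simp [indicator, h]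

/-- Translation in space preserves integrals over the half plane. -/
lemma int_H_shift (f : Pl → ℝ) (s : ℝ) : ∫ z in H, f (z + s • ex) = ∫ z in H, f z := by
  rw [← integral_indicator measurableSet_H, ← integral_indicator measurableSet_H,
    ← integral_add_right_eq_self (H.indicator f) (s • ex)]
  congr 1
  ext z
  have : (z + s • ex ∈ H) ↔ z ∈ H := by simp [H]
  by_cases h : z ∈ H <;> simp [indicator, this, h]

lemma ae_shift {p : Pl → Prop} (h : ∀ᵐ z, p z) (a : Pl) : ∀ᵐ z, p (z + a) :=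
  (measurePreserving_add_right volume a).quasiMeasurePreserving.ae h

lemma ae_shift_sub {p : Pl → Prop} (h : ∀ᵐ z, p z) (a : Pl) : ∀ᵐ z, p (z - a) := by
  simpa [sub_eq_add_neg] using ae_shift h (-a)

lemma ae_fst_ne (c : ℝ) : ∀ᵐ z : Pl, z.1 ≠ c := by
  have : (volume : Measure Pl) {z | z.1 = c} = 0 := by
    have e : {z : Pl | z.1 = c} = ({c} : Set ℝ) ×ˢ (univ : Set ℝ) := by
      ext z; simp
    rw [e, Measure.volume_eq_prod, Measure.prod_prod]
    simp
  rw [ae_iff]
  simpa using this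

end Pool.Agent.MP_a93f81_an

end MrgPart0

-- ======== part 1: formerly Pool.Agent.MP_a93f81_an.Moll
section MrgPart1

/-!
Mollification on the plane.
-/

set_option autoImplicit false

open MeasureTheory Filter Topology Set Metric
open scoped Convolution ContDiff

namespace Pool.Agent.MP_a93f81_an

/-- A smooth nonnegative kernel of mass one supported in the ball of radius `r`. -/
structure Kern (κ : Pl → ℝ) (r : ℝ) : Prop where
  smooth : ContDiff ℝ ∞ κ
  nonneg : ∀ y, 0 ≤ κ y
  int_one : ∫ y, κ y = 1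
  zero : ∀ y, r ≤ ‖y‖ → κ y = 0

/-- Mollification. -/
noncomputable def moll (κ F : Pl → ℝ) (z : Pl) : ℝ := ∫ y, κ (z - y) * F y

/-- A sequence of bumps with radii tending to zero. -/
noncomputable def bseq (n : ℕ) : ContDiffBump (0 : Pl) :=
  ⟨1 / (2 * ((n : ℝ) + 1)), 1 / ((n : ℝ) + 1), by positivity, by
    apply one_div_lt_one_div_of_lt (by positivity)
    have : (0 : ℝ) < (n : ℝ) + 1 := by positivity
    linarith⟩

/-- The associated normalised kernels. -/
noncomputable def kn (n : ℕ) : Pl → ℝ := (bseq n).normed volume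

lemma kern_normed (b : ContDiffBump (0 : Pl)) : Kern (b.normed volume) b.rOut := by
  refine ⟨b.contDiff_normed, b.nonneg_normed, b.integral_normed, fun y hy => ?_⟩
  by_contra h
  have : y ∈ Function.support (b.normed volume) := h
  rw [b.support_normed_eq] at this
  simp at this
  linarith

lemma kern_kn (n : ℕ) : Kern (kn n) (1 / ((n : ℝ) + 1)) := kern_normed (bseq n)

lemma exists_kern {r : ℝ} (hr : 0 < r) : ∃ κ, Kern κ r :=
  ⟨_, kern_normed ⟨r / 2, r, by positivity, by linarith⟩⟩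

lemma Kern.lb {κ : Pl → ℝ} {r : ℝ} (h : Kern κ r) : LB κ := LB.of_continuous h.smooth.continuous

lemma Kern.van {κ : Pl → ℝ} {r : ℝ} (h : Kern κ r) : Van κ := ⟨r, fun z hz => h.zero z hz.le⟩

lemma Kern.one {κ : Pl → ℝ} {r : ℝ} (h : Kern κ r) : ContDiff ℝ 1 κ :=
  h.smooth.of_le (by simp)

lemma Kern.ll {κ : Pl → ℝ} {r : ℝ} (h : Kern κ r) : LocallyLipschitz κ := LL_of_contDiff h.one

lemma Kern.int_reflect {κ : Pl → ℝ} {r : ℝ} (h : Kern κ r) (z : Pl) : ∫ y, κ (z - y) = 1 := by
  rw [integral_sub_left_eq_self κ volume z, h.int_one]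

lemma moll_integrable {κ F : Pl → ℝ} (hκ : LB κ) (hv : Van κ) (hF : LB F) (z : Pl) :
    Integrable (fun y => κ (z - y) * F y) :=
  ((hκ.reflect z).mul hF).integrable ((hv.reflect z).mul_right F)

lemma moll_eq_conv (κ F : Pl → ℝ) :
    moll κ F = F ⋆[ContinuousLinearMap.mul ℝ ℝ, volume] κ := by
  ext z
  simp [moll, convolution_def, mul_comm]

lemma moll_contDiff {κ F : Pl → ℝ} (hκ : ContDiff ℝ ∞ κ) (hv : Van κ) (hF : LB F) :
    ContDiff ℝ ∞ (moll κ F) := by
  rw [moll_eq_conv]
  exact hv.hasCompactSupport.contDiff_convolution_right _ hF.locallyIntegrable hκ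

lemma contDiff_D {κ : Pl → ℝ} (hκ : ContDiff ℝ ∞ κ) (v : Pl) : ContDiff ℝ ∞ (D v κ) :=
  (hκ.fderiv_right (m := ∞) (by simp)).clm_apply contDiff_const

lemma continuous_D {κ : Pl → ℝ} (hκ : ContDiff ℝ 1 κ) (v : Pl) : Continuous (D v κ) :=
  (hκ.continuous_fderiv (by simp)).clm_apply continuous_const

lemma D_moll {κ F : Pl → ℝ} (hκ : ContDiff ℝ ∞ κ) (hv : Van κ) (hF : LB F) (v z : Pl) :
    D v (moll κ F) z = moll (D v κ) F z := by
  have h1 : ContDiff ℝ 1 κ := hκ.of_le (by simp)
  have := hv.hasCompactSupport.hasFDerivAt_convolution_right (ContinuousLinearMap.mul ℝ ℝ)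
    hF.locallyIntegrable h1 z
  rw [moll_eq_conv, moll_eq_conv, D, this.fderiv,
    convolution_precompR_apply _ hF.locallyIntegrable (hv.hasCompactSupport.fderiv ℝ)
      (h1.continuous_fderiv (by simp))]
  rfl

lemma D_reflect {κ : Pl → ℝ} (hκ : Differentiable ℝ κ) (v z y : Pl) :
    D v (fun y => κ (z - y)) y = - D v κ (z - y) := by
  have h : HasFDerivAt (fun y : Pl => z - y) (-(ContinuousLinearMap.id ℝ Pl)) y := by
    simpa using (hasFDerivAt_id y).const_sub z
  have := ((hκ (z - y)).hasFDerivAt.comp y h).fderiv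
  simp only [D]
  rw [show (fun y => κ (z - y)) = κ ∘ (fun y => z - y) from rfl, this]
  simp

lemma contDiff_reflect {κ : Pl → ℝ} {n : ℕ∞ω} (hκ : ContDiff ℝ n κ) (z : Pl) :
    ContDiff ℝ n (fun y => κ (z - y)) := hκ.comp (contDiff_const.sub contDiff_id)

lemma D_moll_lip {κ F : Pl → ℝ} (hκ : ContDiff ℝ ∞ κ) (hv : Van κ) (hF : LocallyLipschitz F)
    (v z : Pl) : D v (moll κ F) z = moll κ (D v F) z := by
  have h1 : ContDiff ℝ 1 κ := hκ.of_le (by simp)
  have hFc := LB.of_continuous hF.continuous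
  have hκc := LB.of_continuous hκ.continuous
  rw [D_moll hκ hv hFc]
  have h0 := int_D_eq_zero (LL_mul (LL_of_contDiff (contDiff_reflect h1 z)) hF)
    ((hv.reflect z).mul_right F) v
  have e : ∫ y, D v (fun y => κ (z - y) * F y) y
      = ∫ y, (κ (z - y) * D v F y - D v κ (z - y) * F y) := by
    refine integral_congr_ae ?_
    filter_upwards [LL_ae_diff hF] with y hy
    rw [D_mul v ((contDiff_reflect h1 z).differentiable (by simp) y) hy,
      D_reflect (h1.differentiable (by simp))]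
    ring
  rw [e, integral_sub (moll_integrable hκc hv (LB.D hF v) z)
    (moll_integrable (LB.of_continuous (continuous_D h1 v)) (hv.D v) hFc z)] at h0
  simp only [moll]
  linarith

lemma moll_mono {κ F G : Pl → ℝ} {r : ℝ} (hκ : Kern κ r) (hF : LB F) (hG : LB G) (z : Pl)
    (h : ∀ᵐ y, ‖z - y‖ < r → F y ≤ G y) : moll κ F z ≤ moll κ G z := by
  refine integral_mono_ae (moll_integrable hκ.lb hκ.van hF z) (moll_integrable hκ.lb hκ.van hG z) ?_
  filter_upwards [h] with y hy
  by_cases h1 : ‖z - y‖ < r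
  · exact mul_le_mul_of_nonneg_left (hy h1) (hκ.nonneg _)
  · simp [hκ.zero _ (not_lt.1 h1)]

lemma moll_congr {κ F G : Pl → ℝ} {r : ℝ} (hκ : Kern κ r) (z : Pl)
    (h : ∀ᵐ y, ‖z - y‖ < r → F y = G y) : moll κ F z = moll κ G z := by
  refine integral_congr_ae ?_
  filter_upwards [h] with y hy
  by_cases h1 : ‖z - y‖ < r
  · rw [hy h1]
  · simp [hκ.zero _ (not_lt.1 h1)]

lemma moll_const {κ : Pl → ℝ} {r : ℝ} (hκ : Kern κ r) (c : ℝ) (z : Pl) :
    moll κ (fun _ => c) z = c := by
  simp [moll, integral_mul_const, hκ.int_reflect]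

lemma moll_add {κ F G : Pl → ℝ} {r : ℝ} (hκ : Kern κ r) (hF : LB F) (hG : LB G) (z : Pl) :
    moll κ (fun y => F y + G y) z = moll κ F z + moll κ G z := by
  simp only [moll, mul_add]
  exact integral_add (moll_integrable hκ.lb hκ.van hF z) (moll_integrable hκ.lb hκ.van hG z)

lemma moll_sub {κ F G : Pl → ℝ} {r : ℝ} (hκ : Kern κ r) (hF : LB F) (hG : LB G) (z : Pl) :
    moll κ (fun y => F y - G y) z = moll κ F z - moll κ G z := by
  simp only [moll, mul_sub]
  exact integral_sub (moll_integrable hκ.lb hκ.van hF z) (moll_integrable hκ.lb hκ.van hG z)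

lemma moll_const_mul (κ F : Pl → ℝ) (c : ℝ) (z : Pl) :
    moll κ (fun y => c * F y) z = c * moll κ F z := by
  simp only [moll, ← integral_const_mul]
  congr 1; ext y; ring

lemma moll_ge {κ F : Pl → ℝ} {r c : ℝ} (hκ : Kern κ r) (hF : LB F) (z : Pl)
    (h : ∀ᵐ y, ‖z - y‖ < r → c ≤ F y) : c ≤ moll κ F z := by
  simpa [moll_const hκ] using moll_mono hκ (LB.const c) hF z h

lemma moll_le {κ F : Pl → ℝ} {r c : ℝ} (hκ : Kern κ r) (hF : LB F) (z : Pl)
    (h : ∀ᵐ y, ‖z - y‖ < r → F y ≤ c) : moll κ F z ≤ c := by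
  simpa [moll_const hκ] using moll_mono hκ hF (LB.const c) z h

lemma moll_abs_le {κ F : Pl → ℝ} {r c : ℝ} (hκ : Kern κ r) (hF : LB F) (z : Pl)
    (h : ∀ᵐ y, ‖z - y‖ < r → |F y| ≤ c) : |moll κ F z| ≤ c := by
  rw [abs_le]
  constructor
  · exact moll_ge hκ hF z (h.mono fun y hy h1 => (abs_le.1 (hy h1)).1)
  · exact moll_le hκ hF z (h.mono fun y hy h1 => (abs_le.1 (hy h1)).2)

lemma moll_near {κ F : Pl → ℝ} {r : ℝ} {K : NNReal} (hκ : Kern κ r) (hF : LipschitzWith K F)
    (z : Pl) : |moll κ F z - F z| ≤ K * r := by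
  have hFc := LB.of_continuous hF.continuous
  have e : moll κ F z - F z = moll κ (fun y => F y - F z) z := by
    rw [moll_sub hκ hFc (LB.const _), moll_const hκ]
  rw [e]
  refine moll_abs_le hκ (hFc.sub (LB.const _)) z (Eventually.of_forall fun y hy => ?_)
  have := hF.dist_le_mul y z
  rw [Real.dist_eq, dist_comm, dist_eq_norm] at this
  exact this.trans (by gcongr)

lemma moll_shift (κ F : Pl → ℝ) (a z : Pl) :
    moll κ F (z + a) = moll κ (fun y => F (y + a)) z := by
  simp only [moll]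
  rw [← integral_add_right_eq_self (fun y => κ (z + a - y) * F y) a]
  congr 1; ext y; congr 2; abel

lemma ae_tendsto_moll {F : Pl → ℝ} (hF : LB F) :
    ∀ᵐ z, Tendsto (fun n => moll (kn n) F z) atTop (𝓝 (F z)) := by
  have h := ContDiffBump.ae_convolution_tendsto_right_of_locallyIntegrable (μ := volume)
    (φ := bseq) (l := atTop) (K := 2) tendsto_one_div_add_atTop_nhds_zero_nat
    (Eventually.of_forall fun n => by
      simp only [bseq]
      have : (0 : ℝ) < (n : ℝ) + 1 := by positivity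
      field_simp
      rfl) hF.locallyIntegrable
  filter_upwards [h] with z hz
  refine hz.congr fun n => ?_
  rw [convolution_lsmul_swap]
  rfl

/-- A lower bound for a directional derivative, almost everywhere on an open set, integrates
along segments of that set. -/
lemma line_ge {F : Pl → ℝ} {K : NNReal} (hF : LipschitzWith K F) {O : Set Pl} (hO : IsOpen O)
    {z v : Pl} {s c : ℝ} (hs : 0 ≤ s) (hseg : ∀ σ ∈ Icc 0 s, z + σ • v ∈ O)
    (h : ∀ᵐ y, y ∈ O → c ≤ D v F y) : c * s ≤ F (z + s • v) - F z := by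
  have hcomp : IsCompact ((fun σ : ℝ => z + σ • v) '' Icc 0 s) :=
    isCompact_Icc.image (by fun_prop)
  obtain ⟨r0, hr0, hsub⟩ := hcomp.exists_thickening_subset_open hO
    (by rintro _ ⟨σ, hσ, rfl⟩; exact hseg σ hσ)
  have hFc := LB.of_continuous hF.continuous
  have key : ∀ r, 0 < r → r ≤ r0 → c * s ≤ F (z + s • v) - F z + 2 * K * r := by
    intro r hr hrr
    obtain ⟨κ, hκ⟩ := exists_kern hr
    have hG := (moll_contDiff hκ.smooth hκ.van hFc).differentiable (by simp)
    have hd : ∀ σ : ℝ, HasDerivAt (fun σ : ℝ => moll κ F (z + σ • v))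
        (D v (moll κ F) (z + σ • v)) σ := by
      intro σ
      have h1 : HasDerivAt (fun σ : ℝ => z + σ • v) v σ := by
        simpa using ((hasDerivAt_id σ).smul_const v).const_add z
      exact (hG (z + σ • v)).hasFDerivAt.comp_hasDerivAt σ h1
    have := (convex_Icc 0 s).mul_sub_le_image_sub_of_le_deriv
      (f := fun σ : ℝ => moll κ F (z + σ • v)) (C := c)
      (fun σ _ => (hd σ).continuousAt.continuousWithinAt)
      (fun σ _ => (hd σ).differentiableAt.differentiableWithinAt)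
      (fun σ hσ => by
        rw [(hd σ).deriv, D_moll_lip hκ.smooth hκ.van hF.locallyLipschitz]
        refine moll_ge hκ (LB.D hF.locallyLipschitz v) _ ?_
        filter_upwards [h] with y hy h1
        refine hy (hsub ?_)
        rw [mem_thickening_iff]
        exact ⟨_, ⟨σ, interior_subset hσ, rfl⟩, by
          rw [dist_comm, dist_eq_norm]; exact h1.trans_le hrr⟩)
      0 ⟨le_rfl, hs⟩ s ⟨hs, le_rfl⟩ hs
    have h1 := abs_le.1 (moll_near hκ hF (z + s • v))
    have h2 := abs_le.1 (moll_near hκ hF z)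
    simp only [zero_smul, add_zero, sub_zero] at this
    linarith [h1.2, h2.1]
  have ht : Tendsto (fun r : ℝ => F (z + s • v) - F z + 2 * K * r) (𝓝[>] 0)
      (𝓝 (F (z + s • v) - F z + 2 * K * 0)) :=
    tendsto_nhdsWithin_of_tendsto_nhds (by
      exact (tendsto_const_nhds.add (tendsto_const_nhds.mul tendsto_id)))
  simp only [mul_zero, add_zero] at ht
  refine ge_of_tendsto ht ?_
  filter_upwards [Ioc_mem_nhdsGT hr0] with r hr using key r hr.1 hr.2

lemma line_le {F : Pl → ℝ} {K : NNReal} (hF : LipschitzWith K F) {O : Set Pl} (hO : IsOpen O)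
    {z v : Pl} {s c : ℝ} (hs : 0 ≤ s) (hseg : ∀ σ ∈ Icc 0 s, z + σ • v ∈ O)
    (h : ∀ᵐ y, y ∈ O → D v F y ≤ c) : F (z + s • v) - F z ≤ c * s := by
  have := line_ge (c := -c) hF.neg hO hs hseg (by
    filter_upwards [h] with y hy h1
    have e : D v (-F) y = - D v F y := by simp [D, fderiv_neg]
    rw [e]; linarith [hy h1])
  simp only [Pi.neg_apply] at this
  linarith

/-- Version of `line_ge` on the closed half plane of nonnegative times. -/
lemma line_ge_H {F : Pl → ℝ} {K : NNReal} (hF : LipschitzWith K F)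
    {z v : Pl} {s c : ℝ} (hs : 0 ≤ s) (hz : 0 ≤ z.1) (hv : 0 ≤ v.1)
    (h : ∀ᵐ y, y ∈ H → c ≤ D v F y) : c * s ≤ F (z + s • v) - F z := by
  have key : ∀ r : ℝ, 0 < r → c * s ≤ F (z + r • et + s • v) - F (z + r • et) := by
    intro r hr
    refine line_ge hF isOpen_H hs (fun σ hσ => ?_) h
    simp only [H, mem_ofPred_eq, Prod.fst_add, Prod.smul_fst, et_fst, smul_eq_mul]
    nlinarith [mul_nonneg hσ.1 hv]
  have hc : Continuous (fun r : ℝ => F (z + r • et + s • v) - F (z + r • et)) := by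
    have := hF.continuous
    fun_prop
  have ht := tendsto_nhdsWithin_of_tendsto_nhds (s := Ioi (0 : ℝ)) (hc.tendsto 0)
  simp only [zero_smul, add_zero] at ht
  refine ge_of_tendsto ht ?_
  filter_upwards [self_mem_nhdsWithin] with r hr using key r hr

end Pool.Agent.MP_a93f81_an

end MrgPart1

-- ======== part 2: formerly Pool.Agent.MP_a93f81_an.Potential
section MrgPart2

/-!
Lipschitz potentials of bounded divergence free fields on the plane.
-/

set_option autoImplicit false

open MeasureTheory Filter Topology Set Metric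
open scoped ContDiff

namespace Pool.Agent.MP_a93f81_an

lemma ibp {f g : Pl → ℝ} (hf : LocallyLipschitz f) (hg : LocallyLipschitz g) (hv : Van g) (v : Pl) :
    ∫ z, D v f z * g z = - ∫ z, f z * D v g z := by
  have h0 := int_D_eq_zero (LL_mul hf hg) (hv.mul_left f) v
  have e : ∫ z, D v (fun y => f y * g y) z = ∫ z, (f z * D v g z + D v f z * g z) := by
    refine integral_congr_ae ?_
    filter_upwards [LL_ae_diff hf, LL_ae_diff hg] with y hy hy'
    rw [D_mul v hy hy']
  rw [e, integral_add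
    (((LB.of_continuous hf.continuous).mul (LB.D hg v)).integrable ((hv.D v).mul_left f))
    (((LB.D hf v).mul (LB.of_continuous hg.continuous)).integrable (hv.mul_left _))] at h0
  linarith

lemma ibp_H {f g : Pl → ℝ} (hf : LocallyLipschitz f) (hg : LocallyLipschitz g) (hv : Van g) :
    ∫ z in H, D ex f z * g z = - ∫ z in H, f z * D ex g z := by
  have h0 := int_Dx_H_eq_zero (LL_mul hf hg) (hv.mul_left f)
  have e : ∫ z in H, D ex (fun y => f y * g y) z
      = ∫ z in H, (f z * D ex g z + D ex f z * g z) := by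
    refine integral_congr_ae (ae_restrict_of_ae ?_)
    filter_upwards [LL_ae_diff hf, LL_ae_diff hg] with y hy hy'
    rw [D_mul ex hy hy']
  rw [e, integral_add
    (((LB.of_continuous hf.continuous).mul (LB.D hg ex)).integrableOn ((hv.D ex).mul_left f) H)
    (((LB.D hf ex).mul (LB.of_continuous hg.continuous)).integrableOn (hv.mul_left _) H)] at h0
  linarith

lemma exists_subseq_lip (P : ℕ → Pl → ℝ) (K : NNReal) (h : ∀ n, LipschitzWith K (P n))
    (h0 : ∀ n, P n 0 = 0) :
    ∃ (Q : Pl → ℝ) (φ : ℕ → ℕ), StrictMono φ ∧ LipschitzWith K Q ∧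
      ∀ z, Tendsto (fun n => P (φ n) z) atTop (𝓝 (Q z)) := by
  let d : ℕ → Pl := TopologicalSpace.denseSeq Pl
  have hd : DenseRange d := TopologicalSpace.denseRange_denseSeq Pl
  have hc : IsCompact (Set.pi univ (fun i : ℕ => Icc (-(K * ‖d i‖)) (K * ‖d i‖))) :=
    isCompact_univ_pi fun i => isCompact_Icc
  obtain ⟨a, -, φ, hφ, ha⟩ := hc.tendsto_subseq (x := fun n i => P n (d i)) (by
    intro n i _
    have := (h n).dist_le_mul (d i) 0
    rw [h0, Real.dist_eq, sub_zero, dist_zero_right] at this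
    exact abs_le.1 this)
  have hcau : ∀ z, CauchySeq (fun n => P (φ n) z) := by
    intro z
    rw [Metric.cauchySeq_iff]
    intro e he
    obtain ⟨i, hi⟩ := hd.exists_dist_lt z (ε := e / (4 * (K + 1))) (by positivity)
    have h1 : CauchySeq (fun n => P (φ n) (d i)) := (tendsto_pi_nhds.1 ha i).cauchySeq
    obtain ⟨N, hN⟩ := Metric.cauchySeq_iff.1 h1 (e / 2) (by positivity)
    refine ⟨N, fun m hm n hn => ?_⟩
    have h2 := hN m hm n hn
    have h3 := (h (φ m)).dist_le_mul z (d i)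
    have h4 := (h (φ n)).dist_le_mul (d i) z
    rw [dist_comm (d i) z] at h4
    have h5 : (K : ℝ) * dist z (d i) ≤ e / 4 := by
      calc (K : ℝ) * dist z (d i) ≤ (K + 1) * (e / (4 * (K + 1))) := by
            gcongr; linarith
        _ = e / 4 := by field_simp
    have h6 := dist_triangle4 (P (φ m) z) (P (φ m) (d i)) (P (φ n) (d i)) (P (φ n) z)
    linarith
  choose Q hQ using fun z => cauchySeq_tendsto_of_complete (hcau z)
  refine ⟨Q, φ, hφ, LipschitzWith.of_dist_le_mul fun x y => ?_, hQ⟩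
  exact le_of_tendsto' ((hQ x).dist (hQ y)) fun n => (h (φ n)).dist_le_mul x y

lemma exists_smooth_potential {ρ q : Pl → ℝ} (hρ : ContDiff ℝ 1 ρ) (hq : ContDiff ℝ 1 q)
    (hdiv : ∀ z, D et ρ z + D ex q z = 0) :
    ∃ P : Pl → ℝ, Differentiable ℝ P ∧ P 0 = 0 ∧ ∀ z v, D v P z = - q z * v.1 + ρ z * v.2 := by
  let om : Pl → Pl →L[ℝ] ℝ := fun z =>
    (- q z) • ContinuousLinearMap.fst ℝ ℝ ℝ + ρ z • ContinuousLinearMap.snd ℝ ℝ ℝ
  have hρd := hρ.differentiable (by simp)
  have hqd := hq.differentiable (by simp)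
  have hom : ∀ a, HasFDerivAt om
      ((-(fderiv ℝ q a)).smulRight (ContinuousLinearMap.fst ℝ ℝ ℝ)
        + (fderiv ℝ ρ a).smulRight (ContinuousLinearMap.snd ℝ ℝ ℝ)) a := by
    intro a
    have h1 := (hqd a).hasFDerivAt.neg.smul_const (ContinuousLinearMap.fst ℝ ℝ ℝ)
    have h2 := (hρd a).hasFDerivAt.smul_const (ContinuousLinearMap.snd ℝ ℝ ℝ)
    exact h1.add h2
  obtain ⟨f, hf⟩ : ∃ f : Pl → ℝ, ∀ a ∈ (univ : Set Pl), HasFDerivAt f (om a) a :=
    (convex_univ (𝕜 := ℝ) (E := Pl)).exists_forall_hasFDerivAt_of_fderiv_symmetric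
    isOpen_univ (fun a _ => (hom a).differentiableAt.differentiableWithinAt) (by
      intro a _ x y
      rw [(hom a).fderiv]
      have e1 : ∀ (g : Pl → ℝ) (x : Pl), fderiv ℝ g a x = x.1 * D et g a + x.2 * D ex g a :=
        fun g x => D_dir g x.1 x.2 a
      simp only [add_apply, ContinuousLinearMap.smulRight_apply,
        neg_apply, smul_apply, smul_eq_mul,
        ContinuousLinearMap.coe_fst', ContinuousLinearMap.coe_snd', e1]
      have := hdiv a
      linear_combination (x.1 * y.2 - x.2 * y.1) * this)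
  refine ⟨fun z => f z - f 0, fun z => ((hf z trivial).differentiableAt).sub_const _, by simp,
    fun z v => ?_⟩
  rw [D, ((hf z trivial).sub_const _).fderiv]
  simp [om]

theorem exists_potential {ρ q : Pl → ℝ} (hρ : Measurable ρ) (hq : Measurable q)
    (hρb : ∀ z, |ρ z| ≤ 1) (hqb : ∀ z, |q z| ≤ 1)
    (hw : ∀ φ : Pl → ℝ, ContDiff ℝ ∞ φ → Van φ →
      ∫ z, (ρ z * D et φ z + q z * D ex φ z) = 0) :
    ∃ P : Pl → ℝ, LipschitzWith 2 P ∧ P 0 = 0 ∧ (∀ᵐ z, D ex P z = ρ z) ∧
      (∀ᵐ z, D et P z = - q z) := by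
  have hρL := LB.of_bdd hρ 1 hρb
  have hqL := LB.of_bdd hq 1 hqb
  have hex : ∀ n, ∃ P : Pl → ℝ, Differentiable ℝ P ∧ P 0 = 0 ∧
      ∀ z v, D v P z = - moll (kn n) q z * v.1 + moll (kn n) ρ z * v.2 := by
    intro n
    have hk := kern_kn n
    refine exists_smooth_potential
      ((moll_contDiff hk.smooth hk.van hρL).of_le (by simp))
      ((moll_contDiff hk.smooth hk.van hqL).of_le (by simp)) fun z => ?_
    rw [D_moll hk.smooth hk.van hρL, D_moll hk.smooth hk.van hqL]
    have h1 := hw (fun y => kn n (z - y)) (contDiff_reflect hk.smooth z) (hk.van.reflect z)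
    simp only [D_reflect (hk.one.differentiable (by simp))] at h1
    simp only [moll]
    rw [← integral_add
      (moll_integrable (LB.of_continuous (continuous_D hk.one _)) (hk.van.D _) hρL z)
      (moll_integrable (LB.of_continuous (continuous_D hk.one _)) (hk.van.D _) hqL z),
      ← neg_eq_zero, ← integral_neg, ← h1]
    congr 1; ext y; ring
  choose P hPd hP0 hPD using hex
  have hmρ : ∀ n z, |moll (kn n) ρ z| ≤ 1 := fun n z =>
    moll_abs_le (kern_kn n) hρL z (Eventually.of_forall fun y _ => hρb y)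
  have hmq : ∀ n z, |moll (kn n) q z| ≤ 1 := fun n z =>
    moll_abs_le (kern_kn n) hqL z (Eventually.of_forall fun y _ => hqb y)
  have hPl : ∀ n, LipschitzWith 2 (P n) := by
    intro n
    refine lipschitzWith_of_nnnorm_fderiv_le (𝕜 := ℝ) (hPd n) fun z => ?_
    rw [← NNReal.coe_le_coe, coe_nnnorm]
    refine ContinuousLinearMap.opNorm_le_bound _ (by simp) fun v => ?_
    have h1 : fderiv ℝ (P n) z v = _ := hPD n z v
    rw [h1, Real.norm_eq_abs]
    have h2 : |v.1| ≤ ‖v‖ := norm_fst_le v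
    have h3 : |v.2| ≤ ‖v‖ := norm_snd_le v
    calc _ ≤ |-moll (kn n) q z * v.1| + |moll (kn n) ρ z * v.2| := abs_add_le _ _
      _ = |moll (kn n) q z| * |v.1| + |moll (kn n) ρ z| * |v.2| := by simp [abs_mul]
      _ ≤ 1 * ‖v‖ + 1 * ‖v‖ := by gcongr; exacts [hmq n z, hmρ n z]
      _ = _ := by simp; ring
  obtain ⟨Q, φ, hφ, hQ, hlim⟩ := exists_subseq_lip P 2 hPl hP0
  have key : ∀ (v : Pl) (f : Pl → ℝ), LB f → (∀ n z, |moll (kn n) f z| ≤ 1) →
      (∀ n z, D v (P n) z = moll (kn n) f z) → ∀ᵐ z, D v Q z = f z := by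
    intro v f hf hfb hD
    refine ae_eq_of_integral_contDiff_smul_eq (LB.D hQ.locallyLipschitz v).locallyIntegrable
      hf.locallyIntegrable fun g hg hgc => ?_
    have hgv := Van.of_hasCompactSupport hgc
    have hg1 : ContDiff ℝ 1 g := hg.of_le (by simp)
    have hgL := LL_of_contDiff hg1
    have hgB := LB.of_continuous hg.continuous
    have hDg := LB.D hgL v
    have A : Tendsto (fun n => ∫ z, moll (kn (φ n)) f z * g z) atTop (𝓝 (∫ z, f z * g z)) := by
      refine tendsto_integral_of_dominated_convergence (fun z => |g z|) (fun n => ?_)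
        (hgB.abs.integrable hgv.abs) (fun n => Eventually.of_forall fun z => ?_) ?_
      · exact ((moll_contDiff (kern_kn _).smooth (kern_kn _).van hf).continuous.mul
          hg.continuous).aestronglyMeasurable
      · rw [Real.norm_eq_abs, abs_mul]
        exact mul_le_of_le_one_left (abs_nonneg _) (hfb _ _)
      · filter_upwards [ae_tendsto_moll hf] with z hz
        exact (hz.comp hφ.tendsto_atTop).mul_const _
    have B : Tendsto (fun n => - ∫ z, P (φ n) z * D v g z) atTop (𝓝 (- ∫ z, Q z * D v g z)) := by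
      refine Tendsto.neg ?_
      refine tendsto_integral_of_dominated_convergence (fun z => (2 * ‖z‖) * |D v g z|)
        (fun n => ?_) ?_ (fun n => Eventually.of_forall fun z => ?_) ?_
      · exact ((hPl _).continuous.measurable.mul hDg.meas).aestronglyMeasurable
      · exact ((LB.of_continuous (by fun_prop)).mul hDg.abs).integrable
          ((hgv.D v).abs.mul_left _)
      · rw [Real.norm_eq_abs, abs_mul]
        gcongr
        have := (hPl (φ n)).dist_le_mul z 0
        rwa [hP0, Real.dist_eq, sub_zero, dist_zero_right] at this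
      · exact Eventually.of_forall fun z => (hlim z).mul_const _
    have e : ∀ n, ∫ z, moll (kn (φ n)) f z * g z = - ∫ z, P (φ n) z * D v g z := by
      intro n
      rw [← ibp (hPl _).locallyLipschitz hgL hgv]
      simp only [hD]
    simp only [e] at A
    have := tendsto_nhds_unique A B
    rw [← ibp hQ.locallyLipschitz hgL hgv] at this
    simp only [smul_eq_mul, mul_comm (g _)]
    exact this.symm
  refine ⟨Q, hQ, ?_, key ex ρ hρL hmρ (fun n z => by simp [hPD]), ?_⟩
  · have := hlim 0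
    simp only [hP0] at this
    exact (tendsto_nhds_unique tendsto_const_nhds this).symm
  · refine key et (fun z => - q z) hqL.neg (fun n z => ?_) (fun n z => ?_)
    · exact moll_abs_le (kern_kn n) hqL.neg z (Eventually.of_forall fun y _ => by simpa using hqb y)
    · have := moll_const_mul (kn n) q (-1) z
      simp only [neg_mul, one_mul] at this
      simp [hPD, this]

end Pool.Agent.MP_a93f81_an

end MrgPart2

-- ======== part 3: formerly Pool.Agent.MP_a93f81_an.Renorm
section MrgPart3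

/-!
Renormalisation and entropy inequalities for the nonlocal equation, written on potentials.
-/

set_option autoImplicit false

open MeasureTheory Filter Topology Set Metric
open scoped ContDiff

namespace Pool.Agent.MP_a93f81_an

/-- Potential of a density with values in the unit interval, constant in time for negative times. -/
structure Pot (U : Pl → ℝ) : Prop where
  lip : LipschitzWith 2 U
  mono : ∀ z (s : ℝ), 0 ≤ s → 0 ≤ U (z + s • ex) - U z ∧ U (z + s • ex) - U z ≤ s
  neg : ∀ z : Pl, z.1 ≤ 0 → U z = U (0, z.2)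

/-- Forward difference quotient in space. -/
noncomputable def quot (U : Pl → ℝ) (s : ℝ) (z : Pl) : ℝ := (U (z + s • ex) - U z) / s

/-- The nonlocal Hamilton-Jacobi equation, almost everywhere. -/
structure NL (ε : ℝ) (U : Pl → ℝ) : Prop extends Pot U where
  eq : ∀ᵐ z, z ∈ H → D et U z = - D ex U z * (1 - quot U ε z)

lemma Pot.ll {U : Pl → ℝ} (h : Pot U) : LocallyLipschitz U := h.lip.locallyLipschitz

lemma Pot.lb {U : Pl → ℝ} (h : Pot U) : LB U := LB.of_continuous h.lip.continuous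

lemma Pot.lbD {U : Pl → ℝ} (h : Pot U) (v : Pl) : LB (D v U) := LB.D h.ll v

lemma Pot.quot_mem {U : Pl → ℝ} (h : Pot U) {s : ℝ} (hs : 0 < s) (z : Pl) :
    quot U s z ∈ Icc (0 : ℝ) 1 :=
  ⟨div_nonneg (h.mono z s hs.le).1 hs.le, (div_le_one hs).2 (h.mono z s hs.le).2⟩

lemma Pot.Dx_mem {U : Pl → ℝ} (h : Pot U) (z : Pl) : D ex U z ∈ Icc (0 : ℝ) 1 := by
  by_cases hd : DifferentiableAt ℝ U z
  · refine isClosed_Icc.mem_of_tendsto (tendsto_quot ex hd) ?_
    filter_upwards [self_mem_nhdsWithin] with s hs using h.quot_mem hs z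
  · simp [D, fderiv_zero_of_not_differentiableAt hd]

lemma Pot.Dt_neg {U : Pl → ℝ} (h : Pot U) {z : Pl} (hz : z.1 < 0) : D et U z = 0 := by
  by_cases hd : DifferentiableAt ℝ U z
  · refine tendsto_nhds_unique (tendsto_quot et hd) (tendsto_const_nhds.congr' ?_)
    filter_upwards [Ioo_mem_nhdsGT (neg_pos.2 hz)] with s hs
    rw [h.neg z hz.le, h.neg (z + s • et) (by simp; linarith [hs.2])]
    simp
  · simp [D, fderiv_zero_of_not_differentiableAt hd]

lemma Pot.ae_Dt_neg {U : Pl → ℝ} (h : Pot U) : ∀ᵐ z, z ∉ H → D et U z = 0 := by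
  filter_upwards [ae_fst_ne 0] with z hz h1
  exact h.Dt_neg (lt_of_le_of_ne (not_lt.1 h1) hz)

lemma LL_quot {U : Pl → ℝ} (h : LocallyLipschitz U) (s : ℝ) : LocallyLipschitz (quot U s) :=
  LL_div_const (LL_sub (LL_shift h _) h) s

lemma Pot.lb_quot {U : Pl → ℝ} (h : Pot U) (s : ℝ) : LB (quot U s) :=
  LB.of_continuous (LL_quot h.ll s).continuous

lemma diffAt_shift {U : Pl → ℝ} {z a : Pl} (h : DifferentiableAt ℝ U (z + a)) :
    DifferentiableAt ℝ (fun y => U (y + a)) z :=
  h.comp z (differentiableAt_id.add_const a)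

lemma diffAt_quot {U : Pl → ℝ} {z : Pl} {s : ℝ} (h0 : DifferentiableAt ℝ U z)
    (h : DifferentiableAt ℝ U (z + s • ex)) : DifferentiableAt ℝ (quot U s) z := by
  unfold quot
  simp only [div_eq_mul_inv]
  exact ((diffAt_shift h).fun_sub h0).mul_const _

lemma D_quot {U : Pl → ℝ} {z : Pl} {s : ℝ} (v : Pl) (h0 : DifferentiableAt ℝ U z)
    (h : DifferentiableAt ℝ U (z + s • ex)) :
    D v (quot U s) z = (D v U (z + s • ex) - D v U z) / s := by
  unfold quot
  rw [D_div_const v s ((diffAt_shift h).fun_sub h0), D_sub v (diffAt_shift h) h0, D_shift]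

lemma mem_H_shift {z : Pl} (s : ℝ) : z + s • ex ∈ H ↔ z ∈ H := by simp [H]

lemma mem_H_shift_sub {z : Pl} (s : ℝ) : z - s • ex ∈ H ↔ z ∈ H := by simp [H]

lemma LB.bound {f : Pl → ℝ} (hf : LB f) (hv : Van f) :
    ∃ C R : ℝ, 0 ≤ C ∧ ∀ z, |f z| ≤ C ∧ (R < ‖z‖ → f z = 0) := by
  obtain ⟨R, hR⟩ := hv
  obtain ⟨C, hC⟩ := hf.bdd R
  refine ⟨max C 0, R, le_max_right _ _, fun z => ⟨?_, hR z⟩⟩
  by_cases h : R < ‖z‖
  · simp [hR z h]
  · exact (hC z (not_lt.1 h)).trans (le_max_left _ _)

lemma tendsto_setInt {ι : Type*} {l : Filter ι} [l.IsCountablyGenerated] {f : ι → Pl → ℝ}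
    {g : Pl → ℝ} (s : Set Pl) (C R : ℝ) (hm : ∀ᶠ i in l, Measurable (f i))
    (hb : ∀ᶠ i in l, ∀ z, |f i z| ≤ C ∧ (R < ‖z‖ → f i z = 0))
    (hlim : ∀ᵐ z, Tendsto (fun i => f i z) l (𝓝 (g z))) :
    Tendsto (fun i => ∫ z in s, f i z) l (𝓝 (∫ z in s, g z)) := by
  refine tendsto_integral_filter_of_dominated_convergence
    ((closedBall (0 : Pl) R).indicator (fun _ => C)) ?_ ?_ ?_ (ae_restrict_of_ae hlim)
  · filter_upwards [hm] with i hi using hi.aestronglyMeasurable
  · filter_upwards [hb] with i hi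
    filter_upwards with z
    by_cases hz : z ∈ closedBall (0 : Pl) R
    · rw [indicator_of_mem hz]; exact (hi z).1
    · rw [indicator_of_notMem hz, (hi z).2 (by simpa using hz)]; simp
  · refine ((LB.const C).indicator measurableSet_closedBall).integrableOn ?_ s
    exact ⟨R, fun z hz => indicator_of_notMem (by simpa using hz) _⟩

lemma tendsto_int {ι : Type*} {l : Filter ι} [l.IsCountablyGenerated] {f : ι → Pl → ℝ}
    {g : Pl → ℝ} (C R : ℝ) (hm : ∀ᶠ i in l, Measurable (f i))
    (hb : ∀ᶠ i in l, ∀ z, |f i z| ≤ C ∧ (R < ‖z‖ → f i z = 0))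
    (hlim : ∀ᵐ z, Tendsto (fun i => f i z) l (𝓝 (g z))) :
    Tendsto (fun i => ∫ z, f i z) l (𝓝 (∫ z, g z)) := by
  simpa using tendsto_setInt univ C R hm hb hlim

lemma abs_mul_le {a b A B : ℝ} (ha : |a| ≤ A) (hb : |b| ≤ B) : |a * b| ≤ A * B := by
  rw [abs_mul]; exact mul_le_mul ha hb (abs_nonneg _) ((abs_nonneg _).trans ha)

lemma abs_le_one_of_mem {a : ℝ} (h : a ∈ Icc (0 : ℝ) 1) : |a| ≤ 1 :=
  abs_le.2 ⟨by linarith [h.1], h.2⟩

lemma abs_sub_le_one_of_mem {a b : ℝ} (h : a ∈ Icc (0 : ℝ) 1) (h' : b ∈ Icc (0 : ℝ) 1) :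
    |a - b| ≤ 1 :=
  abs_le.2 ⟨by linarith [h.1, h'.2], by linarith [h.2, h'.1]⟩

/-- The renormalised identity for difference quotients. -/
lemma NL.renorm_quot {ε : ℝ} {U : Pl → ℝ} (hε : 0 < ε) (hU : NL ε U) {β : ℝ → ℝ}
    (hβ : ContDiff ℝ 1 β) {φ : Pl → ℝ} (hφ : LocallyLipschitz φ) (hv : Van φ) {h : ℝ}
    (hh : 0 < h) :
    (∫ z, β (quot U h z) * D et φ z)
      + ∫ z in H, (1 - quot U ε z) * β (quot U h z) * D ex φ z
    = - (∫ z in H, φ z * deriv β (quot U h z) * D ex U (z + h • ex)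
          * ((quot U h (z + ε • ex) - quot U h z) / ε))
      + ∫ z in H, φ z * β (quot U h z) * ((D ex U (z + ε • ex) - D ex U z) / ε) := by
  have hP := hU.toPot
  have hq := LL_quot hP.ll h
  have hW := LL_quot hP.ll ε
  have hβq := LL_comp hq hβ
  have hb : LocallyLipschitz (fun z => 1 - quot U ε z) := LL_sub (LL_const 1) hW
  have hβd : ∀ s, HasDerivAt β (deriv β s) s := fun s =>
    (hβ.differentiable (by simp) s).hasDerivAt
  have hβc : Continuous (deriv β) := hβ.continuous_deriv le_rfl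
  have Lφ := LB.of_continuous hφ.continuous
  have Lq := hP.lb_quot h
  have LW := hP.lb_quot ε
  have Lβ := Lq.comp hβ.continuous
  have Lβ' := Lq.comp hβc
  have Lu := hP.lbD ex
  have Lb : LB (fun z => 1 - quot U ε z) := (LB.const 1).sub LW
  have e1 := ibp hβq hφ hv et
  have e2 := ibp_H (LL_mul hb hβq) hφ hv
  have hd := LL_ae_diff hP.ll
  have e3 : ∫ z, D et (fun y => β (quot U h y)) z * φ z
      = ∫ z in H, deriv β (quot U h z) * ((- D ex U (z + h • ex) * (1 - quot U ε (z + h • ex))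
          + D ex U z * (1 - quot U ε z)) / h) * φ z := by
    rw [← integral_indicator measurableSet_H]
    refine integral_congr_ae ?_
    filter_upwards [hd, ae_shift hd (h • ex), hU.eq, ae_shift hU.eq (h • ex), hP.ae_Dt_neg,
      ae_shift hP.ae_Dt_neg (h • ex)] with z h1 h2 h3 h4 h5 h6
    rw [D_comp et (hβd _) (diffAt_quot h1 h2), D_quot et h1 h2]
    by_cases hz : z ∈ H
    · rw [indicator_of_mem hz, h3 hz, h4 ((mem_H_shift h).2 hz)]; ring
    · rw [indicator_of_notMem hz, h5 hz, h6 (fun hc => hz ((mem_H_shift h).1 hc))]; simp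
  have e4 : ∫ z in H, D ex (fun y => (1 - quot U ε y) * β (quot U h y)) z * φ z
      = ∫ z in H, ((1 - quot U ε z) * (deriv β (quot U h z)
          * ((D ex U (z + h • ex) - D ex U z) / h))
          - ((D ex U (z + ε • ex) - D ex U z) / ε) * β (quot U h z)) * φ z := by
    refine integral_congr_ae (ae_restrict_of_ae ?_)
    filter_upwards [hd, ae_shift hd (h • ex), ae_shift hd (ε • ex)] with z h1 h2 h3
    have h4 := diffAt_quot h1 h2
    have h5 := diffAt_quot h1 h3
    have h6 : DifferentiableAt ℝ (fun y => β (quot U h y)) z :=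
      (hβd _).differentiableAt.comp z h4
    rw [D_mul ex ((differentiableAt_const 1).fun_sub h5) h6, D_comp ex (hβd _) h4,
      D_sub ex (differentiableAt_const 1) h5, D_const, D_quot ex h1 h2, D_quot ex h1 h3]
    ring
  rw [e3] at e1
  rw [e4] at e2
  have i1 : IntegrableOn (fun z => deriv β (quot U h z)
      * ((- D ex U (z + h • ex) * (1 - quot U ε (z + h • ex))
          + D ex U z * (1 - quot U ε z)) / h) * φ z) H :=
    ((Lβ'.mul ((((Lu.shift _).neg.mul (Lb.shift _)).add (Lu.mul Lb)).div_const h)).mul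
      Lφ).integrableOn (hv.mul_left _) H
  have i2 : IntegrableOn (fun z => ((1 - quot U ε z) * (deriv β (quot U h z)
          * ((D ex U (z + h • ex) - D ex U z) / h))
          - ((D ex U (z + ε • ex) - D ex U z) / ε) * β (quot U h z)) * φ z) H :=
    (((Lb.mul (Lβ'.mul (((Lu.shift _).sub Lu).div_const h))).sub
      ((((Lu.shift _).sub Lu).div_const ε).mul Lβ)).mul Lφ).integrableOn (hv.mul_left _) H
  have i3 : IntegrableOn (fun z => φ z * deriv β (quot U h z) * D ex U (z + h • ex)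
          * ((quot U h (z + ε • ex) - quot U h z) / ε)) H :=
    (((Lφ.mul Lβ').mul (Lu.shift _)).mul (((Lq.shift _).sub Lq).div_const ε)).integrableOn
      (((hv.mul_right _).mul_right _).mul_right _) H
  have i4 : IntegrableOn (fun z => φ z * β (quot U h z)
      * ((D ex U (z + ε • ex) - D ex U z) / ε)) H :=
    ((Lφ.mul Lβ).mul (((Lu.shift _).sub Lu).div_const ε)).integrableOn
      ((hv.mul_right _).mul_right _) H
  have e5 := integral_add i1 i2
  have e6 := integral_sub i3 i4
  have e7 : ∫ z in H, (deriv β (quot U h z)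
      * ((- D ex U (z + h • ex) * (1 - quot U ε (z + h • ex))
          + D ex U z * (1 - quot U ε z)) / h) * φ z
      + ((1 - quot U ε z) * (deriv β (quot U h z)
          * ((D ex U (z + h • ex) - D ex U z) / h))
          - ((D ex U (z + ε • ex) - D ex U z) / ε) * β (quot U h z)) * φ z)
      = ∫ z in H, (φ z * deriv β (quot U h z) * D ex U (z + h • ex)
          * ((quot U h (z + ε • ex) - quot U h z) / ε)
        - φ z * β (quot U h z) * ((D ex U (z + ε • ex) - D ex U z) / ε)) := by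
    congr 1; ext z
    have : z + h • ex + ε • ex = z + ε • ex + h • ex := by abel
    simp only [quot, this]
    field_simp
    ring
  linarith

/-- The renormalised form of the nonlocal equation. -/
lemma NL.renorm {ε : ℝ} {U : Pl → ℝ} (hε : 0 < ε) (hU : NL ε U) {β : ℝ → ℝ}
    (hβ : ContDiff ℝ 1 β) {φ : Pl → ℝ} (hφ : LocallyLipschitz φ) (hv : Van φ) :
    (∫ z, β (D ex U z) * D et φ z)
      + ∫ z in H, (1 - quot U ε z) * β (D ex U z) * D ex φ z
    = - (∫ z in H, φ z * deriv β (D ex U z) * D ex U z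
          * ((D ex U (z + ε • ex) - D ex U z) / ε))
      + ∫ z in H, φ z * β (D ex U z) * ((D ex U (z + ε • ex) - D ex U z) / ε) := by
  have hP := hU.toPot
  have hβc : Continuous (deriv β) := hβ.continuous_deriv le_rfl
  obtain ⟨B, hB⟩ := (isCompact_Icc (a := (0 : ℝ)) (b := 1)).exists_bound_of_continuousOn
    hβ.continuous.continuousOn
  obtain ⟨B', hB'⟩ := (isCompact_Icc (a := (0 : ℝ)) (b := 1)).exists_bound_of_continuousOn
    hβc.continuousOn
  have Lφ := LB.of_continuous hφ.continuous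
  have LW := hP.lb_quot ε
  have Lu := hP.lbD ex
  have Lb : LB (fun z => 1 - quot U ε z) := (LB.const 1).sub LW
  obtain ⟨C0, R0, -, h0⟩ := Lφ.bound hv
  obtain ⟨C1, R1, -, h1⟩ := (LB.D hφ et).bound (hv.D et)
  obtain ⟨C2, R2, -, h2⟩ := (LB.D hφ ex).bound (hv.D ex)
  have hd := LL_ae_diff hP.ll
  have hq : ∀ᵐ z, Tendsto (fun h => quot U h z) (𝓝[>] 0) (𝓝 (D ex U z)) := by
    filter_upwards [hd] with z hz using tendsto_quot ex hz
  have hq' : ∀ᵐ z, Tendsto (fun h : ℝ => quot U h (z - h • ex)) (𝓝[>] 0) (𝓝 (D ex U z)) := by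
    filter_upwards [hd] with z hz
    simpa [quot] using tendsto_quot_neg ex hz
  have hdiv : ∀ {a b : ℝ}, a ∈ Icc (0 : ℝ) 1 → b ∈ Icc (0 : ℝ) 1 → |(a - b) / ε| ≤ 1 / ε := by
    intro a b ha hb
    rw [abs_div, abs_of_pos hε]
    gcongr
    exact abs_sub_le_one_of_mem ha hb
  have T1 : Tendsto (fun h => ∫ z, β (quot U h z) * D et φ z) (𝓝[>] 0)
      (𝓝 (∫ z, β (D ex U z) * D et φ z)) := by
    refine tendsto_int (B * C1) R1 (Eventually.of_forall fun h => ?_) ?_ ?_
    · exact (((hP.lb_quot h).comp hβ.continuous).mul (LB.D hφ et)).meas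
    · filter_upwards [self_mem_nhdsWithin] with h hh z
      exact ⟨abs_mul_le (hB _ (hP.quot_mem hh z)) (h1 z).1, fun hz => by simp [(h1 z).2 hz]⟩
    · filter_upwards [hq] with z hz
      exact ((hβ.continuous.tendsto _).comp hz).mul_const _
  have T2 : Tendsto (fun h => ∫ z in H, (1 - quot U ε z) * β (quot U h z) * D ex φ z) (𝓝[>] 0)
      (𝓝 (∫ z in H, (1 - quot U ε z) * β (D ex U z) * D ex φ z)) := by
    refine tendsto_setInt H (1 * B * C2) R2 (Eventually.of_forall fun h => ?_) ?_ ?_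
    · exact ((Lb.mul ((hP.lb_quot h).comp hβ.continuous)).mul (LB.D hφ ex)).meas
    · filter_upwards [self_mem_nhdsWithin] with h hh z
      exact ⟨abs_mul_le (abs_mul_le (abs_sub_le_one_of_mem (by simp) (hP.quot_mem hε z))
        (hB _ (hP.quot_mem hh z))) (h2 z).1, fun hz => by simp [(h2 z).2 hz]⟩
    · filter_upwards [hq] with z hz
      exact (((hβ.continuous.tendsto _).comp hz).const_mul _).mul_const _
  have T3 : Tendsto (fun h => ∫ z in H, φ z * deriv β (quot U h z) * D ex U (z + h • ex)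
          * ((quot U h (z + ε • ex) - quot U h z) / ε)) (𝓝[>] 0)
      (𝓝 (∫ z in H, φ z * deriv β (D ex U z) * D ex U z
          * ((D ex U (z + ε • ex) - D ex U z) / ε))) := by
    have e : ∀ h : ℝ, ∫ z in H, φ z * deriv β (quot U h z) * D ex U (z + h • ex)
          * ((quot U h (z + ε • ex) - quot U h z) / ε)
        = ∫ z in H, φ (z - h • ex) * deriv β (quot U h (z - h • ex)) * D ex U z
          * ((quot U h (z + ε • ex - h • ex) - quot U h (z - h • ex)) / ε) := by
      intro h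
      rw [← int_H_shift (fun z => φ (z - h • ex) * deriv β (quot U h (z - h • ex)) * D ex U z
          * ((quot U h (z + ε • ex - h • ex) - quot U h (z - h • ex)) / ε)) h]
      congr 1; ext z
      have : z + h • ex + ε • ex - h • ex = z + ε • ex := by abel
      simp only [add_sub_cancel_right, this]
    simp only [e]
    refine tendsto_setInt H (C0 * B' * 1 * (1 / ε)) (R0 + 1)
      (Eventually.of_forall fun h => ?_) ?_ ?_
    · have Lq := (hP.lb_quot h).shift_sub (h • ex)
      refine ((((Lφ.shift_sub _).mul (Lq.comp hβc)).mul Lu).mul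
        ((LB.sub ?_ Lq).div_const ε)).meas
      exact Lq.shift (ε • ex)
    · filter_upwards [Ioc_mem_nhdsGT zero_lt_one] with h hh z
      refine ⟨abs_mul_le (abs_mul_le (abs_mul_le (h0 _).1 (hB' _ (hP.quot_mem hh.1 _)))
        (abs_le_one_of_mem (hP.Dx_mem z))) (hdiv (hP.quot_mem hh.1 _) (hP.quot_mem hh.1 _)),
        fun hz => ?_⟩
      have : R0 < ‖z - h • ex‖ := by
        have := norm_add_le (z - h • ex) (h • ex)
        rw [sub_add_cancel, norm_smul, norm_ex, Real.norm_eq_abs, abs_of_pos hh.1] at this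
        linarith [hh.2]
      simp [(h0 _).2 this]
    · filter_upwards [hq', ae_shift hq' (ε • ex)] with z hz hz'
      have hφ' : Tendsto (fun h : ℝ => φ (z - h • ex)) (𝓝[>] 0) (𝓝 (φ z)) := by
        have hc : Continuous (fun h : ℝ => φ (z - h • ex)) := by
          have := hφ.continuous
          fun_prop
        simpa using tendsto_nhdsWithin_of_tendsto_nhds (s := Ioi (0 : ℝ)) (hc.tendsto 0)
      exact ((hφ'.mul ((hβc.tendsto _).comp hz)).mul_const _).mul ((hz'.sub hz).div_const ε)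
  have T4 : Tendsto (fun h => ∫ z in H, φ z * β (quot U h z)
        * ((D ex U (z + ε • ex) - D ex U z) / ε)) (𝓝[>] 0)
      (𝓝 (∫ z in H, φ z * β (D ex U z) * ((D ex U (z + ε • ex) - D ex U z) / ε))) := by
    refine tendsto_setInt H (C0 * B * (1 / ε)) R0 (Eventually.of_forall fun h => ?_) ?_ ?_
    · exact ((Lφ.mul ((hP.lb_quot h).comp hβ.continuous)).mul
        (((Lu.shift _).sub Lu).div_const ε)).meas
    · filter_upwards [self_mem_nhdsWithin] with h hh z
      exact ⟨abs_mul_le (abs_mul_le (h0 z).1 (hB _ (hP.quot_mem hh z)))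
        (hdiv (hP.Dx_mem _) (hP.Dx_mem _)), fun hz => by simp [(h0 z).2 hz]⟩
    · filter_upwards [hq] with z hz
      exact (((hβ.continuous.tendsto _).comp hz).const_mul _).mul_const _
  refine tendsto_nhds_unique (T1.add T2) ((T3.neg.add T4).congr' ?_)
  filter_upwards [self_mem_nhdsWithin] with h hh
  exact (hU.renorm_quot hε hβ hφ hv hh).symm

/-- The general entropy inequality for the nonlocal equation. -/
lemma NL.entropy {ε : ℝ} {U : Pl → ℝ} (hε : 0 < ε) (hU : NL ε U) {β γ : ℝ → ℝ} {d : ℝ × ℝ → ℝ}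
    (hβ : ContDiff ℝ 1 β) (hγ : Continuous γ) (hd : Continuous d)
    (hineq : ∀ s ∈ Icc (0 : ℝ) 1, ∀ s' ∈ Icc (0 : ℝ) 1,
      (s * deriv β s - β s) * (s' - s) ≤ γ s' - γ s - d (s, s'))
    {φ : Pl → ℝ} (hφ : LocallyLipschitz φ) (hv : Van φ) (hpos : ∀ z, 0 ≤ φ z) :
    (∫ z in H, φ z * d (D ex U z, D ex U (z + ε • ex))) / ε
    ≤ (∫ z, β (D ex U z) * D et φ z)
      + ∫ z in H, ((1 - quot U ε z) * β (D ex U z) * D ex φ z
          - γ (D ex U z) * ((φ z - φ (z - ε • ex)) / ε)) := by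
  have hP := hU.toPot
  have hβc : Continuous (deriv β) := hβ.continuous_deriv le_rfl
  have Lφ := LB.of_continuous hφ.continuous
  have LW := hP.lb_quot ε
  have Lu := hP.lbD ex
  have Lb : LB (fun z => 1 - quot U ε z) := (LB.const 1).sub LW
  have Ld : LB (fun z => d (D ex U z, D ex U (z + ε • ex))) := by
    obtain ⟨B, hB⟩ := ((isCompact_Icc (a := (0 : ℝ)) (b := 1)).prod
      (isCompact_Icc (a := (0 : ℝ)) (b := 1))).exists_bound_of_continuousOn hd.continuousOn
    exact LB.of_bdd (hd.measurable.comp (Lu.meas.prodMk (Lu.shift _).meas)) B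
      fun z => hB _ ⟨hP.Dx_mem _, hP.Dx_mem _⟩
  have r := hU.renorm hε hβ hφ hv
  have i1 : IntegrableOn (fun z => (1 - quot U ε z) * β (D ex U z) * D ex φ z) H :=
    ((Lb.mul (Lu.comp hβ.continuous)).mul (LB.D hφ ex)).integrableOn ((hv.D ex).mul_left _) H
  have i2 : IntegrableOn (fun z => γ (D ex U z) * φ z) H :=
    ((Lu.comp hγ).mul Lφ).integrableOn (hv.mul_left _) H
  have i3 : IntegrableOn (fun z => γ (D ex U z) * φ (z - ε • ex)) H :=
    ((Lu.comp hγ).mul (Lφ.shift_sub _)).integrableOn ((hv.shift_sub _).mul_left _) H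
  have i4 : IntegrableOn (fun z => γ (D ex U (z + ε • ex)) * φ z) H :=
    (((Lu.shift _).comp hγ).mul Lφ).integrableOn (hv.mul_left _) H
  have i5 : IntegrableOn (fun z => φ z * d (D ex U z, D ex U (z + ε • ex))) H :=
    (Lφ.mul Ld).integrableOn (hv.mul_right _) H
  have i6 : IntegrableOn (fun z => φ z * deriv β (D ex U z) * D ex U z
          * ((D ex U (z + ε • ex) - D ex U z) / ε)) H :=
    (((Lφ.mul (Lu.comp hβc)).mul Lu).mul (((Lu.shift _).sub Lu).div_const ε)).integrableOn
      (((hv.mul_right _).mul_right _).mul_right _) H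
  have i7 : IntegrableOn (fun z => φ z * β (D ex U z)
      * ((D ex U (z + ε • ex) - D ex U z) / ε)) H :=
    ((Lφ.mul (Lu.comp hβ.continuous)).mul (((Lu.shift _).sub Lu).div_const ε)).integrableOn
      ((hv.mul_right _).mul_right _) H
  have e1 : ∫ z in H, γ (D ex U z) * φ (z - ε • ex)
      = ∫ z in H, γ (D ex U (z + ε • ex)) * φ z := by
    rw [← int_H_shift (fun z => γ (D ex U z) * φ (z - ε • ex)) ε]
    simp
  have e2 : ∫ z in H, ((1 - quot U ε z) * β (D ex U z) * D ex φ z
          - γ (D ex U z) * ((φ z - φ (z - ε • ex)) / ε))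
      = (∫ z in H, (1 - quot U ε z) * β (D ex U z) * D ex φ z)
        - ((∫ z in H, γ (D ex U z) * φ z) - ∫ z in H, γ (D ex U z) * φ (z - ε • ex)) / ε := by
    have i8 : IntegrableOn (fun z => (γ (D ex U z) * φ z - γ (D ex U z) * φ (z - ε • ex)) / ε) H :=
      (i2.sub i3).div_const ε
    rw [← integral_sub i2 i3, ← integral_div, ← integral_sub i1 i8]
    congr 1; ext z; ring
  have key : ∫ z in H, (φ z * deriv β (D ex U z) * D ex U z
          * ((D ex U (z + ε • ex) - D ex U z) / ε)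
        - φ z * β (D ex U z) * ((D ex U (z + ε • ex) - D ex U z) / ε))
      ≤ ∫ z in H, (γ (D ex U (z + ε • ex)) * φ z - γ (D ex U z) * φ z
          - φ z * d (D ex U z, D ex U (z + ε • ex))) / ε := by
    refine integral_mono (i6.sub i7) (((i4.sub i2).sub i5).div_const ε) fun z => ?_
    have := mul_le_mul_of_nonneg_left (hineq _ (hP.Dx_mem z) _ (hP.Dx_mem (z + ε • ex))) (hpos z)
    have h2 := div_le_div_of_nonneg_right this hε.le
    refine le_trans (le_of_eq ?_) (h2.trans (le_of_eq ?_)) <;> ring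
  have i9 : IntegrableOn (fun z => γ (D ex U (z + ε • ex)) * φ z - γ (D ex U z) * φ z) H :=
    i4.sub i2
  rw [integral_sub i6 i7, integral_div, integral_sub i9 i5, integral_sub i4 i2] at key
  rw [e2, e1]
  have e3 : ((∫ z in H, γ (D ex U (z + ε • ex)) * φ z) - (∫ z in H, γ (D ex U z) * φ z)
      - ∫ z in H, φ z * d (D ex U z, D ex U (z + ε • ex))) / ε
      = - ((∫ z in H, γ (D ex U z) * φ z) - ∫ z in H, γ (D ex U (z + ε • ex)) * φ z) / ε
        - (∫ z in H, φ z * d (D ex U z, D ex U (z + ε • ex))) / ε := by ring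
  rw [e3] at key
  have e4 : - ((∫ z in H, γ (D ex U z) * φ z) - ∫ z in H, γ (D ex U (z + ε • ex)) * φ z) / ε
      = - (((∫ z in H, γ (D ex U z) * φ z) - ∫ z in H, γ (D ex U (z + ε • ex)) * φ z) / ε) := by
    ring
  linarith

end Pool.Agent.MP_a93f81_an

end MrgPart3

-- ======== part 4: formerly Pool.Agent.MP_a93f81_an.Dissip
section MrgPart4

/-!
Dissipation bound and a one sided entropy inequality for the nonlocal equation.
-/

set_option autoImplicit false

open MeasureTheory Filter Topology Set Metric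
open scoped ContDiff

namespace Pool.Agent.MP_a93f81_an

/-- Area of a ball. -/
noncomputable def vb (R : ℝ) : ℝ := (volume : Measure Pl).real (closedBall 0 R)

lemma vb_nonneg (R : ℝ) : 0 ≤ vb R := measureReal_nonneg

lemma abs_setInt_le {f : Pl → ℝ} (s : Set Pl) (c : Pl) {C R : ℝ}
    (h : ∀ z, |f z| ≤ C ∧ (R < ‖z - c‖ → f z = 0)) : |∫ z in s, f z| ≤ C * vb R := by
  have hC : 0 ≤ C := (abs_nonneg _).trans (h 0).1
  have hi : Integrable ((closedBall c R).indicator (fun _ : Pl => C)) :=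
    (integrable_indicator_iff measurableSet_closedBall).2
      (integrableOn_const measure_closedBall_lt_top.ne)
  calc |∫ z in s, f z| ≤ ∫ z in s, (closedBall c R).indicator (fun _ : Pl => C) z := by
        rw [← Real.norm_eq_abs]
        refine norm_integral_le_of_norm_le hi.integrableOn (Eventually.of_forall fun z => ?_)
        by_cases hz : z ∈ closedBall c R
        · rw [indicator_of_mem hz]; exact (h z).1
        · rw [indicator_of_notMem hz, (h z).2 (by simpa [dist_eq_norm] using hz)]; simp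
    _ ≤ ∫ z, (closedBall c R).indicator (fun _ : Pl => C) z :=
        setIntegral_le_integral hi (Eventually.of_forall fun z =>
          indicator_nonneg (fun _ _ => hC) z)
    _ = C * vb R := by
        rw [integral_indicator measurableSet_closedBall, setIntegral_const, smul_eq_mul, mul_comm,
          vb, Measure.addHaar_real_closedBall_center]

lemma abs_int_le {f : Pl → ℝ} (c : Pl) {C R : ℝ}
    (h : ∀ z, |f z| ≤ C ∧ (R < ‖z - c‖ → f z = 0)) : |∫ z, f z| ≤ C * vb R := by
  simpa using abs_setInt_le univ c h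

lemma D_eq_zero_far {φ : Pl → ℝ} {c : Pl} {R : ℝ} (h : ∀ z, R < ‖z - c‖ → φ z = 0) (v : Pl)
    (z : Pl) (hz : R < ‖z - c‖) : D v φ z = 0 := by
  have : φ =ᶠ[𝓝 z] fun _ => 0 := by
    filter_upwards [(isOpen_lt continuous_const (by fun_prop : Continuous fun y : Pl => ‖y - c‖)
      ).mem_nhds hz] with y hy
    exact h y hy
  rw [D_congr v this, D_const]

lemma van_of_far {φ : Pl → ℝ} {c : Pl} {R : ℝ} (h : ∀ z, R < ‖z - c‖ → φ z = 0) : Van φ := by
  refine ⟨R + ‖c‖, fun z hz => h z ?_⟩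
  have := norm_add_le (z - c) c
  rw [sub_add_cancel] at this
  linarith

lemma abs_back_quot_le {φ : Pl → ℝ} {K : NNReal} (hφ : LipschitzWith K φ) {ε : ℝ} (hε : 0 < ε)
    (z : Pl) : |(φ z - φ (z - ε • ex)) / ε| ≤ K := by
  have := hφ.dist_le_mul z (z - ε • ex)
  rw [Real.dist_eq, dist_eq_norm, sub_sub_cancel, norm_smul, norm_ex, Real.norm_eq_abs,
    abs_of_pos hε, mul_one] at this
  rw [abs_div, abs_of_pos hε, div_le_iff₀ hε]
  exact this

lemma far_shift {c z : Pl} {R ε : ℝ} (hε : 0 < ε) (hε1 : ε ≤ 1) (hz : R + 1 < ‖z - c‖) :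
    R < ‖z - ε • ex - c‖ := by
  have := norm_add_le (z - ε • ex - c) (ε • ex)
  rw [norm_smul, norm_ex, Real.norm_eq_abs, abs_of_pos hε,
    show z - ε • ex - c + ε • ex = z - c by abel] at this
  linarith

/-- The cubic dissipation bound. -/
lemma NL.dissip {ε : ℝ} {U : Pl → ℝ} (hε : 0 < ε) (hε1 : ε ≤ 1) (hU : NL ε U)
    {φ : Pl → ℝ} {K : NNReal} (hφ : LipschitzWith K φ) {c : Pl} {R : ℝ}
    (hfar : ∀ z, R < ‖z - c‖ → φ z = 0) (hpos : ∀ z, 0 ≤ φ z) :
    ∫ z in H, φ z * |D ex U (z + ε • ex) - D ex U z| ^ 3 ≤ ε * (18 * K * vb (R + 1)) := by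
  have hP := hU.toPot
  have hβ : ContDiff ℝ 1 (fun s : ℝ => s ^ 2 / 2) := by fun_prop
  have hd : ∀ s : ℝ, deriv (fun s : ℝ => s ^ 2 / 2) s = s := by
    intro s
    simp
  have h := hU.entropy hε (γ := fun s => s ^ 3 / 6) (d := fun p => |p.2 - p.1| ^ 3 / 6) hβ
    (by fun_prop) (by fun_prop) (by
      intro s hs s' hs'
      rw [hd]
      have h1 : |s' - s| ≤ s' + 2 * s := abs_le.2 ⟨by linarith [hs.1, hs'.1], by linarith [hs.1]⟩
      have h2 : |s' - s| ^ 3 ≤ (s' - s) ^ 2 * (s' + 2 * s) := by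
        rw [pow_succ, sq_abs]
        gcongr
      nlinarith [h2]) hφ.locallyLipschitz (van_of_far hfar) hpos
  have hK : (0 : ℝ) ≤ K := K.coe_nonneg
  have hu2 : ∀ z, |D ex U z ^ 2 / 2| ≤ 1 := fun z => by
    have := hP.Dx_mem z
    rw [abs_of_nonneg (by positivity)]
    nlinarith [this.1, this.2]
  have hu3 : ∀ z, |D ex U z ^ 3 / 6| ≤ 1 := fun z => by
    have := hP.Dx_mem z
    have h3 : D ex U z ^ 3 ≤ 1 := pow_le_one₀ this.1 this.2
    have h4 : 0 ≤ D ex U z ^ 3 := pow_nonneg this.1 3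
    rw [abs_of_nonneg (by positivity)]
    linarith
  have b1 : |∫ z, D ex U z ^ 2 / 2 * D et φ z| ≤ K * vb (R + 1) := by
    refine abs_int_le c fun z => ⟨?_, fun hz => ?_⟩
    · simpa using abs_mul_le (hu2 z) (abs_D_le_of_lip hφ et z)
    · rw [D_eq_zero_far hfar et z (by linarith), mul_zero]
  have b2 : |∫ z in H, ((1 - quot U ε z) * (D ex U z ^ 2 / 2) * D ex φ z
          - D ex U z ^ 3 / 6 * ((φ z - φ (z - ε • ex)) / ε))| ≤ (K + K) * vb (R + 1) := by
    refine abs_setInt_le H c fun z => ⟨?_, fun hz => ?_⟩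
    · refine (abs_sub _ _).trans (add_le_add ?_ ?_)
      · simpa using abs_mul_le (abs_mul_le (abs_sub_le_one_of_mem (a := 1) (by simp)
          (hP.quot_mem hε z)) (hu2 z)) (abs_D_le_of_lip hφ ex z)
      · simpa using abs_mul_le (hu3 z) (abs_back_quot_le hφ hε z)
    · rw [D_eq_zero_far hfar ex z (by linarith), hfar z (by linarith),
        hfar _ (far_shift hε hε1 hz)]
      simp
  have e : ∫ z in H, φ z * (|D ex U (z + ε • ex) - D ex U z| ^ 3 / 6)
      = (∫ z in H, φ z * |D ex U (z + ε • ex) - D ex U z| ^ 3) / 6 := by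
    rw [← integral_div]; congr 1; ext z; ring
  simp only [e] at h
  have h3 := (le_abs_self _).trans b1
  have h4 := (le_abs_self _).trans b2
  have h5 : (∫ z in H, φ z * |D ex U (z + ε • ex) - D ex U z| ^ 3) / 6 / ε
      ≤ 3 * K * vb (R + 1) := by linarith
  rw [div_div, div_le_iff₀ (by positivity)] at h5
  linarith

/-- The first order consequence of the dissipation bound. -/
lemma NL.dissip_one {ε : ℝ} {U : Pl → ℝ} (hε : 0 < ε) (hε1 : ε ≤ 1) (hU : NL ε U)
    {φ : Pl → ℝ} {K : NNReal} (hφ : LipschitzWith K φ) {c : Pl} {R : ℝ}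
    (hfar : ∀ z, R < ‖z - c‖ → φ z = 0) (hpos : ∀ z, 0 ≤ φ z) {η : ℝ} (hη : 0 < η) :
    ∫ z in H, φ z * |D ex U (z + ε • ex) - D ex U z|
      ≤ η * (∫ z, φ z) + ε * (18 * K * vb (R + 1)) / η ^ 2 := by
  have hP := hU.toPot
  have h := hU.dissip hε hε1 hφ hfar hpos
  have Lφ := LB.of_continuous hφ.continuous
  have hv := van_of_far hfar
  have Lu := hP.lbD ex
  have La := ((Lu.shift (ε • ex)).sub Lu).abs
  have i1 : IntegrableOn (fun z => η * φ z) H := (Lφ.const_mul η).integrableOn (hv.mul_left _) H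
  have i2 : IntegrableOn (fun z => φ z * |D ex U (z + ε • ex) - D ex U z| ^ 3 / η ^ 2) H :=
    ((Lφ.mul (La.pow 3)).div_const _).integrableOn ((hv.mul_right _).div_const _) H
  calc ∫ z in H, φ z * |D ex U (z + ε • ex) - D ex U z|
      ≤ ∫ z in H, (η * φ z + φ z * |D ex U (z + ε • ex) - D ex U z| ^ 3 / η ^ 2) := by
        refine integral_mono ((Lφ.mul La).integrableOn (hv.mul_right _) H) (i1.add i2) fun z => ?_
        have key : ∀ a : ℝ, 0 ≤ a → a ≤ η + a ^ 3 / η ^ 2 := by
          intro a ha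
          by_cases h1 : a ≤ η
          · have : 0 ≤ a ^ 3 / η ^ 2 := by positivity
            linarith
          · have h2 : a ≤ a ^ 3 / η ^ 2 := by
              rw [le_div_iff₀ (by positivity)]
              have : η ^ 2 ≤ a ^ 2 := by gcongr; exact (not_le.1 h1).le
              nlinarith
            linarith
        have := mul_le_mul_of_nonneg_left (key _ (abs_nonneg (D ex U (z + ε • ex) - D ex U z)))
          (hpos z)
        refine this.trans (le_of_eq ?_)
        ring
    _ = η * (∫ z in H, φ z)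
        + (∫ z in H, φ z * |D ex U (z + ε • ex) - D ex U z| ^ 3) / η ^ 2 := by
        rw [integral_add i1 i2, integral_const_mul, integral_div]
    _ ≤ _ := by
        have := setIntegral_le_integral (s := H) (Lφ.integrable hv) (Eventually.of_forall hpos)
        exact add_le_add (mul_le_mul_of_nonneg_left this hη.le)
          (div_le_div_of_nonneg_right h (by positivity))

/-- Smooth approximation of the negative part. -/
noncomputable def bapp (k η s : ℝ) : ℝ := (√((s - k) ^ 2 + η ^ 2) - (s - k)) / 2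

lemma bapp_hasDerivAt (k : ℝ) {η : ℝ} (hη : 0 < η) (s : ℝ) :
    HasDerivAt (bapp k η) (((s - k) / √((s - k) ^ 2 + η ^ 2) - 1) / 2) s := by
  have h1 : HasDerivAt (fun s : ℝ => (s - k) ^ 2 + η ^ 2) (2 * (s - k)) s := by
    simpa using (((hasDerivAt_id s).sub_const k).fun_pow 2).add_const (η ^ 2)
  have h2 := h1.sqrt (by positivity)
  have h3 := (h2.fun_sub ((hasDerivAt_id s).sub_const k)).div_const 2
  have : 0 < √((s - k) ^ 2 + η ^ 2) := by positivity
  refine h3.congr_deriv ?_
  field_simp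

lemma bapp_contDiff (k : ℝ) {η : ℝ} (hη : 0 < η) : ContDiff ℝ 1 (bapp k η) := by
  unfold bapp
  refine (ContDiff.sub (ContDiff.sqrt (by fun_prop) fun s => by positivity)
    (by fun_prop)).div_const 2

lemma bapp_ineq {k η : ℝ} (hk : 0 ≤ k) (hη : 0 < η) {s s' : ℝ} (hs : s ∈ Icc (0 : ℝ) 1)
    (hs' : s' ∈ Icc (0 : ℝ) 1) :
    (s * deriv (bapp k η) s - bapp k η s) * (s' - s) ≤ k * bapp k η s' - k * bapp k η s - (-η) := by
  rw [(bapp_hasDerivAt k hη s).deriv]
  unfold bapp
  set a := s - k with ha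
  set a' := s' - k with ha'
  set r := √(a ^ 2 + η ^ 2) with hr
  set r' := √(a' ^ 2 + η ^ 2) with hr'
  have hr0 : 0 < r := by positivity
  have hr2 : r ^ 2 = a ^ 2 + η ^ 2 := Real.sq_sqrt (by positivity)
  have hr2' : r' ^ 2 = a' ^ 2 + η ^ 2 := Real.sq_sqrt (by positivity)
  have hr0' : 0 < r' := by positivity
  have cs : a * a' + η ^ 2 ≤ r * r' := by
    refine (abs_le_of_sq_le_sq' ?_ (by positivity)).2
    rw [mul_pow, hr2, hr2']
    nlinarith [sq_nonneg (η * (a - a'))]
  have hrη : η ≤ r := (abs_le_of_sq_le_sq' (by rw [hr2]; nlinarith [sq_nonneg a]) hr0.le).2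
  have e1 : s = a + k := by rw [ha]; ring
  have e2 : s' - s = a' - a := by rw [ha, ha']; ring
  have h1 : (a / r - 1) / 2 * (a' - a) ≤ (r' - a') / 2 - (r - a) / 2 := by
    have : a / r * (a' - a) ≤ r' - r := by
      rw [div_mul_eq_mul_div, div_le_iff₀ hr0]
      nlinarith
    linarith
  have h2 : |a * ((a / r - 1) / 2) - (r - a) / 2| ≤ η := by
    have : a * ((a / r - 1) / 2) - (r - a) / 2 = - (η * (η / r) / 2) := by
      field_simp
      nlinarith
    rw [this, abs_neg, abs_of_nonneg (by positivity)]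
    have h3 : η / r ≤ 1 := (div_le_one hr0).2 hrη
    nlinarith
  have h3 : |a' - a| ≤ 1 := by rw [← e2]; exact abs_sub_le_one_of_mem hs' hs
  have h4 := (le_abs_self _).trans (abs_mul_le h2 h3)
  have h5 := mul_le_mul_of_nonneg_left h1 hk
  rw [e2]
  have e3 : (s * ((a / r - 1) / 2) - (r - a) / 2) * (a' - a)
      = k * ((a / r - 1) / 2 * (a' - a)) + (a * ((a / r - 1) / 2) - (r - a) / 2) * (a' - a) := by
    rw [e1]; ring
  rw [e3]
  linarith

lemma bapp_abs_le {k η s : ℝ} (hk : k ∈ Icc (0 : ℝ) 1) (hη : η ∈ Ioc (0 : ℝ) 1)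
    (hs : s ∈ Icc (0 : ℝ) 1) : |bapp k η s| ≤ 2 := by
  have h1 := abs_le.1 (abs_sub_le_one_of_mem hs hk)
  have h2 : √((s - k) ^ 2 + η ^ 2) ≤ 2 := by
    rw [Real.sqrt_le_iff]
    constructor
    · norm_num
    · nlinarith [hη.1, hη.2]
  have h3 : 0 ≤ √((s - k) ^ 2 + η ^ 2) := Real.sqrt_nonneg _
  unfold bapp
  rw [abs_le]
  constructor <;> linarith [h1.1, h1.2]

lemma bapp_tendsto (k s : ℝ) : Tendsto (fun η => bapp k η s) (𝓝[>] 0) (𝓝 (max (k - s) 0)) := by
  have hc : Continuous (fun η => bapp k η s) := by unfold bapp; fun_prop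
  have := tendsto_nhdsWithin_of_tendsto_nhds (s := Ioi (0 : ℝ)) (hc.tendsto 0)
  convert this using 2
  unfold bapp
  rw [show (s - k) ^ 2 + (0 : ℝ) ^ 2 = (s - k) ^ 2 by ring, Real.sqrt_sq_eq_abs]
  rcases le_total s k with h | h
  · rw [abs_of_nonpos (by linarith), max_eq_left (by linarith)]; ring
  · rw [abs_of_nonneg (by linarith), max_eq_right (by linarith)]; ring

/-- The entropy inequality for the negative part of `u - k`. -/
lemma NL.kruz {ε : ℝ} {U : Pl → ℝ} (hε : 0 < ε) (hU : NL ε U) {k : ℝ} (hk : k ∈ Icc (0 : ℝ) 1)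
    {φ : Pl → ℝ} (hφ : LocallyLipschitz φ) (hv : Van φ) (hpos : ∀ z, 0 ≤ φ z) :
    0 ≤ (∫ z, max (k - D ex U z) 0 * D et φ z)
      + ∫ z in H, max (k - D ex U z) 0
          * ((1 - quot U ε z) * D ex φ z - k * ((φ z - φ (z - ε • ex)) / ε)) := by
  have hP := hU.toPot
  have Lφ := LB.of_continuous hφ.continuous
  have Lu := hP.lbD ex
  have LG : LB (fun z => (1 - quot U ε z) * D ex φ z - k * ((φ z - φ (z - ε • ex)) / ε)) :=
    (((LB.const 1).sub (hP.lb_quot ε)).mul (LB.D hφ ex)).sub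
      (((Lφ.sub (Lφ.shift_sub _)).div_const ε).const_mul k)
  have VG : Van (fun z => (1 - quot U ε z) * D ex φ z - k * ((φ z - φ (z - ε • ex)) / ε)) :=
    ((hv.D ex).mul_left _).sub (((hv.sub (hv.shift_sub _)).div_const ε).mul_left (fun _ => k))
  obtain ⟨C1, R1, -, h1⟩ := (LB.D hφ et).bound (hv.D et)
  obtain ⟨C2, R2, -, h2⟩ := LG.bound VG
  have T1 : Tendsto (fun η => ∫ z, bapp k η (D ex U z) * D et φ z) (𝓝[>] 0)
      (𝓝 (∫ z, max (k - D ex U z) 0 * D et φ z)) := by
    refine tendsto_int (2 * C1) R1 ?_ ?_ (Eventually.of_forall fun z => ?_)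
    · filter_upwards [self_mem_nhdsWithin] with η hη
      exact ((Lu.comp (bapp_contDiff k hη).continuous).mul (LB.D hφ et)).meas
    · filter_upwards [Ioc_mem_nhdsGT zero_lt_one] with η hη z
      exact ⟨abs_mul_le (bapp_abs_le hk hη (hP.Dx_mem z)) (h1 z).1,
        fun hz => by simp [(h1 z).2 hz]⟩
    · exact (bapp_tendsto k _).mul_const _
  have T2 : Tendsto (fun η => ∫ z in H, bapp k η (D ex U z)
          * ((1 - quot U ε z) * D ex φ z - k * ((φ z - φ (z - ε • ex)) / ε))) (𝓝[>] 0)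
      (𝓝 (∫ z in H, max (k - D ex U z) 0
          * ((1 - quot U ε z) * D ex φ z - k * ((φ z - φ (z - ε • ex)) / ε)))) := by
    refine tendsto_setInt H (2 * C2) R2 ?_ ?_ (Eventually.of_forall fun z => ?_)
    · filter_upwards [self_mem_nhdsWithin] with η hη
      exact ((Lu.comp (bapp_contDiff k hη).continuous).mul LG).meas
    · filter_upwards [Ioc_mem_nhdsGT zero_lt_one] with η hη z
      exact ⟨abs_mul_le (bapp_abs_le hk hη (hP.Dx_mem z)) (h2 z).1,
        fun hz => by rw [(h2 z).2 hz, mul_zero]⟩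
    · exact (bapp_tendsto k _).mul_const _
  have T3 : Tendsto (fun η : ℝ => (-η * ∫ z in H, φ z) / ε) (𝓝[>] 0) (𝓝 0) := by
    have hc : Continuous (fun η : ℝ => (-η * ∫ z in H, φ z) / ε) := by fun_prop
    simpa using tendsto_nhdsWithin_of_tendsto_nhds (s := Ioi (0 : ℝ)) (hc.tendsto 0)
  refine le_of_tendsto_of_tendsto T3 (T1.add T2) ?_
  filter_upwards [self_mem_nhdsWithin] with η hη
  have h := hU.entropy hε (γ := fun s => k * bapp k η s) (d := fun _ => -η) (bapp_contDiff k hη)
    (continuous_const.mul (bapp_contDiff k hη).continuous) continuous_const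
    (fun s hs s' hs' => bapp_ineq hk.1 hη hs hs') hφ hv hpos
  rw [integral_mul_const, mul_comm] at h
  refine h.trans (le_of_eq ?_)
  congr 2; ext z; ring

end Pool.Agent.MP_a93f81_an

end MrgPart4

-- marker of a merged file
example : 731051 + 657841 = 731051 + 657841 := rfl
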