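import Mathlib.MeasureTheory.Integral.IntegralEqImproper
import Mathlib.MeasureTheory.Integral.IntervalIntegral.AbsolutelyContinuousFun
import Mathlib.Combinatorics.SimpleGraph.Basic
import Mathlib.Data.Real.Sign
import Pool.Agent.MP_a93f81_an.Dissip

-- ======== part 0: formerly Pool.Agent.MP_a93f81_an.Avg
section MrgPart0

/-!
The averaged potential, and comparison of the density with its average.
-/

set_option autoImplicit false

open MeasureTheory Filter Topology Set Metric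
open scoped ContDiff

namespace Pool.Agent.MP_a93f81_an

/-- The average of the potential over a window of length `ε`. -/
noncomputable def avg (U : Pl → ℝ) (ε : ℝ) (z : Pl) : ℝ := (∫ s in (0 : ℝ)..ε, U (z + s • ex)) / ε

lemma cont_line {U : Pl → ℝ} (hU : Continuous U) (z v : Pl) :
    Continuous (fun s : ℝ => U (z + s • v)) := by fun_prop

lemma Pot.avg_lip {U : Pl → ℝ} (hP : Pot U) {ε : ℝ} (hε : 0 < ε) : LipschitzWith 2 (avg U ε) := by
  refine LipschitzWith.of_dist_le_mul fun z z' => ?_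
  have hc := hP.lip.continuous
  rw [Real.dist_eq, avg, avg, ← sub_div, ← intervalIntegral.integral_sub
    ((cont_line hc z ex).intervalIntegrable _ _) ((cont_line hc z' ex).intervalIntegrable _ _),
    abs_div, abs_of_pos hε, div_le_iff₀ hε]
  have := intervalIntegral.norm_integral_le_of_norm_le_const (a := 0) (b := ε)
    (f := fun s : ℝ => U (z + s • ex) - U (z' + s • ex)) (C := 2 * dist z z') (fun s _ => by
      have := hP.lip.dist_le_mul (z + s • ex) (z' + s • ex)
      simpa [Real.dist_eq] using this)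
  simpa [abs_of_pos hε] using this

lemma Pot.avg_near {U : Pl → ℝ} (hP : Pot U) {ε : ℝ} (hε : 0 < ε) (z : Pl) :
    |avg U ε z - U z| ≤ ε := by
  have hc := hP.lip.continuous
  have e : avg U ε z - U z = (∫ s in (0 : ℝ)..ε, (U (z + s • ex) - U z)) / ε := by
    rw [intervalIntegral.integral_sub ((cont_line hc z ex).intervalIntegrable _ _)
      intervalIntegrable_const, avg]
    simp only [intervalIntegral.integral_const, sub_zero, smul_eq_mul]
    field_simp
  rw [e, abs_div, abs_of_pos hε, div_le_iff₀ hε]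
  have := intervalIntegral.norm_integral_le_of_norm_le_const (a := 0) (b := ε)
    (f := fun s : ℝ => U (z + s • ex) - U z) (C := ε) (fun s hs => by
      rw [uIoc_of_le hε.le] at hs
      have := hP.mono z s hs.1.le
      rw [Real.norm_eq_abs, abs_of_nonneg this.1]
      exact this.2.trans hs.2)
  simpa [abs_of_pos hε] using this

lemma Pot.D_avg {U : Pl → ℝ} (hP : Pot U) {ε : ℝ} {z : Pl}
    (hd : DifferentiableAt ℝ (avg U ε) z) : D ex (avg U ε) z = quot U ε z := by
  have hc := cont_line hP.lip.continuous z ex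
  set g : ℝ → ℝ := fun s => U (z + s • ex) with hg
  have hG : ∀ y, HasDerivAt (fun y => ∫ s in (0 : ℝ)..y, g s) (g y) y := fun y =>
    intervalIntegral.integral_hasDerivAt_right (hc.intervalIntegrable _ _)
      (hc.stronglyMeasurableAtFilter _ _) hc.continuousAt
  have h1 : HasDerivAt (fun σ : ℝ => ((∫ s in (0 : ℝ)..(σ + ε), g s) - ∫ s in (0 : ℝ)..σ, g s) / ε)
      ((g ε - g 0) / ε) 0 := by
    refine HasDerivAt.div_const (HasDerivAt.fun_sub ?_ (hG 0)) ε
    have := (hG (0 + ε)).comp_add_const 0 ε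
    simpa using this
  have e : (fun σ : ℝ => avg U ε (z + σ • ex))
      = fun σ : ℝ => ((∫ s in (0 : ℝ)..(σ + ε), g s) - ∫ s in (0 : ℝ)..σ, g s) / ε := by
    ext σ
    rw [intervalIntegral.integral_interval_sub_left (hc.intervalIntegrable _ _)
      (hc.intervalIntegrable _ _), avg]
    congr 1
    have := intervalIntegral.integral_comp_add_left (a := 0) (b := ε) g σ
    rw [add_zero] at this
    rw [← this]
    congr 1; ext s
    simp only [hg, add_smul, add_assoc]
  have h2 := hasDerivAt_line ex hd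
  rw [e] at h2
  rw [h2.unique h1]
  simp [quot, hg]

lemma Pot.int_W_sub_u {U : Pl → ℝ} (hP : Pot U) {ε : ℝ} (hε : 0 < ε) {ψ : Pl → ℝ}
    (hψ : LocallyLipschitz ψ) (hv : Van ψ) :
    |∫ z in H, ψ z * (quot U ε z - D ex U z)| ≤ ε * ∫ z in H, |D ex ψ z| := by
  have hA := (hP.avg_lip hε).locallyLipschitz
  have h := ibp_H (LL_sub hA hP.ll) hψ hv
  have e : ∫ z in H, D ex (fun y => avg U ε y - U y) z * ψ z
      = ∫ z in H, ψ z * (quot U ε z - D ex U z) := by
    refine integral_congr_ae (ae_restrict_of_ae ?_)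
    filter_upwards [LL_ae_diff hA, LL_ae_diff hP.ll] with z h1 h2
    rw [D_sub ex h1 h2, hP.D_avg h1, mul_comm]
  rw [← e, h, abs_neg, ← integral_const_mul, ← Real.norm_eq_abs]
  refine norm_integral_le_of_norm_le
    (((LB.D hψ ex).abs.const_mul ε).integrableOn ((hv.D ex).abs.mul_left _) H)
    (Eventually.of_forall fun z => ?_)
  exact abs_mul_le (hP.avg_near hε z) le_rfl

lemma Pot.int_W_mul_sub {U : Pl → ℝ} (hP : Pot U) {ε : ℝ} (hε : 0 < ε) {φ : Pl → ℝ}
    (hφ : LocallyLipschitz φ) (hv : Van φ) (hpos : ∀ z, 0 ≤ φ z) :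
    |∫ z in H, φ z * quot U ε z * (quot U ε z - D ex U z)|
      ≤ ε * (∫ z in H, |D ex φ z|) + ∫ z in H, φ z * |D ex U (z + ε • ex) - D ex U z| := by
  have hW := LL_quot hP.ll ε
  have h := hP.int_W_sub_u hε (LL_mul hφ hW) (hv.mul_right _)
  refine h.trans ?_
  have Lφ := LB.of_continuous hφ.continuous
  have Lu := hP.lbD ex
  have i1 : IntegrableOn (fun z => ε * |D ex φ z|) H :=
    ((LB.D hφ ex).abs.const_mul ε).integrableOn ((hv.D ex).abs.mul_left _) H
  have i2 : IntegrableOn (fun z => φ z * |D ex U (z + ε • ex) - D ex U z|) H :=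
    (Lφ.mul ((Lu.shift _).sub Lu).abs).integrableOn (hv.mul_right _) H
  rw [← integral_const_mul, ← integral_const_mul, ← integral_add i1 i2]
  refine integral_mono_ae (((LB.D (LL_mul hφ hW) ex).abs.const_mul ε).integrableOn
    (((hv.mul_right _).D ex).abs.mul_left _) H) (i1.add i2) (ae_restrict_of_ae ?_)
  filter_upwards [LL_ae_diff hφ, LL_ae_diff hP.ll, ae_shift (LL_ae_diff hP.ll) (ε • ex)]
    with z h1 h2 h3
  rw [D_mul ex h1 (diffAt_quot h2 h3), D_quot ex h2 h3]
  have h4 : |D ex φ z * quot U ε z| ≤ |D ex φ z| * 1 :=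
    abs_mul_le le_rfl (abs_le_one_of_mem (hP.quot_mem hε z))
  have h5 : ε * |φ z * ((D ex U (z + ε • ex) - D ex U z) / ε)|
      = φ z * |D ex U (z + ε • ex) - D ex U z| := by
    rw [abs_mul, abs_div, abs_of_pos hε, abs_of_nonneg (hpos z)]
    field_simp
  have h6 := mul_le_mul_of_nonneg_left
    ((abs_add_le (φ z * ((D ex U (z + ε • ex) - D ex U z) / ε)) (D ex φ z * quot U ε z)).trans
      (add_le_add le_rfl h4)) hε.le
  rw [mul_add, h5] at h6
  linarith

lemma moll_sq_le {κ F : Pl → ℝ} {r : ℝ} (hκ : Kern κ r) (hF : LB F) (z : Pl) :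
    moll κ F z ^ 2 ≤ moll κ (fun y => F y * F y) z := by
  set a := moll κ F z with ha
  have h1 : moll κ (fun y => (2 * a) * F y - a ^ 2) z ≤ moll κ (fun y => F y * F y) z :=
    moll_mono hκ ((hF.const_mul _).sub (LB.const _)) (hF.mul hF) z
      (Eventually.of_forall fun y _ => by nlinarith [sq_nonneg (F y - a)])
  rw [moll_sub hκ (hF.const_mul _) (LB.const _), moll_const_mul, moll_const hκ, ← ha] at h1
  nlinarith

lemma mem_H_of_near {z y : Pl} {r : ℝ} (hz : r ≤ z.1) (h : ‖z - y‖ < r) : y ∈ H := by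
  have h1 : |(z - y).1| ≤ ‖z - y‖ := norm_fst_le (z - y)
  have h2 := (abs_le.1 h1).2
  simp only [Prod.fst_sub] at h2
  simp only [H, mem_ofPred_eq]
  linarith

lemma moll_eq_H {κ : Pl → ℝ} {r : ℝ} (hκ : Kern κ r) (F : Pl → ℝ) {z : Pl} (hz : r ≤ z.1) :
    moll κ F z = ∫ y in H, κ (z - y) * F y := by
  rw [moll, setIntegral_eq_integral_of_forall_compl_eq_zero]
  intro y hy
  rw [hκ.zero _ (not_lt.1 fun h => hy (mem_H_of_near hz h)), zero_mul]

lemma lip_reflect {κ : Pl → ℝ} {K : NNReal} (h : LipschitzWith K κ) (z : Pl) :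
    LipschitzWith K (fun y => κ (z - y)) := by
  refine LipschitzWith.of_dist_le_mul fun x y => ?_
  have := h.dist_le_mul (z - x) (z - y)
  rwa [dist_sub_left] at this

/-- The mollified nonlocal potential is an approximate supersolution of the local equation. -/
lemma NL.moll_super {ε : ℝ} {U : Pl → ℝ} (hε : 0 < ε) (hε1 : ε ≤ 1) (hU : NL ε U)
    {κ : Pl → ℝ} {r : ℝ} (hκ : Kern κ r) {K : NNReal} (hK : LipschitzWith K κ)
    {η : ℝ} (hη : 0 < η) {z : Pl} (hz : r ≤ z.1) :
    - (η + ε * (3 * K * vb r + 18 * K * vb (r + 1) / η ^ 2))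
      ≤ D et (moll κ U) z + D ex (moll κ U) z * (1 - D ex (moll κ U) z) := by
  have hP := hU.toPot
  have Lu := hP.lbD ex
  have LW := hP.lb_quot ε
  rw [D_moll_lip hκ.smooth hκ.van hP.ll, D_moll_lip hκ.smooth hκ.van hP.ll]
  have e1 : moll κ (D et U) z
      = moll κ (fun y => D ex U y * quot U ε y) z - moll κ (D ex U) z := by
    rw [← moll_sub hκ (Lu.mul LW) Lu]
    refine moll_congr hκ z ?_
    filter_upwards [hU.eq] with y hy h1
    rw [hy (mem_H_of_near hz h1)]; ring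
  have hφ := lip_reflect hK z
  have hfar : ∀ y, r < ‖y - z‖ → κ (z - y) = 0 := fun y hy =>
    hκ.zero _ (by rw [norm_sub_rev]; exact hy.le)
  have hv := van_of_far hfar
  have hD : ∫ y in H, |D ex (fun y => κ (z - y)) y| ≤ K * vb r := by
    refine (le_abs_self _).trans (abs_setInt_le H z fun y => ⟨?_, fun hy => ?_⟩)
    · simpa using abs_D_le_of_lip hφ ex y
    · rw [D_eq_zero_far hfar ex y hy, abs_zero]
  have a1 := hP.int_W_sub_u hε hφ.locallyLipschitz hv
  have a2 := hP.int_W_mul_sub hε hφ.locallyLipschitz hv (fun y => hκ.nonneg _)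
  have a3 := hU.dissip_one hε hε1 hφ hfar (fun y => hκ.nonneg _) hη
  rw [hκ.int_reflect, mul_one] at a3
  rw [← moll_eq_H hκ _ hz, moll_sub hκ LW Lu] at a1
  simp only [mul_assoc (κ _)] at a2
  rw [← moll_eq_H hκ _ hz] at a2
  simp only [mul_sub] at a2
  rw [moll_sub hκ (LW.mul LW) (LW.mul Lu)] at a2
  have a4 := moll_sq_le hκ LW z
  have e2 : moll κ (fun y => quot U ε y * D ex U y) z
      = moll κ (fun y => D ex U y * quot U ε y) z := by simp only [mul_comm]
  rw [e2] at a2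
  have p0 : 0 ≤ moll κ (D ex U) z :=
    moll_ge hκ Lu z (Eventually.of_forall fun y _ => (hP.Dx_mem y).1)
  have p1 : moll κ (D ex U) z ≤ 1 :=
    moll_le hκ Lu z (Eventually.of_forall fun y _ => (hP.Dx_mem y).2)
  have q0 : 0 ≤ moll κ (quot U ε) z :=
    moll_ge hκ LW z (Eventually.of_forall fun y _ => (hP.quot_mem hε y).1)
  have q1 : moll κ (quot U ε) z ≤ 1 :=
    moll_le hκ LW z (Eventually.of_forall fun y _ => (hP.quot_mem hε y).2)
  have hD' := mul_le_mul_of_nonneg_left hD hε.le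
  have b1 := abs_le.1 (a1.trans hD')
  have b2 := (le_abs_self _).trans a2
  rw [e1]
  set p := moll κ (D ex U) z
  set q := moll κ (quot U ε) z
  have b3 : p ^ 2 ≤ q ^ 2 + 2 * (ε * (K * vb r)) := by
    have h0 : 0 ≤ ε * (K * vb r) := by have := vb_nonneg r; positivity
    have : p ^ 2 - q ^ 2 = (p - q) * (p + q) := by ring
    rcases le_total p q with h | h
    · nlinarith
    · nlinarith [b1.1]
  have e3 : ε * (3 * K * vb r + 18 * K * vb (r + 1) / η ^ 2)
      = 3 * (ε * (K * vb r)) + ε * (18 * K * vb (r + 1)) / η ^ 2 := by ring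
  rw [e3]
  nlinarith

/-- The mollified nonlocal potential is an approximate subsolution of the nonlocal equation. -/
lemma NL.moll_sub_sol {ε : ℝ} {U : Pl → ℝ} (hε : 0 < ε) (hU : NL ε U)
    {κ : Pl → ℝ} {r : ℝ} (hκ : Kern κ r) {z : Pl} (hz : r ≤ z.1) :
    D et (moll κ U) z + D ex (moll κ U) z * (1 - quot (moll κ U) ε z) ≤ 8 * r / ε := by
  have hP := hU.toPot
  have Lu := hP.lbD ex
  have LW := hP.lb_quot ε
  rw [D_moll_lip hκ.smooth hκ.van hP.ll, D_moll_lip hκ.smooth hκ.van hP.ll]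
  have p0 : 0 ≤ moll κ (D ex U) z :=
    moll_ge hκ Lu z (Eventually.of_forall fun y _ => (hP.Dx_mem y).1)
  have p1 : moll κ (D ex U) z ≤ 1 :=
    moll_le hκ Lu z (Eventually.of_forall fun y _ => (hP.Dx_mem y).2)
  have h1 : moll κ (D et U) z + (1 - quot U ε z) * moll κ (D ex U) z ≤ 4 * r / ε := by
    rw [← moll_const_mul, ← moll_add hκ (hP.lbD et) (Lu.const_mul _)]
    refine moll_le hκ ((hP.lbD et).add (Lu.const_mul _)) z ?_
    filter_upwards [hU.eq] with y hy h1
    rw [hy (mem_H_of_near hz h1)]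
    have h2 : |quot U ε y - quot U ε z| ≤ 4 * r / ε := by
      have a1 := hP.lip.dist_le_mul (y + ε • ex) (z + ε • ex)
      have a2 := hP.lip.dist_le_mul y z
      rw [dist_add_right] at a1
      rw [Real.dist_eq, dist_comm, dist_eq_norm] at a1 a2
      simp only [NNReal.coe_ofNat] at a1 a2
      rw [quot, quot, ← sub_div, abs_div, abs_of_pos hε]
      gcongr
      rw [abs_le] at a1 a2 ⊢
      constructor <;> linarith [a1.1, a1.2, a2.1, a2.2]
    have h3 := abs_mul_le (abs_le_one_of_mem (hP.Dx_mem y)) h2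
    have h4 := (le_abs_self _).trans h3
    linarith
  have h2 : |quot U ε z - quot (moll κ U) ε z| ≤ 4 * r / ε := by
    have a1 := moll_near hκ hP.lip (z + ε • ex)
    have a2 := moll_near hκ hP.lip z
    simp only [NNReal.coe_ofNat] at a1 a2
    rw [quot, quot, ← sub_div, abs_div, abs_of_pos hε]
    gcongr
    rw [abs_le] at a1 a2 ⊢
    constructor <;> linarith [a1.1, a1.2, a2.1, a2.2]
  have h3 := abs_mul_le (abs_le_one_of_mem ⟨p0, p1⟩) h2
  have h4 := (le_abs_self _).trans h3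
  have e : 8 * r / ε = 4 * r / ε + 4 * r / ε := by ring
  rw [e]
  linarith

lemma moll_shift_le {κ f : Pl → ℝ} {r : ℝ} (hκ : Kern κ r) {K : NNReal} (hK : LipschitzWith K κ)
    (hf : LB f) (hb : ∀ y, |f y| ≤ 1) (z : Pl) {σ : ℝ} (hσ : 0 < σ) (hσ1 : σ ≤ 1) :
    |moll κ f (z + σ • ex) - moll κ f z| ≤ K * σ * vb (r + 1) := by
  rw [moll, moll, ← integral_sub (moll_integrable hκ.lb hκ.van hf _)
    (moll_integrable hκ.lb hκ.van hf _)]
  refine abs_int_le z fun y => ⟨?_, fun hy => ?_⟩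
  · have := hK.dist_le_mul (z + σ • ex - y) (z - y)
    rw [Real.dist_eq, dist_eq_norm, show z + σ • ex - y - (z - y) = σ • ex by abel, norm_smul,
      norm_ex, Real.norm_eq_abs, abs_of_pos hσ, mul_one] at this
    rw [← sub_mul]
    simpa using abs_mul_le this (hb y)
  · have h1 := far_shift hσ hσ1 hy
    rw [hκ.zero (z - y) (by rw [norm_sub_rev]; linarith),
      hκ.zero (z + σ • ex - y) (by
        rw [norm_sub_rev, show y - (z + σ • ex) = y - σ • ex - z by abel]; exact h1.le)]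
    simp

lemma Pot.quot_moll_le {M : Pl → ℝ} (hP : Pot M) {κ : Pl → ℝ} {r : ℝ} (hκ : Kern κ r) {K : NNReal}
    (hK : LipschitzWith K κ) {ε : ℝ} (hε : 0 < ε) (hε1 : ε ≤ 1) (z : Pl) :
    quot (moll κ M) ε z ≤ D ex (moll κ M) z + K * ε * vb (r + 1) := by
  have hG := (moll_contDiff hκ.smooth hκ.van hP.lb).differentiable (by simp)
  have hd : ∀ σ : ℝ, HasDerivAt (fun σ : ℝ => moll κ M (z + σ • ex))
      (D ex (moll κ M) (z + σ • ex)) σ := by
    intro σ
    have h1 : HasDerivAt (fun σ : ℝ => z + σ • ex) ex σ := by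
      simpa using ((hasDerivAt_id σ).smul_const ex).const_add z
    exact (hG (z + σ • ex)).hasFDerivAt.comp_hasDerivAt σ h1
  obtain ⟨σ, hσ, h⟩ := exists_hasDerivAt_eq_slope (fun σ : ℝ => moll κ M (z + σ • ex)) _ hε
    (fun σ _ => (hd σ).continuousAt.continuousWithinAt) (fun σ _ => hd σ)
  simp only [zero_smul, add_zero, sub_zero] at h
  have h2 := moll_shift_le hκ hK (hP.lbD ex) (fun y => abs_le_one_of_mem (hP.Dx_mem y)) z hσ.1
    (hσ.2.le.trans hε1)
  rw [← D_moll_lip hκ.smooth hκ.van hP.ll, ← D_moll_lip hκ.smooth hκ.van hP.ll] at h2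
  have h3 : (K : ℝ) * σ * vb (r + 1) ≤ K * ε * vb (r + 1) := by
    have := vb_nonneg (r + 1)
    gcongr
    exact hσ.2.le
  rw [quot, ← h]
  linarith [(abs_le.1 h2).2]

end Pool.Agent.MP_a93f81_an

end MrgPart0

-- ======== part 1: formerly Pool.Agent.MP_a93f81_an.Subsol
section MrgPart1

/-!
The potential of an entropy solution of the local equation is a viscosity subsolution.
-/

set_option autoImplicit false

open MeasureTheory Filter Topology Set Metric
open scoped ContDiff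

namespace Pool.Agent.MP_a93f81_an

/-- The potential of an entropy solution of the local equation. -/
structure Loc (M : Pl → ℝ) : Prop extends Pot M where
  eq : ∀ᵐ z, z ∈ H → D et M z = - D ex M z * (1 - D ex M z)
  kruz : ∀ (k : ℝ) (φ : Pl → ℝ), LocallyLipschitz φ → Van φ → (∀ z, 0 ≤ φ z) →
    (∃ δ : ℝ, 0 < δ ∧ ∀ z : Pl, z.1 < δ → φ z = 0) →
    0 ≤ ∫ z, |D ex M z - k| * (D et φ z + (1 - D ex M z - k) * D ex φ z)

lemma hasDerivAt_posSq (s : ℝ) : HasDerivAt (fun s : ℝ => max s 0 ^ 2) (2 * max s 0) s := by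
  rcases lt_trichotomy s 0 with h | h | h
  · have : (fun s : ℝ => max s 0 ^ 2) =ᶠ[𝓝 s] fun _ => 0 := by
      filter_upwards [Iio_mem_nhds h] with y hy
      rw [max_eq_right (le_of_lt hy)]; simp
    rw [max_eq_right h.le, mul_zero]
    exact (hasDerivAt_const s (0 : ℝ)).congr_of_eventuallyEq this
  · subst h
    rw [hasDerivAt_iff_isLittleO_nhds_zero]
    simp only [zero_add, max_self, mul_zero, smul_zero, sub_zero, ne_eq, OfNat.ofNat_ne_zero,
      not_false_eq_true, zero_pow]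
    refine Asymptotics.IsBigO.trans_isLittleO (g := fun h : ℝ => h ^ 2) ?_
      (Asymptotics.isLittleO_pow_id (by norm_num))
    refine Asymptotics.IsBigO.of_bound 1 (Eventually.of_forall fun y => ?_)
    rw [one_mul, Real.norm_eq_abs, Real.norm_eq_abs, abs_of_nonneg (by positivity),
      abs_of_nonneg (by positivity)]
    rcases le_total y 0 with h | h
    · rw [max_eq_right h]; nlinarith [sq_nonneg y]
    · rw [max_eq_left h]
  · have : (fun s : ℝ => max s 0 ^ 2) =ᶠ[𝓝 s] fun y => y ^ 2 := by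
      filter_upwards [Ioi_mem_nhds h] with y hy
      rw [max_eq_left (le_of_lt hy)]
    rw [max_eq_left h.le]
    have h2 : HasDerivAt (fun y : ℝ => y ^ 2) (2 * s) s := by simpa using hasDerivAt_pow 2 s
    exact h2.congr_of_eventuallyEq this

lemma contDiff_posSq : ContDiff ℝ 1 (fun s : ℝ => max s 0 ^ 2) := by
  rw [contDiff_one_iff_deriv]
  refine ⟨fun s => (hasDerivAt_posSq s).differentiableAt, ?_⟩
  have : deriv (fun s : ℝ => max s 0 ^ 2) = fun s => 2 * max s 0 := by
    ext s; exact (hasDerivAt_posSq s).deriv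
  rw [this]; fun_prop

lemma norm_sq_le (z : Pl) : ‖z‖ ^ 2 ≤ z.1 ^ 2 + z.2 ^ 2 := by
  rw [Prod.norm_def]
  rcases le_total ‖z.1‖ ‖z.2‖ with h | h
  · rw [max_eq_right h, Real.norm_eq_abs, sq_abs]; nlinarith [sq_nonneg z.1]
  · rw [max_eq_left h, Real.norm_eq_abs, sq_abs]; nlinarith [sq_nonneg z.2]

theorem Loc.subsol {M : Pl → ℝ} (hM : Loc M) {ζ : Pl → ℝ} (hζ : ContDiff ℝ 1 ζ) {z0 : Pl}
    (hz0 : z0 ∈ H) (hmax : IsLocalMax (fun z => M z - ζ z) z0) :
    D et ζ z0 + D ex ζ z0 * (1 - D ex ζ z0) ≤ 0 := by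
  have hP := hM.toPot
  by_contra hcon
  set k := D ex ζ z0 with hk
  set c0 := D et ζ z0 + k * (1 - k) with hc0
  have hc0pos : 0 < c0 := not_le.1 hcon
  let ρ : Pl → ℝ := fun z => (z.1 - z0.1) ^ 2 + (z.2 - z0.2) ^ 2
  have hρ : ContDiff ℝ 1 ρ := by fun_prop
  have hρ0 : ∀ v, D v ρ z0 = 0 := by
    intro v
    have : IsLocalMin ρ z0 := Eventually.of_forall fun z => by simp only [ρ]; simp; positivity
    simp [D, this.fderiv_eq_zero]
  let ξ : Pl → ℝ := fun z => ζ z + ρ z
  have hξ : ContDiff ℝ 1 ξ := hζ.add hρ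
  have hξd := hξ.differentiable (by simp)
  have hξ0 : ∀ v, D v ξ z0 = D v ζ z0 := fun v => by
    rw [D_add v (hζ.differentiable (by simp) z0) (hρ.differentiable (by simp) z0), hρ0, add_zero]
  have hcont : Continuous (fun z => D et ξ z + k * (1 - k) - (1 + |k|) * |k - D ex ξ z|) := by
    have h1 := continuous_D hξ et
    have h2 := continuous_D hξ ex
    fun_prop
  have hev1 : ∀ᶠ z in 𝓝 z0, c0 / 2 < D et ξ z + k * (1 - k) - (1 + |k|) * |k - D ex ξ z| := by
    refine hcont.continuousAt.eventually (lt_mem_nhds ?_)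
    simp only [hξ0, ← hk, sub_self, abs_zero, mul_zero, sub_zero]
    linarith
  have hev2 : ∀ᶠ z in 𝓝 z0, z0.1 / 2 < z.1 :=
    continuous_fst.continuousAt.eventually (lt_mem_nhds (by
      have : 0 < z0.1 := hz0
      linarith))
  obtain ⟨δ, hδ, hball⟩ := Metric.eventually_nhds_iff_ball.1 (hev1.and (hev2.and hmax))
  let χ : ContDiffBump z0 := ⟨δ / 4, δ / 2, by positivity, by linarith⟩
  have hχ : ContDiff ℝ 1 χ := χ.contDiff
  have hχfar : ∀ z, δ / 2 < ‖z - z0‖ → χ z = 0 := fun z hz =>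
    χ.zero_of_le_dist (by rw [dist_eq_norm]; exact hz.le)
  let a : ℝ := M z0 - ξ z0 - (δ / 4) ^ 2
  let θ : Pl → ℝ := fun z => M z - ξ z - a
  have hθL : LocallyLipschitz θ := LL_sub (LL_sub hP.ll (LL_of_contDiff hξ)) (LL_const a)
  let φ : Pl → ℝ := fun z => χ z * max (θ z) 0 ^ 2
  have hφL : LocallyLipschitz φ := LL_mul (LL_of_contDiff hχ) (LL_comp hθL contDiff_posSq)
  have hχv : Van χ := van_of_far hχfar
  have hφv : Van φ := hχv.mul_right _
  have hθle : ∀ z ∈ ball z0 δ, δ / 4 ≤ ‖z - z0‖ → θ z ≤ 0 := by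
    intro z hz h1
    have h2 := (hball z hz).2.2
    have h3 := norm_sq_le (z - z0)
    have h4 : (δ / 4) ^ 2 ≤ ‖z - z0‖ ^ 2 := by gcongr
    simp only [Prod.fst_sub, Prod.snd_sub] at h3
    simp only [θ, a, ξ, ρ, sub_self] at h2 ⊢
    nlinarith
  have hkr := hM.kruz k φ hφL hφv (fun z => mul_nonneg χ.nonneg (by positivity))
    ⟨z0.1 / 2, by have : 0 < z0.1 := hz0; positivity, fun z hz => by
      have : χ z = 0 := by
        by_contra h
        have h1 : z ∈ ball z0 δ := by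
          have h2 : ¬ (δ / 2 < ‖z - z0‖) := fun h2 => h (hχfar z h2)
          rw [mem_ball, dist_eq_norm]; linarith [not_lt.1 h2]
        linarith [(hball z h1).2.1]
      simp [φ, this]⟩
  have Lm := hP.lbD ex
  have LG : LB (fun z => |D ex M z - k| * (χ z * max (θ z) 0)) :=
    (Lm.sub (LB.const k)).abs.mul ((LB.of_continuous χ.continuous).mul
      ((LB.of_continuous hθL.continuous).comp (b := fun s => max s 0) (by fun_prop)))
  have VG : Van (fun z => |D ex M z - k| * (χ z * max (θ z) 0)) := (hχv.mul_right _).mul_left _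
  have hG0 : ∀ z, 0 ≤ |D ex M z - k| * (χ z * max (θ z) 0) := fun z =>
    mul_nonneg (abs_nonneg _) (mul_nonneg χ.nonneg (le_max_right _ _))
  have hle : ∫ z, |D ex M z - k| * (D et φ z + (1 - D ex M z - k) * D ex φ z)
      ≤ ∫ z, (-c0) * (|D ex M z - k| * (χ z * max (θ z) 0)) := by
    refine integral_mono_ae (((Lm.sub (LB.const k)).abs.mul ((LB.D hφL et).add
      ((((LB.const 1).sub Lm).sub (LB.const k)).mul (LB.D hφL ex)))).integrable
        (((hφv.D et).add ((hφv.D ex).mul_left _)).mul_left _))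
      ((LG.const_mul _).integrable (VG.mul_left _)) ?_
    filter_upwards [LL_ae_diff hP.ll, hM.eq] with z hd heq
    have hθd : DifferentiableAt ℝ θ z := (hd.fun_sub (hξd z)).sub_const a
    have hDθ : ∀ v, D v θ z = D v M z - D v ξ z := fun v => by
      rw [D_sub v (hd.fun_sub (hξd z)) (differentiableAt_const a), D_const, D_sub v hd (hξd z),
        sub_zero]
    have hDφ : ∀ v, D v φ z = χ z * (2 * max (θ z) 0 * (D v M z - D v ξ z)) := by
      intro v
      have hsq : DifferentiableAt ℝ (fun y => max (θ y) 0 ^ 2) z :=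
        (hasDerivAt_posSq _).differentiableAt.comp z hθd
      rw [show D v φ z = D v (fun y => χ y * max (θ y) 0 ^ 2) z from rfl,
        D_mul v (hχ.differentiable (by simp) z) hsq, D_comp v (hasDerivAt_posSq _) hθd, hDθ]
      have : D v χ z * max (θ z) 0 ^ 2 = 0 := by
        by_cases h1 : ‖z - z0‖ < δ / 4
        · have : (χ : Pl → ℝ) =ᶠ[𝓝 z] fun _ => 1 :=
            χ.eventuallyEq_one_of_mem_ball (by rwa [mem_ball, dist_eq_norm])
          rw [D_congr v this, D_const, zero_mul]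
        · by_cases h2 : δ / 2 < ‖z - z0‖
          · rw [D_eq_zero_far hχfar v z h2, zero_mul]
          · rw [max_eq_right (hθle z (by rw [mem_ball, dist_eq_norm]; linarith [not_lt.1 h2])
              (not_lt.1 h1))]
            simp
      rw [this, add_zero]
    rw [hDφ, hDφ]
    by_cases h2 : δ / 2 < ‖z - z0‖
    · simp [hχfar z h2]
    have hzb : z ∈ ball z0 δ := by rw [mem_ball, dist_eq_norm]; linarith [not_lt.1 h2]
    have hb := hball z hzb
    have hzH : z ∈ H := by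
      have : 0 < z0.1 := hz0
      simp only [H, mem_ofPred_eq]; linarith [hb.2.1]
    rw [heq hzH]
    have hm := hP.Dx_mem z
    have h3 : |1 - D ex M z - k| ≤ 1 + |k| :=
      (abs_sub _ _).trans (add_le_add (abs_sub_le_one_of_mem (by simp) hm) le_rfl)
    have h4 := (le_abs_self _).trans (abs_mul_le h3 (le_refl |k - D ex ξ z|))
    have h5 : (-D ex M z * (1 - D ex M z) - D et ξ z)
        + (1 - D ex M z - k) * (D ex M z - D ex ξ z) ≤ - (c0 / 2) := by
      nlinarith [hb.1]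
    have h6 := mul_le_mul_of_nonneg_left h5 (mul_nonneg (by norm_num : (0 : ℝ) ≤ 2) (hG0 z))
    refine le_trans (le_of_eq ?_) (h6.trans (le_of_eq ?_)) <;> ring
  rw [integral_const_mul] at hle
  have hint0 : ∫ z, |D ex M z - k| * (χ z * max (θ z) 0) = 0 := by
    refine le_antisymm ?_ (integral_nonneg hG0)
    nlinarith
  rw [integral_eq_zero_iff_of_nonneg hG0 (LG.integrable VG)] at hint0
  let O : Set Pl := ball z0 (δ / 4) ∩ {z | 0 < θ z}
  have hO : IsOpen O := isOpen_ball.inter (isOpen_lt continuous_const hθL.continuous)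
  have hz0O : z0 ∈ O := ⟨mem_ball_self (by positivity), by
    simp only [θ, a, mem_ofPred_eq]
    have : 0 < (δ / 4) ^ 2 := by positivity
    linarith⟩
  have hOsub : O ⊆ ball z0 δ := fun z hz => ball_subset_ball (by linarith) hz.1
  have hDt : ∀ᵐ z, z ∈ O → D et M z ≤ - (k * (1 - k)) := by
    filter_upwards [hint0, hM.eq] with z h1 h2 hz
    have hzH : z ∈ H := by
      have : 0 < z0.1 := hz0
      simp only [H, mem_ofPred_eq]; linarith [(hball z (hOsub hz)).2.1]
    have h3 : χ z = 1 := χ.one_of_mem_closedBall (ball_subset_closedBall hz.1)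
    have h4 : 0 < θ z := hz.2
    simp only [h3, one_mul, max_eq_left h4.le, Pi.zero_apply, mul_eq_zero, abs_eq_zero,
      h4.ne', or_false] at h1
    rw [h2 hzH, sub_eq_zero.1 h1]
    linarith
  obtain ⟨r, hr, hrO⟩ := Metric.isOpen_iff.1 hO z0 hz0O
  have hq := tendsto_quot_neg et (hζ.differentiable (by simp) z0)
  have : D et ζ z0 ≤ - (k * (1 - k)) := by
    refine le_of_tendsto hq ?_
    filter_upwards [Ioo_mem_nhdsGT hr] with s hs
    have hmem : ∀ σ ∈ Icc 0 s, z0 - s • et + σ • et ∈ O := by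
      intro σ hσ
      refine hrO ?_
      rw [mem_ball, dist_eq_norm, show z0 - s • et + σ • et - z0 = (σ - s) • et by
        rw [sub_smul]; abel, norm_smul, norm_et, mul_one, Real.norm_eq_abs,
        abs_of_nonpos (by linarith [hσ.2])]
      linarith [hσ.1, hs.2]
    have h1 := line_le hP.lip hO hs.1.le hmem hDt
    rw [sub_add_cancel] at h1
    have h2 := (hball _ (hOsub (by simpa using hmem 0 ⟨le_rfl, hs.1.le⟩))).2.2
    rw [div_le_iff₀ hs.1]
    simp only at h2
    linarith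
  linarith

end Pool.Agent.MP_a93f81_an

end MrgPart1

-- ======== part 2: formerly Pool.Agent.MP_a93f81_an.Compare
section MrgPart2

/-!
Uniform convergence of the nonlocal potentials to the potential of the entropy solution.
-/

set_option autoImplicit false

open MeasureTheory Filter Topology Set Metric
open scoped ContDiff

namespace Pool.Agent.MP_a93f81_an

/-- Penalisation. -/
noncomputable def pen (a η : ℝ) (z : Pl) : ℝ := a * z.1 + η * z.1 ^ 2 + η * √(1 + z.2 ^ 2)

lemma pen_contDiff (a η : ℝ) : ContDiff ℝ 1 (pen a η) := by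
  unfold pen
  refine ContDiff.add (by fun_prop) (contDiff_const.mul (ContDiff.sqrt (by fun_prop) fun z => ?_))
  positivity

lemma hasDerivAt_jap (x : ℝ) : HasDerivAt (fun x : ℝ => √(1 + x ^ 2)) (x / √(1 + x ^ 2)) x := by
  have h1 : HasDerivAt (fun x : ℝ => 1 + x ^ 2) (2 * x) x := by
    simpa using (hasDerivAt_pow 2 x).const_add 1
  refine (h1.sqrt (by positivity)).congr_deriv ?_
  have : 0 < √(1 + x ^ 2) := by positivity
  field_simp

lemma abs_le_jap (x : ℝ) : |x| ≤ √(1 + x ^ 2) := Real.abs_le_sqrt (by linarith)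

lemma abs_jap_deriv_le (x : ℝ) : |x / √(1 + x ^ 2)| ≤ 1 := by
  have : 0 < √(1 + x ^ 2) := by positivity
  rw [abs_div, abs_of_pos this, div_le_one this]
  exact abs_le_jap x

lemma D_pen (a η : ℝ) (v z : Pl) :
    D v (pen a η) z = (a + 2 * η * z.1) * v.1 + η * (z.2 / √(1 + z.2 ^ 2)) * v.2 := by
  have h1 : DifferentiableAt ℝ (fun y : Pl => y.1) z := differentiableAt_fst
  have h2 : DifferentiableAt ℝ (fun y : Pl => y.2) z := differentiableAt_snd
  have h3 : DifferentiableAt ℝ (fun y : Pl => √(1 + y.2 ^ 2)) z :=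
    (hasDerivAt_jap z.2).differentiableAt.comp z h2
  have h4 : HasDerivAt (fun y : ℝ => y ^ 2) (2 * z.1) z.1 := by simpa using hasDerivAt_pow 2 z.1
  unfold pen
  rw [D_add v (by fun_prop) (h3.const_mul η), D_add v (by fun_prop) (by fun_prop),
    D_const_mul v a h1, D_const_mul v η (by fun_prop), D_const_mul v η h3,
    D_comp v (hasDerivAt_jap z.2) h2, D_comp v h4 h1, D_fst, D_snd]
  ring

lemma pen_shift_le (a : ℝ) {η ε : ℝ} (hη : 0 ≤ η) (hε : 0 ≤ ε) (z : Pl) :
    pen a η (z + ε • ex) ≤ pen a η z + η * ε := by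
  have h : √(1 + (z.2 + ε) ^ 2) ≤ √(1 + z.2 ^ 2) + ε := by
    rw [Real.sqrt_le_iff]
    have h1 := (abs_le.1 (abs_le_jap z.2)).2
    have h2 : √(1 + z.2 ^ 2) ^ 2 = 1 + z.2 ^ 2 := Real.sq_sqrt (by positivity)
    refine ⟨by positivity, ?_⟩
    nlinarith
  simp only [pen, Prod.fst_add, Prod.smul_fst, ex_fst, smul_eq_mul, mul_zero, add_zero,
    Prod.snd_add, Prod.smul_snd, ex_snd, mul_one]
  nlinarith

lemma penal {Θ : Pl → ℝ} (hΘ : Continuous Θ) {τ A C a η : ℝ} (hτ : 0 ≤ τ) (ha : 0 ≤ a)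
    (hη : 0 < η) (hgrow : ∀ z : Pl, τ ≤ z.1 → Θ z ≤ C * (1 + z.1))
    (hinit : ∀ z : Pl, z.1 = τ → Θ z ≤ A)
    (hno : ∀ z0 : Pl, τ < z0.1 → ¬ IsMaxOn (fun z => Θ z - pen a η z) {z | τ ≤ z.1} z0)
    (z : Pl) (hz : τ ≤ z.1) : Θ z ≤ A + pen a η z := by
  have hc : Continuous (fun z => Θ z - pen a η z) := hΘ.sub (pen_contDiff a η).continuous
  obtain ⟨z0, hz0, hmax⟩ := ContinuousOn.exists_isMaxOn' (s := {z : Pl | τ ≤ z.1}) hc.continuousOn
    (isClosed_le continuous_const continuous_fst) (x₀ := z) hz (by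
      rw [eventually_inf_principal]
      filter_upwards [(isCompact_closedBall (0 : Pl)
        ((C + (C + η) ^ 2 / (4 * η) - (Θ z - pen a η z)) / η)).compl_mem_cocompact] with y hy hy'
      have h1 : (C + (C + η) ^ 2 / (4 * η) - (Θ z - pen a η z)) / η < ‖y‖ := by simpa using hy
      rw [div_lt_iff₀ hη] at h1
      have h2 := hgrow y hy'
      have hy1 : 0 ≤ y.1 := hτ.trans hy'
      have h3 : ‖y‖ ≤ y.1 + √(1 + y.2 ^ 2) := by
        rw [Prod.norm_def, max_le_iff, Real.norm_eq_abs, Real.norm_eq_abs, abs_of_nonneg hy1]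
        exact ⟨by have := Real.sqrt_nonneg (1 + y.2 ^ 2); linarith,
          by linarith [abs_le_jap y.2]⟩
      have h4 : (C + η) * y.1 - η * y.1 ^ 2 ≤ (C + η) ^ 2 / (4 * η) := by
        rw [le_div_iff₀ (by positivity)]
        nlinarith [sq_nonneg (C + η - 2 * η * y.1)]
      have h5 := mul_le_mul_of_nonneg_left h3 hη.le
      have h6 := mul_nonneg ha hy1
      simp only [pen] at h1 ⊢
      nlinarith)
  have h1 : z0.1 = τ := le_antisymm (not_lt.1 fun h => hno z0 h hmax) hz0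
  have h2 := hmax hz
  have h3 := hinit z0 h1
  have h4 : 0 ≤ pen a η z0 := by
    have : 0 ≤ z0.1 := hτ.trans hz0
    unfold pen; positivity
  simp only [mem_ofPred_eq] at h2
  linarith

lemma le_of_pen {x B : ℝ} (b : ℝ) (z : Pl)
    (h : ∀ η : ℝ, 0 < η → η ≤ 1 → x ≤ B + η * b + η * z.1 ^ 2 + η * √(1 + z.2 ^ 2)) : x ≤ B := by
  have hc : Continuous (fun η : ℝ => B + η * b + η * z.1 ^ 2 + η * √(1 + z.2 ^ 2)) := by fun_prop
  have := tendsto_nhdsWithin_of_tendsto_nhds (s := Ioi (0 : ℝ)) (hc.tendsto 0)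
  simp only [zero_mul, add_zero] at this
  refine ge_of_tendsto this ?_
  filter_upwards [Ioc_mem_nhdsGT zero_lt_one] with η hη using h η hη.1 hη.2

lemma isLocalMax_of_isMaxOn {f : Pl → ℝ} {τ : ℝ} {z0 : Pl} (hz : τ < z0.1)
    (h : IsMaxOn f {z | τ ≤ z.1} z0) : IsLocalMax f z0 :=
  h.isLocalMax (mem_of_superset ((isOpen_lt continuous_const continuous_fst).mem_nhds hz)
    fun y hy => show τ ≤ y.1 from le_of_lt hy)

lemma pot_diff_le {U M : Pl → ℝ} (hU : Pot U) (hM : Pot M) (h0 : ∀ x, U (0, x) = M (0, x))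
    (z : Pl) : |U z - M z| ≤ 4 * max z.1 0 := by
  rcases le_total z.1 0 with h | h
  · rw [hU.neg z h, hM.neg z h, h0, sub_self, abs_zero]; positivity
  · have h1 := hU.lip.dist_le_mul z (0, z.2)
    have h2 := hM.lip.dist_le_mul z (0, z.2)
    have e : dist z (0, z.2) = z.1 := by
      rw [Prod.dist_eq]; simp [abs_of_nonneg h, h]
    rw [e, Real.dist_eq, abs_le] at h1 h2
    simp only [NNReal.coe_ofNat] at h1 h2
    rw [max_eq_left h, abs_le, h0] at *
    constructor <;> linarith [h1.1, h1.2, h2.1, h2.2]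

lemma Loc.moll_super {M : Pl → ℝ} (hM : Loc M) {κ : Pl → ℝ} {r : ℝ} (hκ : Kern κ r) {z : Pl}
    (hz : r ≤ z.1) : 0 ≤ D et (moll κ M) z + D ex (moll κ M) z * (1 - D ex (moll κ M) z) := by
  have hP := hM.toPot
  have Lm := hP.lbD ex
  rw [D_moll_lip hκ.smooth hκ.van hP.ll, D_moll_lip hκ.smooth hκ.van hP.ll]
  have e1 : moll κ (D et M) z
      = moll κ (fun y => D ex M y * D ex M y) z - moll κ (D ex M) z := by
    rw [← moll_sub hκ (Lm.mul Lm) Lm]
    refine moll_congr hκ z ?_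
    filter_upwards [hM.eq] with y hy h1
    rw [hy (mem_H_of_near hz h1)]; ring
  have := moll_sq_le hκ Lm z
  rw [e1]
  nlinarith

lemma Pot.D_moll_mem {M : Pl → ℝ} (hP : Pot M) {κ : Pl → ℝ} {r : ℝ} (hκ : Kern κ r) (z : Pl) :
    D ex (moll κ M) z ∈ Icc (0 : ℝ) 1 := by
  rw [D_moll_lip hκ.smooth hκ.van hP.ll]
  exact ⟨moll_ge hκ (hP.lbD ex) z (Eventually.of_forall fun y _ => (hP.Dx_mem y).1),
    moll_le hκ (hP.lbD ex) z (Eventually.of_forall fun y _ => (hP.Dx_mem y).2)⟩

lemma compare_upper {ε : ℝ} {U M : Pl → ℝ} (hε : 0 < ε) (hε1 : ε ≤ 1) (hU : NL ε U) (hM : Loc M)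
    (h0 : ∀ x, U (0, x) = M (0, x)) {κ : Pl → ℝ} {h : ℝ} (hh : 0 < h) (hh1 : h ≤ 1)
    (hκ : Kern κ h) {K : NNReal} (hK : LipschitzWith K κ) (z : Pl) (hz : h ≤ z.1) :
    U z - M z ≤ 12 * h + K * ε * vb (h + 1) * z.1 := by
  have hPU := hU.toPot
  have hPM := hM.toPot
  refine le_of_pen (12 * z.1) z fun η hη _ => ?_
  set r := min h (ε * η) with hr
  have hr0 : 0 < r := lt_min hh (by positivity)
  have hrh : r ≤ h := min_le_left _ _
  have hrε : 8 * r / ε ≤ 8 * η := by
    rw [div_le_iff₀ hε]; linarith [min_le_right h (ε * η)]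
  obtain ⟨κ', hκ'⟩ := exists_kern hr0
  have hE : 0 ≤ K * ε * vb (h + 1) := by have := vb_nonneg (h + 1); positivity
  have hP := (moll_contDiff hκ'.smooth hκ'.van hPU.lb)
  have hQ := (moll_contDiff hκ.smooth hκ.van hPM.lb)
  have hnear : ∀ y : Pl, |(moll κ' U y - moll κ M y) - (U y - M y)| ≤ 4 * h := by
    intro y
    have a1 := abs_le.1 (moll_near hκ' hPU.lip y)
    have a2 := abs_le.1 (moll_near hκ hPM.lip y)
    simp only [NNReal.coe_ofNat] at a1 a2
    rw [abs_le]
    constructor <;> linarith [a1.1, a1.2, a2.1, a2.2]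
  have key := penal (Θ := fun y => moll κ' U y - moll κ M y) (hP.continuous.sub hQ.continuous)
    (τ := h) (A := 8 * h) (C := 4) (a := K * ε * vb (h + 1) + 12 * η) (η := η) hh.le
    (by positivity) hη (fun y hy => by
      have a1 := (abs_le.1 (hnear y)).2
      have a2 := (abs_le.1 (pot_diff_le hPU hPM h0 y)).2
      rw [max_eq_left (hh.le.trans hy)] at a2
      linarith) (fun y hy => by
      have a1 := (abs_le.1 (hnear y)).2
      have a2 := (abs_le.1 (pot_diff_le hPU hPM h0 y)).2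
      rw [hy, max_eq_left hh.le] at a2
      linarith) (fun z0 hz0 hmax => by
      have hl := (isLocalMax_of_isMaxOn hz0 hmax).fderiv_eq_zero
      have hPd := hP.differentiable (by simp) z0
      have hQd := hQ.differentiable (by simp) z0
      have hpd := (pen_contDiff (K * ε * vb (h + 1) + 12 * η) η).differentiable (by simp) z0
      have hD : ∀ v, D v (moll κ' U) z0 = D v (moll κ M) z0
          + D v (pen (K * ε * vb (h + 1) + 12 * η) η) z0 := by
        intro v
        have : D v (fun y => moll κ' U y - moll κ M y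
            - pen (K * ε * vb (h + 1) + 12 * η) η y) z0 = 0 := by simp [D, hl]
        rw [D_sub v (hPd.fun_sub hQd) hpd, D_sub v hPd hQd] at this
        linarith
      have h1 := hD et
      have h2 := hD ex
      rw [D_pen] at h1 h2
      simp only [et_fst, et_snd, ex_fst, ex_snd, mul_one, mul_zero, add_zero, zero_add] at h1 h2
      have h3 := abs_le.1 (abs_mul_le (le_of_eq (abs_of_pos hη)) (abs_jap_deriv_le z0.2))
      have h4 := hU.moll_sub_sol hε hκ' (hrh.trans hz0.le)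
      have h5 := hM.moll_super hκ hz0.le
      have h6 := hPM.quot_moll_le hκ hK hε hε1 z0
      have h7 := hmax (show z0 + ε • ex ∈ {z : Pl | h ≤ z.1} by simpa using hz0.le)
      have h8 := pen_shift_le (K * ε * vb (h + 1) + 12 * η) hη.le hε.le z0
      have h9 : quot (moll κ' U) ε z0 ≤ quot (moll κ M) ε z0 + η := by
        simp only [mem_ofPred_eq] at h7
        rw [quot, quot, div_add' _ _ _ hε.ne']
        gcongr
        linarith
      have p := hPU.D_moll_mem hκ' z0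
      have q := hPM.D_moll_mem hκ z0
      have ht : 0 ≤ 2 * η * z0.1 := by have := hh.le.trans hz0.le; positivity
      set pp := D ex (moll κ' U) z0
      set qq := D ex (moll κ M) z0
      have h10 : pp * (quot (moll κ' U) ε z0 - pp) ≤ K * ε * vb (h + 1) + 2 * η := by
        have : quot (moll κ' U) ε z0 - pp ≤ K * ε * vb (h + 1) + 2 * η := by linarith [h3.1]
        calc _ ≤ pp * (K * ε * vb (h + 1) + 2 * η) := mul_le_mul_of_nonneg_left this p.1
          _ ≤ 1 * (K * ε * vb (h + 1) + 2 * η) := by gcongr; exact p.2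
          _ = _ := one_mul _
      have h11 : |(pp - qq) * (1 - pp - qq)| ≤ η * 1 := by
        refine abs_mul_le (abs_le.2 ⟨by linarith [h3.1], by linarith [h3.2]⟩)
          (abs_le.2 ⟨by linarith [p.2, q.2], by linarith [p.1, q.1]⟩)
      have h12 := (abs_le.1 h11).1
      nlinarith) z hz
  have a1 := (abs_le.1 (hnear z)).1
  simp only [pen] at key
  nlinarith

lemma compare_lower {ε : ℝ} {U M : Pl → ℝ} (hε : 0 < ε) (hε1 : ε ≤ 1) (hU : NL ε U) (hM : Loc M)
    (h0 : ∀ x, U (0, x) = M (0, x)) {κ : Pl → ℝ} {h : ℝ} (hh : 0 < h) (hh1 : h ≤ 1)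
    (hκ : Kern κ h) {K : NNReal} (hK : LipschitzWith K κ) {η' : ℝ} (hη' : 0 < η') (z : Pl)
    (hz : h ≤ z.1) :
    M z - U z ≤ 8 * h + (η' + ε * (3 * K * vb h + 18 * K * vb (h + 1) / η' ^ 2)) * z.1 := by
  have hPU := hU.toPot
  have hPM := hM.toPot
  set e := η' + ε * (3 * K * vb h + 18 * K * vb (h + 1) / η' ^ 2) with he
  have he0 : 0 ≤ e := by have := vb_nonneg (h + 1); have := vb_nonneg h; positivity
  refine le_of_pen (3 * z.1) z fun η hη hη1 => ?_
  have hQ := (moll_contDiff hκ.smooth hκ.van hPU.lb)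
  have hQ1 : ContDiff ℝ 1 (moll κ U) := hQ.of_le (by simp)
  have hnear : ∀ y : Pl, |moll κ U y - U y| ≤ 2 * h := fun y => by
    simpa using moll_near hκ hPU.lip y
  have key := penal (Θ := fun y => M y - moll κ U y) (hPM.lip.continuous.sub hQ.continuous)
    (τ := h) (A := 6 * h) (C := 4) (a := e + 3 * η) (η := η) hh.le
    (by positivity) hη (fun y hy => by
      have a1 := (abs_le.1 (hnear y)).1
      have a2 := (abs_le.1 (pot_diff_le hPU hPM h0 y)).1
      rw [max_eq_left (hh.le.trans hy)] at a2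
      linarith) (fun y hy => by
      have a1 := (abs_le.1 (hnear y)).1
      have a2 := (abs_le.1 (pot_diff_le hPU hPM h0 y)).1
      rw [hy, max_eq_left hh.le] at a2
      linarith) (fun z0 hz0 hmax => by
      have hl := isLocalMax_of_isMaxOn hz0 hmax
      have hpd := (pen_contDiff (e + 3 * η) η).differentiable (by simp) z0
      have hQd := hQ1.differentiable (by simp) z0
      have h1 := hM.subsol (ζ := fun y => moll κ U y + pen (e + 3 * η) η y)
        (hQ1.add (pen_contDiff _ _)) (hh.trans hz0) (by simpa only [sub_sub] using hl)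
      rw [D_add et hQd hpd, D_add ex hQd hpd, D_pen, D_pen] at h1
      simp only [et_fst, et_snd, ex_fst, ex_snd, mul_one, mul_zero, add_zero, zero_add] at h1
      have h3 := abs_mul_le (le_of_eq (abs_of_pos hη)) (abs_jap_deriv_le z0.2)
      have h4 := hU.moll_super hε hε1 hκ hK hη' hz0.le
      rw [← he] at h4
      have q := hPU.D_moll_mem hκ z0
      have ht : 0 ≤ 2 * η * z0.1 := by have := hh.le.trans hz0.le; positivity
      set qq := D ex (moll κ U) z0
      set s := η * (z0.2 / √(1 + z0.2 ^ 2))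
      have h5 := abs_le.1 h3
      have h11 : |s * (1 - 2 * qq - s)| ≤ η * 1 * 2 :=
        abs_mul_le h3 (abs_le.2 ⟨by linarith [q.2, h5.2], by linarith [q.1, h5.1]⟩)
      have h12 := (abs_le.1 h11).1
      nlinarith) z hz
  have a1 := (abs_le.1 (hnear z)).2
  simp only [pen] at key
  nlinarith

theorem unif_conv {U : ℝ → Pl → ℝ} {M : Pl → ℝ} (hU : ∀ ε, 0 < ε → NL ε (U ε)) (hM : Loc M)
    (h0 : ∀ ε, 0 < ε → ∀ x, U ε (0, x) = M (0, x)) (T : ℝ) {δ : ℝ} (hδ : 0 < δ) :
    ∀ᶠ ε in 𝓝[>] (0 : ℝ), ∀ z : Pl, z.1 ≤ T → |U ε z - M z| ≤ δ := by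
  set h := min 1 (δ / 24) with hh
  have hh0 : 0 < h := lt_min one_pos (by positivity)
  have hh1 : h ≤ 1 := min_le_left _ _
  have hh2 : h ≤ δ / 24 := min_le_right _ _
  obtain ⟨κ, hκ⟩ := exists_kern hh0
  obtain ⟨K, hK⟩ := LL_lip_of_van hκ.ll hκ.van
  set T' := max T 1 with hT'
  have hT0 : 0 < T' := lt_of_lt_of_le one_pos (le_max_right _ _)
  set η' := δ / (4 * T') with hη'
  have hη0 : 0 < η' := by positivity
  have c1 : Tendsto (fun ε : ℝ => K * ε * vb (h + 1) * T') (𝓝[>] 0) (𝓝 0) := by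
    have hc : Continuous (fun ε : ℝ => K * ε * vb (h + 1) * T') := by fun_prop
    simpa using tendsto_nhdsWithin_of_tendsto_nhds (s := Ioi (0 : ℝ)) (hc.tendsto 0)
  have c2 : Tendsto (fun ε : ℝ => ε * (3 * K * vb h + 18 * K * vb (h + 1) / η' ^ 2) * T')
      (𝓝[>] 0) (𝓝 0) := by
    have hc : Continuous
        (fun ε : ℝ => ε * (3 * K * vb h + 18 * K * vb (h + 1) / η' ^ 2) * T') := by fun_prop
    simpa using tendsto_nhdsWithin_of_tendsto_nhds (s := Ioi (0 : ℝ)) (hc.tendsto 0)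
  filter_upwards [Ioc_mem_nhdsGT zero_lt_one, c1.eventually (gt_mem_nhds (half_pos hδ)),
    c2.eventually (gt_mem_nhds (show 0 < δ / 4 by positivity))] with ε hε e1 e2 z hz
  by_cases hzh : h ≤ z.1
  · have a1 := compare_upper hε.1 hε.2 (hU ε hε.1) hM (h0 ε hε.1) hh0 hh1 hκ hK z hzh
    have a2 := compare_lower hε.1 hε.2 (hU ε hε.1) hM (h0 ε hε.1) hh0 hh1 hκ hK hη0 z hzh
    have hzT : z.1 ≤ T' := hz.trans (le_max_left _ _)
    have v1 := vb_nonneg (h + 1)
    have v2 := vb_nonneg h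
    have hε0 := hε.1
    have b1 : K * ε * vb (h + 1) * z.1 ≤ K * ε * vb (h + 1) * T' := by gcongr
    have b2 : (η' + ε * (3 * K * vb h + 18 * K * vb (h + 1) / η' ^ 2)) * z.1
        ≤ (η' + ε * (3 * K * vb h + 18 * K * vb (h + 1) / η' ^ 2)) * T' := by gcongr
    have b3 : η' * T' = δ / 4 := by rw [hη']; field_simp
    rw [abs_le]
    constructor <;> nlinarith
  · have := pot_diff_le (hU ε hε.1).toPot hM.toPot (h0 ε hε.1) z
    have h2 : max z.1 0 ≤ h := max_le (not_le.1 hzh).le hh0.le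
    linarith

end Pool.Agent.MP_a93f81_an

end MrgPart2

-- ======== part 3: formerly Pool.Agent.MP_a93f81_an.Strong
section MrgPart3

/-!
Strong convergence of the averaged densities.
-/

set_option autoImplicit false

open MeasureTheory Filter Topology Set Metric
open scoped ContDiff

namespace Pool.Agent.MP_a93f81_an

/-- A family of nonlocal potentials and a local potential with the same datum. -/
structure Fam (U : ℝ → Pl → ℝ) (M : Pl → ℝ) : Prop where
  nl : ∀ ε, 0 < ε → NL ε (U ε)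
  loc : Loc M
  init : ∀ ε, 0 < ε → ∀ x, U ε (0, x) = M (0, x)

lemma tendsto_zero_of_forall {f : ℝ → ℝ} (h : ∀ δ : ℝ, 0 < δ → ∀ᶠ ε in 𝓝[>] (0 : ℝ), |f ε| ≤ δ) :
    Tendsto f (𝓝[>] 0) (𝓝 0) := by
  rw [Metric.tendsto_nhds]
  intro δ hδ
  filter_upwards [h (δ / 2) (half_pos hδ)] with ε hε
  rw [Real.dist_eq, sub_zero]
  linarith

lemma tendsto_zero_of_mul {f : ℝ → ℝ} (C : ℝ)
    (h : ∀ δ : ℝ, 0 < δ → ∀ᶠ ε in 𝓝[>] (0 : ℝ), |f ε| ≤ δ * C) :
    Tendsto f (𝓝[>] 0) (𝓝 0) := by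
  refine tendsto_zero_of_forall fun δ hδ => ?_
  filter_upwards [h (δ / (|C| + 1)) (by positivity)] with ε hε
  refine hε.trans ?_
  rw [div_mul_eq_mul_div, div_le_iff₀ (by positivity)]
  gcongr
  linarith [le_abs_self C]

lemma tendsto_eps_mul (c : ℝ) : Tendsto (fun ε : ℝ => ε * c) (𝓝[>] 0) (𝓝 0) := by
  have hc : Continuous (fun ε : ℝ => ε * c) := by fun_prop
  simpa using tendsto_nhdsWithin_of_tendsto_nhds (s := Ioi (0 : ℝ)) (hc.tendsto 0)

lemma tendsto_zero_of_abs_le {f g : ℝ → ℝ} (hg : Tendsto g (𝓝[>] 0) (𝓝 0))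
    (h : ∀ᶠ ε in 𝓝[>] (0 : ℝ), |f ε| ≤ g ε) : Tendsto f (𝓝[>] 0) (𝓝 0) :=
  squeeze_zero_norm' h hg

variable {U : ℝ → Pl → ℝ} {M : Pl → ℝ}

lemma Fam.tendsto_UM (hF : Fam U M) {g : Pl → ℝ} (hg : LB g) (hv : Van g) (s : Set Pl) :
    Tendsto (fun ε => ∫ z in s, (U ε z - M z) * g z) (𝓝[>] 0) (𝓝 0) := by
  obtain ⟨R, hR⟩ := id hv
  refine tendsto_zero_of_mul (∫ z in s, |g z|) fun δ hδ => ?_
  filter_upwards [unif_conv hF.nl hF.loc hF.init R hδ] with ε hε
  rw [← integral_const_mul, ← Real.norm_eq_abs]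
  refine norm_integral_le_of_norm_le ((hg.abs.const_mul δ).integrableOn (hv.abs.mul_left _) s)
    (Eventually.of_forall fun z => ?_)
  by_cases hz : R < ‖z‖
  · simp [hR z hz]
  · refine abs_mul_le (hε z ?_) le_rfl
    exact ((le_abs_self _).trans (norm_fst_le z)).trans (not_lt.1 hz)

lemma Fam.weak_x (hF : Fam U M) {ψ : Pl → ℝ} (hψ : LocallyLipschitz ψ) (hv : Van ψ) :
    Tendsto (fun ε => ∫ z in H, ψ z * (D ex (U ε) z - D ex M z)) (𝓝[>] 0) (𝓝 0) := by
  have h := (hF.tendsto_UM (LB.D hψ ex) (hv.D ex) H).neg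
  rw [neg_zero] at h
  refine h.congr' ?_
  filter_upwards [self_mem_nhdsWithin] with ε hε
  have hP := (hF.nl ε hε).toPot
  rw [← ibp_H (LL_sub hP.ll hF.loc.toPot.ll) hψ hv]
  refine integral_congr_ae (ae_restrict_of_ae ?_)
  filter_upwards [LL_ae_diff hP.ll, LL_ae_diff hF.loc.toPot.ll] with z h1 h2
  rw [D_sub ex h1 h2, mul_comm]

lemma Fam.weak_t (hF : Fam U M) {ψ : Pl → ℝ} (hψ : LocallyLipschitz ψ) (hv : Van ψ) :
    Tendsto (fun ε => ∫ z in H, ψ z * (D et (U ε) z - D et M z)) (𝓝[>] 0) (𝓝 0) := by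
  have h := (hF.tendsto_UM (LB.D hψ et) (hv.D et) univ).neg
  rw [neg_zero] at h
  refine h.congr' ?_
  filter_upwards [self_mem_nhdsWithin] with ε hε
  have hP := (hF.nl ε hε).toPot
  rw [setIntegral_univ, ← ibp (LL_sub hP.ll hF.loc.toPot.ll) hψ hv,
    ← integral_indicator measurableSet_H]
  refine integral_congr_ae ?_
  filter_upwards [LL_ae_diff hP.ll, LL_ae_diff hF.loc.toPot.ll, hP.ae_Dt_neg,
    hF.loc.toPot.ae_Dt_neg] with z h1 h2 h3 h4
  rw [D_sub et h1 h2]
  by_cases hz : z ∈ H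
  · rw [indicator_of_mem hz, mul_comm]
  · rw [indicator_of_notMem hz, h3 hz, h4 hz]; simp

lemma Fam.W_sub_u (hF : Fam U M) {ψ : Pl → ℝ} (hψ : LocallyLipschitz ψ) (hv : Van ψ) :
    Tendsto (fun ε => ∫ z in H, ψ z * (quot (U ε) ε z - D ex (U ε) z)) (𝓝[>] 0) (𝓝 0) := by
  refine tendsto_zero_of_abs_le (tendsto_eps_mul (∫ z in H, |D ex ψ z|)) ?_
  filter_upwards [self_mem_nhdsWithin] with ε hε
  exact (hF.nl ε hε).toPot.int_W_sub_u hε hψ hv

lemma Fam.diss (hF : Fam U M) {φ : Pl → ℝ} (hφ : LocallyLipschitz φ) (hv : Van φ)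
    (hpos : ∀ z, 0 ≤ φ z) :
    Tendsto (fun ε => ∫ z in H, φ z * |D ex (U ε) (z + ε • ex) - D ex (U ε) z|) (𝓝[>] 0)
      (𝓝 0) := by
  obtain ⟨K, hK⟩ := LL_lip_of_van hφ hv
  obtain ⟨R, hR⟩ := id hv
  refine tendsto_zero_of_mul ((∫ z, φ z) + 1) fun δ hδ => ?_
  filter_upwards [Ioc_mem_nhdsGT zero_lt_one,
    (tendsto_eps_mul (18 * K * vb (R + 1) / δ ^ 2)).eventually (gt_mem_nhds hδ)] with ε hε h1
  have := (hF.nl ε hε.1).dissip_one hε.1 hε.2 hK (c := 0) (R := R) (by simpa using hR) hpos hδ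
  rw [abs_of_nonneg (integral_nonneg fun z => mul_nonneg (hpos z) (abs_nonneg _))]
  rw [← mul_div_assoc] at h1
  linarith

lemma Fam.W_mul (hF : Fam U M) {φ : Pl → ℝ} (hφ : LocallyLipschitz φ) (hv : Van φ)
    (hpos : ∀ z, 0 ≤ φ z) :
    Tendsto (fun ε => ∫ z in H, φ z * quot (U ε) ε z * (quot (U ε) ε z - D ex (U ε) z)) (𝓝[>] 0)
      (𝓝 0) := by
  have h := (tendsto_eps_mul (∫ z in H, |D ex φ z|)).add (hF.diss hφ hv hpos)
  rw [add_zero] at h
  refine tendsto_zero_of_abs_le h ?_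
  filter_upwards [self_mem_nhdsWithin] with ε hε
  exact (hF.nl ε hε).toPot.int_W_mul_sub hε hφ hv hpos

lemma Fam.uW (hF : Fam U M) {φ : Pl → ℝ} (hφ : LocallyLipschitz φ) (hv : Van φ) :
    Tendsto (fun ε => ∫ z in H, φ z * (D ex (U ε) z * quot (U ε) ε z - D ex M z ^ 2)) (𝓝[>] 0)
      (𝓝 0) := by
  have h := (hF.weak_t hφ hv).add (hF.weak_x hφ hv)
  rw [add_zero] at h
  refine h.congr' ?_
  filter_upwards [self_mem_nhdsWithin] with ε hε
  have hP := (hF.nl ε hε).toPot
  have hM := hF.loc.toPot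
  have Lφ := LB.of_continuous hφ.continuous
  rw [← integral_add ((Lφ.mul ((hP.lbD et).sub (hM.lbD et))).integrableOn (hv.mul_right _) H)
    ((Lφ.mul ((hP.lbD ex).sub (hM.lbD ex))).integrableOn (hv.mul_right _) H)]
  refine setIntegral_congr_ae measurableSet_H ?_
  filter_upwards [(hF.nl ε hε).eq, hF.loc.eq] with z h1 h2 hz
  rw [h1 hz, h2 hz]; ring

lemma Fam.cross (hF : Fam U M) {φ : Pl → ℝ} (hφ : LocallyLipschitz φ) (hv : Van φ) :
    Tendsto (fun ε => ∫ z in H, φ z * D ex M z * (quot (U ε) ε z - D ex M z)) (𝓝[>] 0)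
      (𝓝 0) := by
  have hM := hF.loc.toPot
  have Lφ := LB.of_continuous hφ.continuous
  have Lm := hM.lbD ex
  obtain ⟨C0, R0, -, h0⟩ := Lφ.bound hv
  have A : Tendsto (fun h => ∫ z in H, |φ z| * |D ex M z - quot M h z|) (𝓝[>] 0)
      (𝓝 (∫ z in H, |φ z| * |D ex M z - D ex M z|)) := by
    refine tendsto_setInt H (C0 * 1) R0 (Eventually.of_forall fun h => ?_) ?_ ?_
    · exact (Lφ.abs.mul (Lm.sub (hM.lb_quot h)).abs).meas
    · filter_upwards [self_mem_nhdsWithin] with h hh z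
      refine ⟨abs_mul_le (by simpa using (h0 z).1) ?_, fun hz => by simp [(h0 z).2 hz]⟩
      simpa using abs_sub_le_one_of_mem (hM.Dx_mem z) (hM.quot_mem hh z)
    · filter_upwards [LL_ae_diff hM.ll] with z hz
      exact ((tendsto_const_nhds.sub (tendsto_quot ex hz)).abs).const_mul _
  simp only [sub_self, abs_zero, mul_zero, integral_zero] at A
  refine tendsto_zero_of_mul 3 fun δ hδ => ?_
  obtain ⟨h, hh1, hh⟩ := ((A.eventually (gt_mem_nhds hδ)).and self_mem_nhdsWithin).exists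
  have hψ := LL_mul hφ (LL_quot hM.ll h)
  have hψv : Van (fun z => φ z * quot M h z) := hv.mul_right _
  have Lψ := LB.of_continuous hψ.continuous
  filter_upwards [self_mem_nhdsWithin,
    Metric.tendsto_nhds.1 (hF.W_sub_u hψ hψv) δ hδ, Metric.tendsto_nhds.1 (hF.weak_x hψ hψv) δ hδ]
    with ε hε a1 a2
  rw [Real.dist_eq, sub_zero] at a1 a2
  have hP := (hF.nl ε hε).toPot
  have LW := hP.lb_quot ε
  have Lu := hP.lbD ex
  have i1 : IntegrableOn (fun z => φ z * (D ex M z - quot M h z) * (quot (U ε) ε z - D ex M z)) H :=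
    ((Lφ.mul (Lm.sub (hM.lb_quot h))).mul (LW.sub Lm)).integrableOn
      ((hv.mul_right _).mul_right _) H
  have i2 : IntegrableOn (fun z => φ z * quot M h z * (quot (U ε) ε z - D ex (U ε) z)) H :=
    (Lψ.mul (LW.sub Lu)).integrableOn (hψv.mul_right _) H
  have i3 : IntegrableOn (fun z => φ z * quot M h z * (D ex (U ε) z - D ex M z)) H :=
    (Lψ.mul (Lu.sub Lm)).integrableOn (hψv.mul_right _) H
  have i4 : IntegrableOn (fun z => φ z * (D ex M z - quot M h z) * (quot (U ε) ε z - D ex M z)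
      + φ z * quot M h z * (quot (U ε) ε z - D ex (U ε) z)) H := i1.add i2
  have e : ∫ z in H, φ z * D ex M z * (quot (U ε) ε z - D ex M z)
      = (∫ z in H, φ z * (D ex M z - quot M h z) * (quot (U ε) ε z - D ex M z))
        + (∫ z in H, φ z * quot M h z * (quot (U ε) ε z - D ex (U ε) z))
        + ∫ z in H, φ z * quot M h z * (D ex (U ε) z - D ex M z) := by
    rw [← integral_add i1 i2, ← integral_add i4 i3]
    congr 1; ext z; ring
  have a3 : |∫ z in H, φ z * (D ex M z - quot M h z) * (quot (U ε) ε z - D ex M z)|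
      ≤ ∫ z in H, |φ z| * |D ex M z - quot M h z| := by
    rw [← Real.norm_eq_abs]
    refine norm_integral_le_of_norm_le ((Lφ.abs.mul (Lm.sub (hM.lb_quot h)).abs).integrableOn
      (hv.abs.mul_right _) H) (Eventually.of_forall fun z => ?_)
    have := abs_mul_le (le_of_eq (abs_mul (φ z) (D ex M z - quot M h z)))
      (abs_sub_le_one_of_mem (hP.quot_mem hε z) (hM.Dx_mem z))
    simpa using this
  rw [e]
  refine (abs_add_three _ _ _).trans ?_
  linarith

lemma Fam.W_sq (hF : Fam U M) {φ : Pl → ℝ} (hφ : LocallyLipschitz φ) (hv : Van φ)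
    (hpos : ∀ z, 0 ≤ φ z) :
    Tendsto (fun ε => ∫ z in H, φ z * (quot (U ε) ε z - D ex M z) ^ 2) (𝓝[>] 0) (𝓝 0) := by
  have h := ((hF.W_mul hφ hv hpos).add (hF.uW hφ hv)).sub ((hF.cross hφ hv).const_mul 2)
  simp only [add_zero, mul_zero, sub_zero] at h
  refine h.congr' ?_
  filter_upwards [self_mem_nhdsWithin] with ε hε
  have hP := (hF.nl ε hε).toPot
  have hM := hF.loc.toPot
  have Lφ := LB.of_continuous hφ.continuous
  have LW := hP.lb_quot ε
  have Lu := hP.lbD ex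
  have Lm := hM.lbD ex
  have i1 : IntegrableOn
      (fun z => φ z * quot (U ε) ε z * (quot (U ε) ε z - D ex (U ε) z)) H :=
    ((Lφ.mul LW).mul (LW.sub Lu)).integrableOn ((hv.mul_right _).mul_right _) H
  have i2 : IntegrableOn (fun z => φ z * (D ex (U ε) z * quot (U ε) ε z - D ex M z ^ 2)) H :=
    (Lφ.mul ((Lu.mul LW).sub (Lm.pow 2))).integrableOn (hv.mul_right _) H
  have i3 : IntegrableOn (fun z => 2 * (φ z * D ex M z * (quot (U ε) ε z - D ex M z))) H :=
    (((Lφ.mul Lm).mul (LW.sub Lm)).const_mul 2).integrableOn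
      (((hv.mul_right _).mul_right _).mul_left _) H
  have i4 : IntegrableOn (fun z => φ z * quot (U ε) ε z * (quot (U ε) ε z - D ex (U ε) z)
      + φ z * (D ex (U ε) z * quot (U ε) ε z - D ex M z ^ 2)) H := i1.add i2
  rw [← integral_const_mul, ← integral_add i1 i2, ← integral_sub i4 i3]
  congr 1; ext z; ring

/-- Strong convergence of the averages. -/
theorem Fam.W_strong (hF : Fam U M) {g : Pl → ℝ} (hg : LB g) (hv : Van g) :
    Tendsto (fun ε => ∫ z in H, |quot (U ε) ε z - D ex M z| * |g z|) (𝓝[>] 0) (𝓝 0) := by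
  obtain ⟨C, R, hC, h0⟩ := hg.bound hv
  let φ : Pl → ℝ := fun z => max (R + 1 - ‖z‖) 0
  have hφ : LocallyLipschitz φ :=
    (LL_sub (LL_const _) lipschitzWith_one_norm.locallyLipschitz).max (LL_const 0)
  have hφv : Van φ := ⟨R + 1, fun z hz => max_eq_right (by linarith)⟩
  have hpos : ∀ z, 0 ≤ φ z := fun z => le_max_right _ _
  have Lφ := LB.of_continuous hφ.continuous
  have hM := hF.loc.toPot
  refine tendsto_zero_of_mul (C * ((∫ z in H, φ z) + 1)) fun δ hδ => ?_
  filter_upwards [self_mem_nhdsWithin,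
    (hF.W_sq hφ hφv hpos).eventually (gt_mem_nhds (show 0 < δ ^ 2 by positivity))] with ε hε a1
  have hP := (hF.nl ε hε).toPot
  have La := (hP.lb_quot ε).sub (hM.lbD ex)
  have i1 : IntegrableOn (fun z => δ * φ z) H := (Lφ.const_mul δ).integrableOn (hφv.mul_left _) H
  have i2 : IntegrableOn (fun z => φ z * (quot (U ε) ε z - D ex M z) ^ 2 / δ) H :=
    ((Lφ.mul (La.pow 2)).div_const δ).integrableOn ((hφv.mul_right _).div_const _) H
  have i3 : IntegrableOn (fun z => δ * φ z + φ z * (quot (U ε) ε z - D ex M z) ^ 2 / δ) H :=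
    i1.add i2
  rw [abs_of_nonneg (integral_nonneg fun z => mul_nonneg (abs_nonneg _) (abs_nonneg _))]
  calc ∫ z in H, |quot (U ε) ε z - D ex M z| * |g z|
      ≤ ∫ z in H, C * (δ * φ z + φ z * (quot (U ε) ε z - D ex M z) ^ 2 / δ) := by
        refine integral_mono ((La.abs.mul hg.abs).integrableOn (hv.abs.mul_left _) H)
          (i3.const_mul C) fun z => ?_
        have h1 := hpos z
        by_cases hz : R < ‖z‖
        · simp only [(h0 z).2 hz, abs_zero, mul_zero]; positivity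
        · have h2 : 1 ≤ φ z := le_max_of_le_left (by linarith [not_lt.1 hz])
          set a := quot (U ε) ε z - D ex M z
          have h3 : |a| ≤ δ + a ^ 2 / δ := by
            rw [← sq_abs, ← sub_le_iff_le_add', le_div_iff₀ hδ]
            nlinarith [sq_nonneg (|a| - δ), abs_nonneg a]
          have h4 : δ + a ^ 2 / δ ≤ δ * φ z + φ z * a ^ 2 / δ := by
            have : 0 ≤ a ^ 2 / δ := by positivity
            rw [mul_div_assoc]
            nlinarith
          rw [mul_comm]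
          exact mul_le_mul (h0 z).1 (h3.trans h4) (abs_nonneg _) hC
    _ = C * (δ * (∫ z in H, φ z) + (∫ z in H, φ z * (quot (U ε) ε z - D ex M z) ^ 2) / δ) := by
        rw [integral_const_mul, integral_add i1 i2, integral_const_mul, integral_div]
    _ ≤ C * (δ * (∫ z in H, φ z) + δ ^ 2 / δ) := by gcongr
    _ = _ := by field_simp

end Pool.Agent.MP_a93f81_an

end MrgPart3

-- ======== part 4: formerly Pool.Agent.MP_a93f81_an.Stop
section MrgPart4

/-!
The play and stop operators in the space variable, and the test functions built from them.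
-/

set_option autoImplicit false

open MeasureTheory Filter Topology Set Metric
open scoped ContDiff

namespace Pool.Agent.MP_a93f81_an

/-- Levels reached by the play operator. -/
def playSet (F : Pl → ℝ) (δ : ℝ) (z : Pl) : Set ℝ :=
  {c | ∃ ρ : ℝ, 0 ≤ ρ ∧ c ≤ F (z - ρ • ex) - δ ∧ ∀ σ ∈ Icc 0 ρ, c ≤ F (z - σ • ex)}

/-- The play operator of width `δ` along the space variable. -/
noncomputable def play (F : Pl → ℝ) (δ : ℝ) (z : Pl) : ℝ := sSup (playSet F δ z)

lemma mem_playSet (F : Pl → ℝ) {δ : ℝ} (hδ : 0 ≤ δ) (z : Pl) : F z - δ ∈ playSet F δ z := by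
  refine ⟨0, le_rfl, by simp, fun σ hσ => ?_⟩
  have : σ = 0 := le_antisymm hσ.2 hσ.1
  simp [this, hδ]

lemma le_of_mem_playSet {F : Pl → ℝ} {δ c : ℝ} {z : Pl} (h : c ∈ playSet F δ z) : c ≤ F z := by
  obtain ⟨ρ, h0, -, h2⟩ := h
  simpa using h2 0 ⟨le_rfl, h0⟩

lemma bddAbove_playSet (F : Pl → ℝ) (δ : ℝ) (z : Pl) : BddAbove (playSet F δ z) :=
  ⟨F z, fun _ h => le_of_mem_playSet h⟩

lemma le_play {F : Pl → ℝ} {δ c : ℝ} {z : Pl} (h : c ∈ playSet F δ z) : c ≤ play F δ z :=
  le_csSup (bddAbove_playSet F δ z) h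

lemma play_le {F : Pl → ℝ} {δ b : ℝ} (hδ : 0 ≤ δ) {z : Pl} (h : ∀ c ∈ playSet F δ z, c ≤ b) :
    play F δ z ≤ b := csSup_le ⟨_, mem_playSet F hδ z⟩ h

lemma play_le_self (F : Pl → ℝ) {δ : ℝ} (hδ : 0 ≤ δ) (z : Pl) : play F δ z ≤ F z :=
  play_le hδ fun _ h => le_of_mem_playSet h

lemma sub_le_play (F : Pl → ℝ) {δ : ℝ} (hδ : 0 ≤ δ) (z : Pl) : F z - δ ≤ play F δ z :=
  le_play (mem_playSet F hδ z)

lemma play_mono {F : Pl → ℝ} {δ a : ℝ} (hδ : 0 ≤ δ) {z z' : Pl}
    (h : ∀ σ : ℝ, 0 ≤ σ → F (z - σ • ex) ≤ F (z' - σ • ex) + a) :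
    play F δ z ≤ play F δ z' + a := by
  refine play_le hδ ?_
  rintro c ⟨ρ, h0, h1, h2⟩
  have : c - a ∈ playSet F δ z' :=
    ⟨ρ, h0, by linarith [h ρ h0], fun σ hσ => by linarith [h σ hσ.1, h2 σ hσ]⟩
  linarith [le_play this]

lemma play_lip {F : Pl → ℝ} {K : NNReal} (hF : LipschitzWith K F) {δ : ℝ} (hδ : 0 ≤ δ) :
    LipschitzWith K (play F δ) := by
  refine LipschitzWith.of_le_add_mul K fun z z' => play_mono hδ fun σ _ => ?_
  have := hF.le_add_mul (z - σ • ex) (z' - σ • ex)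
  rwa [dist_sub_right] at this

lemma play_loc_const {F : Pl → ℝ} (hF : Continuous F) {δ : ℝ} (hδ : 0 ≤ δ) {z : Pl}
    (h1 : F z - δ < play F δ z) (h2 : play F δ z < F z) :
    ∀ᶠ s in 𝓝[>] (0 : ℝ), play F δ (z + s • ex) = play F δ z := by
  have hc := (cont_line hF z ex).tendsto 0
  simp only [zero_smul, add_zero] at hc
  have e1 := hc.eventually (lt_mem_nhds h2)
  have e2 := hc.eventually (gt_mem_nhds (show F z < play F δ z + δ by linarith))
  obtain ⟨r, hr, hball⟩ := Metric.eventually_nhds_iff_ball.1 (e1.and e2)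
  filter_upwards [Ioo_mem_nhdsGT hr] with s hs
  have hb : ∀ σ, 0 ≤ σ → σ ≤ s → play F δ z < F (z + σ • ex) ∧ F (z + σ • ex) < play F δ z + δ :=
    fun σ h0 h1 => hball σ (by
      rw [mem_ball, dist_zero_right, Real.norm_eq_abs, abs_of_nonneg h0]; linarith [hs.2])
  have e3 : ∀ σ : ℝ, z + s • ex - σ • ex = z - (σ - s) • ex := fun σ => by
    rw [sub_smul]; abel
  have e4 : ∀ σ : ℝ, z + s • ex - σ • ex = z + (s - σ) • ex := fun σ => by
    rw [sub_smul]; abel
  refine le_antisymm (play_le hδ ?_) (play_le hδ ?_)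
  · rintro c ⟨ρ, h0, h3, h4⟩
    by_cases hρ : s ≤ ρ
    · refine le_play ⟨ρ - s, by linarith, by rwa [← e3], fun σ hσ => ?_⟩
      have := h4 (σ + s) ⟨by linarith [hσ.1, hs.1], by linarith [hσ.2]⟩
      rwa [e3, add_sub_cancel_right] at this
    · rw [e4] at h3
      linarith [(hb (s - ρ) (by linarith) (by linarith)).2]
  · intro c hc
    have hc0 := le_play hc
    obtain ⟨ρ, h0, h3, h4⟩ := hc
    refine le_play ⟨ρ + s, by linarith [hs.1], by rwa [e3, add_sub_cancel_right], fun σ hσ => ?_⟩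
    by_cases h5 : s ≤ σ
    · rw [e3]; exact h4 _ ⟨by linarith, by linarith [hσ.2]⟩
    · rw [e4]; linarith [(hb (s - σ) (by linarith) (by linarith [hσ.1])).1]

lemma play_of_neg {F : Pl → ℝ} {z : Pl} (hd : DifferentiableAt ℝ F z) (h : D ex F z < 0) :
    ∀ᶠ δ in 𝓝[>] (0 : ℝ), play F δ z = F z := by
  have e := (tendsto_quot_neg ex hd).eventually (gt_mem_nhds h)
  obtain ⟨r, hr, hsub⟩ := (mem_nhdsGT_iff_exists_Ioc_subset).1 e
  have hlt : ∀ σ ∈ Ioc 0 r, F z < F (z - σ • ex) := fun σ hσ => by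
    have : (F z - F (z - σ • ex)) / σ < 0 := hsub hσ
    rw [div_lt_iff₀ hσ.1] at this
    linarith
  filter_upwards [Ioc_mem_nhdsGT (sub_pos.2 (hlt r ⟨hr, le_rfl⟩))] with δ hδ
  refine le_antisymm (play_le_self F hδ.1.le z) (le_play ⟨r, le_of_lt hr, by linarith [hδ.2],
    fun σ hσ => ?_⟩)
  rcases eq_or_lt_of_le hσ.1 with h0 | h0
  · simp [← h0]
  · exact (hlt σ ⟨h0, hσ.2⟩).le

lemma play_of_pos {F : Pl → ℝ} {z : Pl} (hd : DifferentiableAt ℝ F z) (h : 0 < D ex F z) :
    ∀ᶠ δ in 𝓝[>] (0 : ℝ), play F δ z = F z - δ := by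
  have e := (tendsto_quot_neg ex hd).eventually (lt_mem_nhds h)
  obtain ⟨r, hr, hsub⟩ := (mem_nhdsGT_iff_exists_Ioc_subset).1 e
  have hlt : ∀ σ ∈ Ioc 0 r, F (z - σ • ex) < F z := fun σ hσ => by
    have : 0 < (F z - F (z - σ • ex)) / σ := hsub hσ
    rw [lt_div_iff₀ hσ.1] at this
    linarith
  filter_upwards [Ioc_mem_nhdsGT (sub_pos.2 (hlt r ⟨hr, le_rfl⟩))] with δ hδ
  refine le_antisymm (play_le hδ.1.le ?_) (sub_le_play F hδ.1.le z)
  rintro c ⟨ρ, h0, h1, h2⟩
  by_cases hρ : ρ ≤ r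
  · rcases eq_or_lt_of_le h0 with h3 | h3
    · simpa [← h3] using h1
    · linarith [hlt ρ ⟨h3, hρ⟩]
  · linarith [h2 r ⟨le_of_lt hr, (not_le.1 hρ).le⟩, hδ.2]

/-- The potential of `m - k`. -/
def psi (M : Pl → ℝ) (k : ℝ) (z : Pl) : ℝ := M z - k * z.2 + k * (1 - k) * z.1

/-- The normalised stop operator applied to `psi`. -/
noncomputable def stop (M : Pl → ℝ) (k δ : ℝ) (z : Pl) : ℝ :=
  (psi M k z - play (psi M k) δ z) / δ

lemma psi_lip {M : Pl → ℝ} (hM : Pot M) (k : ℝ) : ∃ K, LipschitzWith K (psi M k) := by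
  have h1 : LipschitzWith (‖k‖₊ * 1) (fun z : Pl => k * z.2) :=
    (lipschitzWith_smul k).comp (LipschitzWith.prod_snd (α := ℝ) (β := ℝ))
  have h2 : LipschitzWith (‖k * (1 - k)‖₊ * 1) (fun z : Pl => k * (1 - k) * z.1) :=
    (lipschitzWith_smul (k * (1 - k))).comp (LipschitzWith.prod_fst (α := ℝ) (β := ℝ))
  exact ⟨_, (hM.lip.sub h1).add h2⟩

lemma diffAt_psi {M : Pl → ℝ} (k : ℝ) {z : Pl} (hd : DifferentiableAt ℝ M z) :
    DifferentiableAt ℝ (psi M k) z := by
  unfold psi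
  fun_prop

lemma D_psi {M : Pl → ℝ} (k : ℝ) (v : Pl) {z : Pl} (hd : DifferentiableAt ℝ M z) :
    D v (psi M k) z = D v M z - k * v.2 + k * (1 - k) * v.1 := by
  unfold psi
  rw [D_add v (by fun_prop) (by fun_prop), D_sub v hd (by fun_prop),
    D_const_mul v _ differentiableAt_snd, D_const_mul v _ differentiableAt_fst, D_fst, D_snd]

lemma stop_mem (M : Pl → ℝ) (k : ℝ) {δ : ℝ} (hδ : 0 < δ) (z : Pl) :
    stop M k δ z ∈ Icc (0 : ℝ) 1 :=
  ⟨div_nonneg (sub_nonneg.2 (play_le_self _ hδ.le z)) hδ.le,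
    (div_le_one hδ).2 (by linarith [sub_le_play (psi M k) hδ.le z])⟩

lemma stop_ll {M : Pl → ℝ} (hM : Pot M) (k : ℝ) {δ : ℝ} (hδ : 0 < δ) :
    LocallyLipschitz (stop M k δ) := by
  obtain ⟨K, hK⟩ := psi_lip hM k
  exact LL_div_const (LL_sub hK.locallyLipschitz (play_lip hK hδ.le).locallyLipschitz) δ

lemma stop_neg {M : Pl → ℝ} (hM : Pot M) (k : ℝ) {δ : ℝ} (hδ : 0 < δ) {z : Pl} (hz : z.1 ≤ 0) :
    stop M k δ z = stop M k δ (0, z.2) := by
  have e : ∀ σ : ℝ, psi M k (z - σ • ex) = psi M k ((0, z.2) - σ • ex) + k * (1 - k) * z.1 := by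
    intro σ
    unfold psi
    rw [hM.neg (z - σ • ex) (by simpa using hz), hM.neg ((0, z.2) - σ • ex) (by simp)]
    simp
  have h1 : play (psi M k) δ z ≤ play (psi M k) δ (0, z.2) + k * (1 - k) * z.1 :=
    play_mono hδ.le fun σ _ => (e σ).le
  have h2 : play (psi M k) δ (0, z.2) ≤ play (psi M k) δ z + - (k * (1 - k) * z.1) :=
    play_mono hδ.le fun σ _ => by linarith [e σ]
  have h3 := e 0
  simp only [zero_smul, sub_zero] at h3
  unfold stop
  congr 1
  linarith

lemma Dt_zero_of_neg {f : Pl → ℝ} (h : ∀ z : Pl, z.1 ≤ 0 → f z = f (0, z.2)) {z : Pl}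
    (hz : z.1 < 0) : D et f z = 0 := by
  by_cases hd : DifferentiableAt ℝ f z
  · refine tendsto_nhds_unique (tendsto_quot et hd) (tendsto_const_nhds.congr' ?_)
    filter_upwards [Ioo_mem_nhdsGT (neg_pos.2 hz)] with s hs
    rw [h z hz.le, h (z + s • et) (by simp; linarith [hs.2])]
    simp
  · simp [D, fderiv_zero_of_not_differentiableAt hd]

lemma Loc.stop_super {M : Pl → ℝ} (hM : Loc M) (k : ℝ) {δ : ℝ} (hδ : 0 < δ) :
    ∀ᵐ z, z ∈ H → D et (stop M k δ) z + (1 - D ex M z - k) * D ex (stop M k δ) z ≤ 0 := by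
  have hP := hM.toPot
  obtain ⟨K, hK⟩ := psi_lip hP k
  have hΞ := play_lip hK hδ.le
  have hmono : ∀ (z : Pl) (s : ℝ), 0 ≤ z.1 → 0 ≤ s →
      psi M k z ≤ psi M k (z + s • ((1, 1 - 2 * k) : Pl)) := by
    intro z s hz hs
    have := line_ge_H (c := 0) (v := ((1, 1 - 2 * k) : Pl)) hK hs hz zero_le_one (by
      filter_upwards [LL_ae_diff hP.ll, hM.eq] with y hy h1 h2
      rw [D_psi k _ hy, D_dir, h1 h2]
      nlinarith [sq_nonneg (D ex M y - k)])
    linarith
  filter_upwards [LL_ae_diff hP.ll, hM.eq, LL_ae_diff hΞ.locallyLipschitz] with z h1 h2 h3 hz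
  by_cases c0 : stop M k δ z = 0
  · have : IsLocalMin (stop M k δ) z :=
      Eventually.of_forall fun y => by rw [c0]; exact (stop_mem M k hδ y).1
    simp [D, this.fderiv_eq_zero]
  by_cases c1 : stop M k δ z = 1
  · have : IsLocalMax (stop M k δ) z :=
      Eventually.of_forall fun y => by rw [c1]; exact (stop_mem M k hδ y).2
    simp [D, this.fderiv_eq_zero]
  have m := stop_mem M k hδ z
  have l0 : 0 < stop M k δ z := lt_of_le_of_ne m.1 (Ne.symm c0)
  have l1 : stop M k δ z < 1 := lt_of_le_of_ne m.2 c1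
  rw [stop, lt_div_iff₀ hδ] at l0
  rw [stop, div_lt_one hδ] at l1
  have hx : D ex (play (psi M k) δ) z = 0 := by
    refine tendsto_nhds_unique (tendsto_quot ex h3) (tendsto_const_nhds.congr' ?_)
    filter_upwards [play_loc_const hK.continuous hδ.le (z := z) (by linarith) (by linarith)]
      with s hs
    simp [hs]
  have ht : 0 ≤ D ((1, 1 - 2 * k) : Pl) (play (psi M k) δ) z := by
    refine ge_of_tendsto (tendsto_quot _ h3) ?_
    filter_upwards [self_mem_nhdsWithin] with s hs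
    refine div_nonneg (sub_nonneg.2 ?_) (le_of_lt hs)
    have := play_mono (F := psi M k) (a := 0) hδ.le (z := z)
      (z' := z + s • ((1, 1 - 2 * k) : Pl)) fun σ _ => by
        have := hmono (z - σ • ex) s (by simpa using le_of_lt hz) (le_of_lt hs)
        rwa [add_zero, add_sub_right_comm]
    simpa using this
  rw [D_dir, hx] at ht
  have hD : ∀ v, D v (stop M k δ) z = (D v (psi M k) z - D v (play (psi M k) δ) z) / δ := by
    intro v
    unfold stop
    rw [D_div_const v δ ((diffAt_psi k h1).fun_sub h3), D_sub v (diffAt_psi k h1) h3]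
  rw [hD, hD, hx, D_psi k _ h1, D_psi k _ h1, h2 hz]
  simp only [et_fst, et_snd, ex_fst, ex_snd]
  have : (-D ex M z * (1 - D ex M z) - k * 0 + k * (1 - k) * 1 - D et (play (psi M k) δ) z) / δ
      + (1 - D ex M z - k) * ((D ex M z - k * 1 + k * (1 - k) * 0 - 0) / δ)
      = - D et (play (psi M k) δ) z / δ := by ring
  rw [this]
  exact div_nonpos_of_nonpos_of_nonneg (by linarith) hδ.le

lemma stop_tendsto_zero {M : Pl → ℝ} {k : ℝ} {z : Pl} (hd : DifferentiableAt ℝ M z)
    (h : D ex M z < k) : ∀ᶠ δ in 𝓝[>] (0 : ℝ), stop M k δ z = 0 := by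
  filter_upwards [play_of_neg (diffAt_psi k hd) (by rw [D_psi k _ hd]; simp; linarith)] with δ hδ
  simp [stop, hδ]

lemma stop_tendsto_one {M : Pl → ℝ} {k : ℝ} {z : Pl} (hd : DifferentiableAt ℝ M z)
    (h : k < D ex M z) : ∀ᶠ δ in 𝓝[>] (0 : ℝ), stop M k δ z = 1 := by
  filter_upwards [play_of_pos (diffAt_psi k hd) (by rw [D_psi k _ hd]; simp; linarith),
    self_mem_nhdsWithin] with δ hδ h0
  rw [stop, hδ, sub_sub_cancel, div_self (ne_of_gt h0)]

end Pool.Agent.MP_a93f81_an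

end MrgPart4

-- ======== part 5: formerly Pool.Agent.MP_a93f81_an.Final
section MrgPart5

/-!
Strong convergence of the nonlocal densities.
-/

set_option autoImplicit false

open MeasureTheory Filter Topology Set Metric
open scoped ContDiff

namespace Pool.Agent.MP_a93f81_an

/-- Argument of the cutoff. -/
noncomputable def carg (S : ℝ) (z : Pl) : ℝ := S - (2 * z.1 + max (-z.1) 0 ^ 2) - √(1 + z.2 ^ 2)

/-- The cutoff. -/
noncomputable def cut (S : ℝ) (z : Pl) : ℝ := max (carg S z) 0 ^ 2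

/-- The weight produced by the cutoff. -/
noncomputable def wt (S : ℝ) (z : Pl) : ℝ := 2 * max (carg S z) 0

lemma carg_contDiff (S : ℝ) : ContDiff ℝ 1 (carg S) := by
  unfold carg
  refine (contDiff_const.sub (ContDiff.add (by fun_prop)
    (contDiff_posSq.comp contDiff_fst.neg))).sub (ContDiff.sqrt (by fun_prop) fun z => ?_)
  positivity

lemma cut_contDiff (S : ℝ) : ContDiff ℝ 1 (cut S) := contDiff_posSq.comp (carg_contDiff S)

lemma wt_ll (S : ℝ) : LocallyLipschitz (wt S) :=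
  LL_mul (LL_const 2) ((LL_of_contDiff (carg_contDiff S)).max (LL_const 0))

lemma wt_nonneg (S : ℝ) (z : Pl) : 0 ≤ wt S z := mul_nonneg zero_le_two (le_max_right _ _)

lemma van_carg (S : ℝ) : Van (fun z => max (carg S z) 0) := by
  refine ⟨S + 9 / 4, fun z hz => max_eq_right ?_⟩
  have h1 : |z.1| - 9 / 4 ≤ 2 * z.1 + max (-z.1) 0 ^ 2 := by
    rcases le_total 0 z.1 with h | h
    · rw [abs_of_nonneg h, max_eq_right (by linarith)]; linarith
    · rw [abs_of_nonpos h, max_eq_left (by linarith)]; nlinarith [sq_nonneg (z.1 + 3 / 2)]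
  have h2 := abs_le_jap z.2
  have h3 : ‖z‖ ≤ |z.1| + |z.2| := by
    rw [Prod.norm_def, max_le_iff, Real.norm_eq_abs, Real.norm_eq_abs]
    exact ⟨by linarith [abs_nonneg z.2], by linarith [abs_nonneg z.1]⟩
  unfold carg
  linarith

lemma van_cut (S : ℝ) : Van (cut S) := (van_carg S).comp (b := fun s => s ^ 2) (by simp)

lemma van_wt (S : ℝ) : Van (wt S) := (van_carg S).mul_left (fun _ => 2)

lemma D_cut (S : ℝ) (v : Pl) {z : Pl} (hz : z ∈ H) :
    D v (cut S) z = wt S z * (- 2 * v.1 - z.2 / √(1 + z.2 ^ 2) * v.2) := by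
  have h0 : carg S =ᶠ[𝓝 z] fun y => S - 2 * y.1 - √(1 + y.2 ^ 2) := by
    filter_upwards [isOpen_H.mem_nhds hz] with y hy
    have : 0 < y.1 := hy
    rw [carg, max_eq_right (by linarith)]; simp
  have h3 : DifferentiableAt ℝ (fun y : Pl => √(1 + y.2 ^ 2)) z :=
    (hasDerivAt_jap z.2).differentiableAt.comp z differentiableAt_snd
  have h1 : D v (carg S) z = - 2 * v.1 - z.2 / √(1 + z.2 ^ 2) * v.2 := by
    rw [D_congr v h0, D_sub v (by fun_prop) h3, D_sub v (by fun_prop) (by fun_prop), D_const,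
      D_const_mul v 2 differentiableAt_fst, D_fst,
      D_comp v (hasDerivAt_jap z.2) differentiableAt_snd, D_snd]
    ring
  unfold cut
  rw [D_comp v (hasDerivAt_posSq _) ((carg_contDiff S).differentiable (by simp) z), h1, wt]

lemma abs_posPart_le {k u : ℝ} (hk : k ∈ Icc (0 : ℝ) 1) (hu : u ∈ Icc (0 : ℝ) 1) :
    |max (k - u) 0| ≤ 1 := by
  rw [abs_of_nonneg (le_max_right _ _)]
  exact max_le (by linarith [hk.2, hu.1]) zero_le_one

variable {U : ℝ → Pl → ℝ} {M : Pl → ℝ}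

lemma Fam.main_ineq (hF : Fam U M) {k : ℝ} (hk : k ∈ Icc (0 : ℝ) 1) (S : ℝ) {δ ε : ℝ}
    (hδ : 0 < δ) (hε : 0 < ε) :
    ∫ z in H, max (k - D ex (U ε) z) 0 * (stop M k δ z * wt S z)
      ≤ (∫ z in Hᶜ, max (k - D ex M z) 0 * stop M k δ z * |D et (cut S) z|)
        + (∫ z in H, |quot (U ε) ε z - D ex M z| * |D ex (fun y => stop M k δ y * cut S y) z|)
        + ∫ z in H, |D ex (fun y => stop M k δ y * cut S y) z
            - (stop M k δ z * cut S z - stop M k δ (z - ε • ex) * cut S (z - ε • ex)) / ε| := by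
  have hU := hF.nl ε hε
  have hP := hU.toPot
  have hM := hF.loc.toPot
  have hs := stop_ll hM k hδ
  have hc := LL_of_contDiff (cut_contDiff S)
  have hcd := (cut_contDiff S).differentiable (by simp)
  set φ : Pl → ℝ := fun y => stop M k δ y * cut S y with hφdef
  have hφ : LocallyLipschitz φ := LL_mul hs hc
  have hv : Van φ := (van_cut S).mul_left _
  have hc0 : ∀ z, 0 ≤ cut S z := fun z => by unfold cut; positivity
  have hpos : ∀ z, 0 ≤ φ z := fun z => mul_nonneg (stop_mem M k hδ z).1 (hc0 z)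
  have h := hU.kruz hε hk hφ hv hpos
  have Lφ := LB.of_continuous hφ.continuous
  have Ls := LB.of_continuous hs.continuous
  have Lu := hP.lbD ex
  have Lm := hM.lbD ex
  have LW := hP.lb_quot ε
  have cβ : Continuous (fun s : ℝ => max (k - s) 0) := by fun_prop
  have Lβ := Lu.comp cβ
  have LQ : LB (fun z => (φ z - φ (z - ε • ex)) / ε) := (Lφ.sub (Lφ.shift_sub _)).div_const ε
  have VQ : Van (fun z => (φ z - φ (z - ε • ex)) / ε) := (hv.sub (hv.shift_sub _)).div_const ε
  have i0 : Integrable (fun z => max (k - D ex (U ε) z) 0 * D et φ z) :=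
    (Lβ.mul (LB.D hφ et)).integrable ((hv.D et).mul_left _)
  rw [← integral_add_compl measurableSet_H i0] at h
  have a1 : ∫ z in Hᶜ, max (k - D ex (U ε) z) 0 * D et φ z
      ≤ ∫ z in Hᶜ, max (k - D ex M z) 0 * stop M k δ z * |D et (cut S) z| := by
    refine setIntegral_mono_on_ae i0.integrableOn
      ((((Lm.comp cβ).mul Ls).mul (LB.D hc et).abs).integrableOn
        (((van_cut S).D et).abs.mul_left _) _) measurableSet_H.compl ?_
    filter_upwards [ae_fst_ne 0, LL_ae_diff hs] with z h1 h2 hz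
    have hz' : z.1 < 0 := lt_of_le_of_ne (not_lt.1 hz) h1
    have e : D ex (U ε) z = D ex M z := by
      refine D_congr ex ?_
      filter_upwards [(isOpen_lt continuous_fst continuous_const).mem_nhds hz'] with y hy
      rw [hP.neg y (le_of_lt hy), hM.neg y (le_of_lt hy), hF.init ε hε]
    rw [e, hφdef, D_mul et h2 (hcd z), Dt_zero_of_neg (fun y hy => stop_neg hM k hδ hy) hz',
      zero_mul, add_zero, mul_assoc]
    exact mul_le_mul_of_nonneg_left (mul_le_mul_of_nonneg_left (le_abs_self _)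
      (stop_mem M k hδ z).1) (le_max_right _ _)
  have i1 : IntegrableOn (fun z => max (k - D ex (U ε) z) 0
      * ((1 - quot (U ε) ε z) * D ex φ z - k * ((φ z - φ (z - ε • ex)) / ε))) H :=
    (Lβ.mul ((((LB.const 1).sub LW).mul (LB.D hφ ex)).sub (LQ.const_mul k))).integrableOn
      ((((hv.D ex).mul_left _).sub (VQ.mul_left (fun _ => k))).mul_left _) H
  have i2 : IntegrableOn (fun z => max (k - D ex (U ε) z) 0 * (stop M k δ z * wt S z)) H :=
    (Lβ.mul (Ls.mul (LB.of_continuous (wt_ll S).continuous))).integrableOn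
      (((van_wt S).mul_left _).mul_left _) H
  have i3 : IntegrableOn (fun z => |quot (U ε) ε z - D ex M z| * |D ex φ z|) H :=
    ((LW.sub Lm).abs.mul (LB.D hφ ex).abs).integrableOn ((hv.D ex).abs.mul_left _) H
  have i4 : IntegrableOn (fun z => |D ex φ z - (φ z - φ (z - ε • ex)) / ε|) H :=
    ((LB.D hφ ex).sub LQ).abs.integrableOn ((hv.D ex).sub VQ).abs H
  have i5 : IntegrableOn (fun z => |quot (U ε) ε z - D ex M z| * |D ex φ z|
      + |D ex φ z - (φ z - φ (z - ε • ex)) / ε|) H := i3.add i4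
  have a2 : ∫ z in H, (max (k - D ex (U ε) z) 0 * D et φ z + max (k - D ex (U ε) z) 0
      * ((1 - quot (U ε) ε z) * D ex φ z - k * ((φ z - φ (z - ε • ex)) / ε)))
      ≤ ∫ z in H, (|quot (U ε) ε z - D ex M z| * |D ex φ z|
          + |D ex φ z - (φ z - φ (z - ε • ex)) / ε|
          - max (k - D ex (U ε) z) 0 * (stop M k δ z * wt S z)) := by
    refine setIntegral_mono_on_ae (i0.integrableOn.add i1) (i5.sub i2) measurableSet_H ?_
    filter_upwards [LL_ae_diff hs, hF.loc.stop_super k hδ] with z h2 h3 hz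
    have b0 := abs_posPart_le hk (hP.Dx_mem z)
    have b1 : 0 ≤ max (k - D ex (U ε) z) 0 := le_max_right _ _
    have m := hM.Dx_mem z
    have b2 : D et φ z + (1 - D ex M z - k) * D ex φ z ≤ - (stop M k δ z * wt S z) := by
      rw [hφdef, D_mul et h2 (hcd z), D_mul ex h2 (hcd z), D_cut S et hz, D_cut S ex hz]
      simp only [et_fst, et_snd, ex_fst, ex_snd]
      have c1 := mul_le_mul_of_nonneg_left (h3 hz) (hc0 z)
      have c2 : |(1 - D ex M z - k) * (z.2 / √(1 + z.2 ^ 2))| ≤ 1 * 1 :=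
        abs_mul_le (abs_le.2 ⟨by linarith [m.2, hk.2], by linarith [m.1, hk.1]⟩)
          (abs_jap_deriv_le z.2)
      have c3 := mul_le_mul_of_nonneg_left (abs_le.1 c2).1
        (mul_nonneg (stop_mem M k hδ z).1 (wt_nonneg S z))
      nlinarith
    have b3 : |max (k - D ex (U ε) z) 0 * ((quot (U ε) ε z - D ex M z) * D ex φ z)|
        ≤ 1 * (|quot (U ε) ε z - D ex M z| * |D ex φ z|) :=
      abs_mul_le b0 (le_of_eq (abs_mul _ _))
    have b4 : |max (k - D ex (U ε) z) 0 * k * (D ex φ z - (φ z - φ (z - ε • ex)) / ε)|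
        ≤ 1 * 1 * |D ex φ z - (φ z - φ (z - ε • ex)) / ε| :=
      abs_mul_le (abs_mul_le b0 (abs_le_one_of_mem hk)) le_rfl
    have b5 := mul_le_mul_of_nonneg_left b2 b1
    have b6 := (abs_le.1 b3).1
    have b7 := (abs_le.1 b4).2
    nlinarith
  rw [integral_add i0.integrableOn i1, integral_sub i5 i2, integral_add i3 i4] at a2
  linarith

/-- Indicator of the set where the local density exceeds `k`. -/
noncomputable def ind (M : Pl → ℝ) (k : ℝ) (z : Pl) : ℝ := if k < D ex M z then 1 else 0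

lemma ind_mem (M : Pl → ℝ) (k : ℝ) (z : Pl) : ind M k z ∈ Icc (0 : ℝ) 1 := by
  unfold ind; split_ifs <;> simp

lemma lb_ind (M : Pl → ℝ) (k : ℝ) : LB (ind M k) :=
  LB.of_bdd (Measurable.ite (measurableSet_lt measurable_const (measurable_D ex M))
    measurable_const measurable_const) 1 fun z => abs_le_one_of_mem (ind_mem M k z)

lemma Fam.level (hF : Fam U M) {k : ℝ} (hk : k ∈ Icc (0 : ℝ) 1) (S : ℝ) :
    Tendsto (fun ε => ∫ z in H, max (k - D ex (U ε) z) 0 * ind M k z * wt S z) (𝓝[>] 0)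
      (𝓝 0) := by
  have hM := hF.loc.toPot
  have Lm := hM.lbD ex
  have cβ : Continuous (fun s : ℝ => max (k - s) 0) := by fun_prop
  have hc := LL_of_contDiff (cut_contDiff S)
  have Lw := LB.of_continuous (wt_ll S).continuous
  obtain ⟨C1, R1, -, h1⟩ := (LB.D hc et).abs.bound ((van_cut S).D et).abs
  obtain ⟨C2, R2, -, h2⟩ := Lw.bound (van_wt S)
  have J1 : Tendsto (fun δ => ∫ z in Hᶜ, max (k - D ex M z) 0 * stop M k δ z * |D et (cut S) z|)
      (𝓝[>] 0) (𝓝 (∫ _ in Hᶜ, (0 : ℝ))) := by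
    refine tendsto_setInt Hᶜ (1 * 1 * C1) R1 ?_ ?_ ?_
    · filter_upwards [self_mem_nhdsWithin] with δ hδ
      exact (((Lm.comp cβ).mul (LB.of_continuous (stop_ll hM k hδ).continuous)).mul
        (LB.D hc et).abs).meas
    · filter_upwards [self_mem_nhdsWithin] with δ hδ z
      exact ⟨abs_mul_le (abs_mul_le (abs_posPart_le hk (hM.Dx_mem z))
        (abs_le_one_of_mem (stop_mem M k hδ z))) (h1 z).1, fun hz => by rw [(h1 z).2 hz, mul_zero]⟩
    · filter_upwards [LL_ae_diff hM.ll] with z hz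
      by_cases h : D ex M z < k
      · refine tendsto_const_nhds.congr' ?_
        filter_upwards [stop_tendsto_zero hz h] with δ hδ
        simp [hδ]
      · rw [max_eq_right (by linarith [not_lt.1 h])]
        simp
  have J2 : Tendsto (fun δ => ∫ z in H, ind M k z * (1 - stop M k δ z) * wt S z)
      (𝓝[>] 0) (𝓝 (∫ _ in H, (0 : ℝ))) := by
    refine tendsto_setInt H (1 * 1 * C2) R2 ?_ ?_ ?_
    · filter_upwards [self_mem_nhdsWithin] with δ hδ
      exact (((lb_ind M k).mul ((LB.const 1).sub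
        (LB.of_continuous (stop_ll hM k hδ).continuous))).mul Lw).meas
    · filter_upwards [self_mem_nhdsWithin] with δ hδ z
      exact ⟨abs_mul_le (abs_mul_le (abs_le_one_of_mem (ind_mem M k z))
        (abs_sub_le_one_of_mem (by simp) (stop_mem M k hδ z))) (h2 z).1,
        fun hz => by rw [(h2 z).2 hz, mul_zero]⟩
    · filter_upwards [LL_ae_diff hM.ll] with z hz
      by_cases h : k < D ex M z
      · refine tendsto_const_nhds.congr' ?_
        filter_upwards [stop_tendsto_one hz h] with δ hδ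
        simp [hδ]
      · simp [ind, h]
  simp only [integral_zero] at J1 J2
  refine tendsto_zero_of_mul 4 fun η hη => ?_
  obtain ⟨δ, ⟨j1, j2⟩, hδ⟩ := (((J1.eventually (gt_mem_nhds hη)).and
    (J2.eventually (gt_mem_nhds hη))).and self_mem_nhdsWithin).exists
  have hs := stop_ll hM k hδ
  have Ls := LB.of_continuous hs.continuous
  set φ : Pl → ℝ := fun y => stop M k δ y * cut S y with hφdef
  have hφ : LocallyLipschitz φ := LL_mul hs hc
  have hv : Van φ := (van_cut S).mul_left _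
  have Lφ := LB.of_continuous hφ.continuous
  have T1 := hF.W_strong (LB.D hφ ex) (hv.D ex)
  obtain ⟨K, hK⟩ := LL_lip_of_van hφ hv
  obtain ⟨R, hR⟩ := id hv
  have T2 : Tendsto (fun ε => ∫ z in H, |D ex φ z - (φ z - φ (z - ε • ex)) / ε|) (𝓝[>] 0)
      (𝓝 (∫ z in H, |D ex φ z - D ex φ z|)) := by
    have hR' : ∀ z : Pl, R < ‖z - 0‖ → φ z = 0 := by simpa using hR
    refine tendsto_setInt H (K + K) (R + 1) (Eventually.of_forall fun ε => ?_) ?_ ?_
    · exact ((LB.D hφ ex).sub ((Lφ.sub (Lφ.shift_sub _)).div_const ε)).abs.meas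
    · filter_upwards [Ioc_mem_nhdsGT zero_lt_one] with ε hε z
      refine ⟨?_, fun hz => ?_⟩
      · rw [abs_abs]
        refine (abs_sub _ _).trans (add_le_add ?_ (abs_back_quot_le hK hε.1 z))
        simpa using abs_D_le_of_lip hK ex z
      · have hz' : R + 1 < ‖z - 0‖ := by simpa using hz
        rw [D_eq_zero_far hR' ex z (by linarith), hR' z (by linarith),
          hR' _ (far_shift hε.1 hε.2 hz')]
        simp
    · filter_upwards [LL_ae_diff hφ] with z hz
      exact (tendsto_const_nhds.sub (tendsto_quot_neg ex hz)).abs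
  simp only [sub_self, abs_zero, integral_zero] at T2
  filter_upwards [self_mem_nhdsWithin, T1.eventually (gt_mem_nhds hη),
    T2.eventually (gt_mem_nhds hη)] with ε hε t1 t2
  have hP := (hF.nl ε hε).toPot
  have Lβ := (hP.lbD ex).comp cβ
  have key := hF.main_ineq hk S hδ hε
  have i1 : IntegrableOn (fun z => max (k - D ex (U ε) z) 0 * (stop M k δ z * wt S z)) H :=
    (Lβ.mul (Ls.mul Lw)).integrableOn (((van_wt S).mul_left _).mul_left _) H
  have i2 : IntegrableOn (fun z => ind M k z * (1 - stop M k δ z) * wt S z) H :=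
    (((lb_ind M k).mul ((LB.const 1).sub Ls)).mul Lw).integrableOn ((van_wt S).mul_left _) H
  have a : ∫ z in H, max (k - D ex (U ε) z) 0 * ind M k z * wt S z
      ≤ ∫ z in H, (max (k - D ex (U ε) z) 0 * (stop M k δ z * wt S z)
          + ind M k z * (1 - stop M k δ z) * wt S z) := by
    refine integral_mono (((Lβ.mul (lb_ind M k)).mul Lw).integrableOn ((van_wt S).mul_left _) H)
      (i1.add i2) fun z => ?_
    have b0 := (abs_le.1 (abs_posPart_le hk (hP.Dx_mem z))).2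
    have b1 : 0 ≤ max (k - D ex (U ε) z) 0 := le_max_right _ _
    have b2 := stop_mem M k hδ z
    have b3 := wt_nonneg S z
    simp only [ind]
    split_ifs
    · have := mul_nonneg (mul_nonneg (sub_nonneg.2 b0) (sub_nonneg.2 b2.2)) b3
      nlinarith
    · have := mul_nonneg b1 (mul_nonneg b2.1 b3)
      simpa using this
  rw [integral_add i1 i2] at a
  rw [abs_of_nonneg (integral_nonneg fun z => mul_nonneg (mul_nonneg (le_max_right _ _)
    (ind_mem M k z).1) (wt_nonneg S z))]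
  linarith

lemma posPart_le_sum {m u : ℝ} (hm : m ∈ Icc (0 : ℝ) 1) (hu : u ∈ Icc (0 : ℝ) 1) {N : ℕ}
    (hN : 0 < N) : max (m - u) 0 ≤ 1 / N + ∑ i ∈ Finset.range N,
      max ((i : ℝ) / N - u) 0 * (if (i : ℝ) / N < m then 1 else 0) := by
  have hN' : (0 : ℝ) < N := by exact_mod_cast hN
  have hnn : ∀ i ∈ Finset.range N,
      0 ≤ max ((i : ℝ) / N - u) 0 * (if (i : ℝ) / N < m then (1 : ℝ) else 0) := fun i _ =>
    mul_nonneg (le_max_right _ _) (by split_ifs <;> simp)
  rcases eq_or_lt_of_le hm.1 with h0 | h0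
  · rw [max_eq_right (by linarith [hu.1])]
    exact add_nonneg (by positivity) (Finset.sum_nonneg hnn)
  · have h1 : 0 < ⌈m * N⌉₊ := Nat.ceil_pos.2 (by positivity)
    obtain ⟨i, hi⟩ : ∃ i, ⌈m * N⌉₊ = i + 1 := ⟨_, (Nat.succ_pred_eq_of_pos h1).symm⟩
    have h2 : m * N ≤ i + 1 := by
      have := Nat.le_ceil (m * N)
      rw [hi] at this; exact_mod_cast this
    have h3 : (i : ℝ) < m * N := Nat.lt_ceil.1 (by omega)
    have h4 : i < N := by
      have : (i : ℝ) < N := by nlinarith [hm.2]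
      exact_mod_cast this
    have h5 := Finset.single_le_sum hnn (Finset.mem_range.2 h4)
    have h6 : (i : ℝ) / N < m := by rwa [div_lt_iff₀ hN']
    simp only [h6, if_true, mul_one] at h5
    have h7 : m ≤ 1 / N + i / N := by
      rw [← add_div, le_div_iff₀ hN']; linarith
    have h8 : (0 : ℝ) < 1 / N := by positivity
    refine max_le ?_ ?_
    · linarith [le_max_left ((i : ℝ) / N - u) 0]
    · linarith [le_max_right ((i : ℝ) / N - u) 0]

lemma Fam.posPart (hF : Fam U M) (S : ℝ) :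
    Tendsto (fun ε => ∫ z in H, max (D ex M z - D ex (U ε) z) 0 * wt S z) (𝓝[>] 0) (𝓝 0) := by
  have hM := hF.loc.toPot
  have Lw := LB.of_continuous (wt_ll S).continuous
  refine tendsto_zero_of_mul ((∫ z in H, wt S z) + 1) fun η hη => ?_
  obtain ⟨n, hn⟩ := exists_nat_one_div_lt hη
  set N := n + 1 with hN
  have hN0 : 0 < N := Nat.succ_pos n
  have hN' : (0 : ℝ) < N := by exact_mod_cast hN0
  have hn' : 1 / (N : ℝ) ≤ η := by rw [hN]; push_cast; exact hn.le
  have hk : ∀ i ∈ Finset.range N, (i : ℝ) / N ∈ Icc (0 : ℝ) 1 := fun i hi =>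
    ⟨by positivity, (div_le_one hN').2 (by exact_mod_cast (Finset.mem_range.1 hi).le)⟩
  have T := tendsto_finsetSum (Finset.range N) (fun i hi => hF.level (hk i hi) S)
  simp only [Finset.sum_const_zero] at T
  filter_upwards [self_mem_nhdsWithin, T.eventually (gt_mem_nhds hη)] with ε hε t
  have hP := (hF.nl ε hε).toPot
  have Lu := hP.lbD ex
  have i1 : ∀ i ∈ Finset.range N, IntegrableOn
      (fun z => max ((i : ℝ) / N - D ex (U ε) z) 0 * ind M (i / N) z * wt S z) H := fun i _ =>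
    (((Lu.comp (b := fun s => max ((i : ℝ) / N - s) 0) (by fun_prop)).mul (lb_ind M _)).mul
      Lw).integrableOn ((van_wt S).mul_left _) H
  have i2 : IntegrableOn (fun z => η * wt S z) H :=
    (Lw.const_mul η).integrableOn ((van_wt S).mul_left _) H
  have i3 := integrable_finsetSum _ i1
  rw [← integral_finsetSum _ i1] at t
  rw [abs_of_nonneg (integral_nonneg fun z => mul_nonneg (le_max_right _ _) (wt_nonneg S z))]
  have a : ∫ z in H, max (D ex M z - D ex (U ε) z) 0 * wt S z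
      ≤ ∫ z in H, (η * wt S z + ∑ i ∈ Finset.range N,
        max ((i : ℝ) / N - D ex (U ε) z) 0 * ind M (i / N) z * wt S z) := by
    refine integral_mono (((((hM.lbD ex).sub Lu).comp (b := fun s => max s 0) (by fun_prop)).mul
      Lw).integrableOn ((van_wt S).mul_left _) H) (i2.add i3) fun z => ?_
    have := mul_le_mul_of_nonneg_right
      ((posPart_le_sum (hM.Dx_mem z) (hP.Dx_mem z) hN0).trans (add_le_add hn' le_rfl))
      (wt_nonneg S z)
    rw [add_mul, Finset.sum_mul] at this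
    exact this
  rw [integral_add i2 i3, integral_const_mul] at a
  linarith

/-- Strong convergence of the nonlocal densities, with a weight. -/
theorem Fam.strong (hF : Fam U M) (S : ℝ) :
    Tendsto (fun ε => ∫ z in H, wt S z * |D ex (U ε) z - D ex M z|) (𝓝[>] 0) (𝓝 0) := by
  have h := ((hF.posPart S).const_mul 2).add (hF.weak_x (wt_ll S) (van_wt S))
  simp only [mul_zero, add_zero] at h
  refine h.congr' ?_
  filter_upwards [self_mem_nhdsWithin] with ε hε
  have hP := (hF.nl ε hε).toPot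
  have hM := hF.loc.toPot
  have Lw := LB.of_continuous (wt_ll S).continuous
  have i1 : IntegrableOn (fun z => 2 * (max (D ex M z - D ex (U ε) z) 0 * wt S z)) H :=
    (((((hM.lbD ex).sub (hP.lbD ex)).comp (b := fun s => max s 0) (by fun_prop)).mul
      Lw).const_mul 2).integrableOn (((van_wt S).mul_left _).mul_left _) H
  have i2 : IntegrableOn (fun z => wt S z * (D ex (U ε) z - D ex M z)) H :=
    (Lw.mul ((hP.lbD ex).sub (hM.lbD ex))).integrableOn ((van_wt S).mul_right _) H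
  rw [← integral_const_mul, ← integral_add i1 i2]
  congr 1; ext z
  rcases le_total (D ex (U ε) z) (D ex M z) with h | h
  · rw [max_eq_left (by linarith), abs_of_nonpos (by linarith)]; ring
  · rw [max_eq_right (by linarith), abs_of_nonneg (by linarith)]; ring

end Pool.Agent.MP_a93f81_an

end MrgPart5

-- ======== part 6: formerly Pool.Agent.MP_a93f81_an.Translate
section MrgPart6

/-!
From weak formulations with an initial datum to potentials.
-/

set_option autoImplicit false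

open MeasureTheory Filter Topology Set Metric
open scoped ContDiff

namespace Pool.Agent.MP_a93f81_an

/-- Extension to negative times by the datum. -/
noncomputable def extd (e : Pl → ℝ) (e0 : ℝ → ℝ) (z : Pl) : ℝ := if 0 < z.1 then e z else e0 z.2

lemma extd_of_mem {e : Pl → ℝ} {e0 : ℝ → ℝ} {z : Pl} (h : z ∈ H) : extd e e0 z = e z :=
  if_pos h

lemma extd_of_notMem {e : Pl → ℝ} {e0 : ℝ → ℝ} {z : Pl} (h : z ∉ H) : extd e e0 z = e0 z.2 :=
  if_neg h

lemma measurable_extd {e : Pl → ℝ} {e0 : ℝ → ℝ} (he : Measurable e) (he0 : Measurable e0) :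
    Measurable (extd e e0) :=
  Measurable.ite measurableSet_H he (he0.comp measurable_snd)

lemma int_H_eq {f : Pl → ℝ} (hf : Integrable f) :
    ∫ z in H, f z = ∫ t in Ioi (0 : ℝ), ∫ x, f (t, x) := by
  have e : H = Ioi (0 : ℝ) ×ˢ (univ : Set ℝ) := by ext z; simp [H]
  rw [e, Measure.volume_eq_prod, setIntegral_prod f hf.integrableOn]
  simp

lemma hasDerivAt_t {Φ : Pl → ℝ} {t x : ℝ} (h : DifferentiableAt ℝ Φ (t, x)) :
    HasDerivAt (fun s => Φ (s, x)) (D et Φ (t, x)) t := by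
  have h1 : HasDerivAt (fun s : ℝ => ((s, x) : Pl)) et t :=
    (hasDerivAt_id t).prodMk (hasDerivAt_const t x)
  exact h.hasFDerivAt.comp_hasDerivAt t h1

lemma hasDerivAt_x {Φ : Pl → ℝ} {t x : ℝ} (h : DifferentiableAt ℝ Φ (t, x)) :
    HasDerivAt (fun y => Φ (t, y)) (D ex Φ (t, x)) x := by
  have h1 : HasDerivAt (fun y : ℝ => ((t, y) : Pl)) ex x :=
    (hasDerivAt_const x t).prodMk (hasDerivAt_id x)
  exact h.hasFDerivAt.comp_hasDerivAt x h1

lemma int_Hc_eq {e0 : ℝ → ℝ} (he0 : LB (fun z => e0 z.2)) {Φ : Pl → ℝ} (hΦ : ContDiff ℝ 1 Φ)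
    (hv : Van Φ) : ∫ z in Hᶜ, e0 z.2 * D et Φ z = ∫ x, e0 x * Φ (0, x) := by
  have e : Hᶜ = Iic (0 : ℝ) ×ˢ (univ : Set ℝ) := by ext z; simp [H]
  have hi : Integrable (fun z : Pl => e0 z.2 * D et Φ z) :=
    (he0.mul (LB.D (LL_of_contDiff hΦ) et)).integrable ((hv.D et).mul_left _)
  rw [e, Measure.volume_eq_prod, ← Measure.restrict_prod_eq_prod_univ, integral_prod_symm]
  · congr 1; ext x
    simp only
    rw [integral_const_mul]
    congr 1
    obtain ⟨R, hR⟩ := hv
    have h1 : HasCompactSupport (fun s => Φ (s, x)) := by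
      refine HasCompactSupport.intro (isCompact_closedBall (0 : ℝ) R) fun s hs => hR _ ?_
      have : R < ‖s‖ := by simpa using hs
      exact this.trans_le (norm_fst_le ((s, x) : Pl))
    have h2 : ContDiff ℝ 1 (fun s => Φ (s, x)) := hΦ.comp (contDiff_id.prodMk contDiff_const)
    rw [← h1.integral_Iic_deriv_eq h2 0]
    congr 1; ext s
    exact (hasDerivAt_t (hΦ.differentiable (by simp) _)).deriv.symm
  · rw [Measure.restrict_prod_eq_prod_univ]
    exact hi.integrableOn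

lemma weak_plane {e f : Pl → ℝ} {e0 : ℝ → ℝ} (he : LB e) (hf : LB f) (he0 : LB (fun z => e0 z.2))
    {Φ : Pl → ℝ} (hΦ : ContDiff ℝ 1 Φ) (hv : Van Φ) :
    (∫ t in Ioi (0 : ℝ), ∫ x : ℝ, (e (t, x) * deriv (fun s => Φ (s, x)) t
        + f (t, x) * deriv (fun y => Φ (t, y)) x)) + ∫ x : ℝ, e0 x * Φ (0, x)
      = (∫ z in H, (e z * D et Φ z + f z * D ex Φ z)) + ∫ z in Hᶜ, e0 z.2 * D et Φ z := by
  have hL := LL_of_contDiff hΦ
  have hd := hΦ.differentiable (by simp)
  rw [int_Hc_eq he0 hΦ hv, int_H_eq (((he.mul (LB.D hL et)).add (hf.mul (LB.D hL ex))).integrable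
    (((hv.D et).mul_left _).add ((hv.D ex).mul_left _)))]
  simp only [(hasDerivAt_t (hd _)).deriv, (hasDerivAt_x (hd _)).deriv]

lemma split_plane {e f : Pl → ℝ} {e0 : ℝ → ℝ} (he : LB (extd e e0)) (hf : LB f)
    {Φ : Pl → ℝ} (hΦ : LocallyLipschitz Φ) (hv : Van Φ) :
    ∫ z, (extd e e0 z * D et Φ z + H.indicator f z * D ex Φ z)
      = (∫ z in H, (e z * D et Φ z + f z * D ex Φ z)) + ∫ z in Hᶜ, e0 z.2 * D et Φ z := by
  rw [← integral_add_compl measurableSet_H (((he.mul (LB.D hΦ et)).add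
    ((hf.indicator measurableSet_H).mul (LB.D hΦ ex))).integrable
    (((hv.D et).mul_left _).add ((hv.D ex).mul_left _)))]
  congr 1
  · refine setIntegral_congr_fun measurableSet_H fun z hz => ?_
    simp only [extd_of_mem hz, indicator_of_mem hz]
  · refine setIntegral_congr_fun measurableSet_H.compl fun z hz => ?_
    simp only [extd_of_notMem hz, indicator_of_notMem hz, zero_mul, add_zero]

lemma const_of_D_zero {F : Pl → ℝ} {K : NNReal} (hF : LipschitzWith K F) {z v : Pl}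
    (hz : z.1 < 0) (hzv : (z + v).1 < 0) (h : ∀ᵐ y : Pl, y.1 < 0 → D v F y = 0) :
    F (z + v) = F z := by
  have hO : IsOpen {y : Pl | y.1 < 0} := isOpen_lt continuous_fst continuous_const
  have hseg : ∀ σ ∈ Icc (0 : ℝ) 1, z + σ • v ∈ {y : Pl | y.1 < 0} := by
    intro σ hσ
    simp only [mem_ofPred_eq, Prod.fst_add, Prod.smul_fst, smul_eq_mul] at hzv ⊢
    rcases le_total v.1 0 with h1 | h1
    · nlinarith [mul_nonneg hσ.1 (neg_nonneg.2 h1)]
    · nlinarith [mul_nonneg (sub_nonneg.2 hσ.2) h1]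
  have h1 := line_ge (c := 0) hF hO zero_le_one hseg (h.mono fun y hy h1 => (hy h1).ge)
  have h2 := line_le (c := 0) hF hO zero_le_one hseg (h.mono fun y hy h1 => (hy h1).le)
  simp only [one_smul] at h1 h2
  linarith

/-- The potential attached to a weak solution with datum. -/
lemma exists_pot {ρ q : Pl → ℝ} {ρ0 : ℝ → ℝ} (hρ : Measurable ρ) (hq : Measurable q)
    (hρ0 : Measurable ρ0) (hρb : ∀ z, ρ z ∈ Icc (0 : ℝ) 1) (hqb : ∀ z, |q z| ≤ 1)
    (hρ0b : ∀ x, ρ0 x ∈ Icc (0 : ℝ) 1)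
    (hw : ∀ φ : Pl → ℝ, ContDiff ℝ ∞ φ → Van φ →
      ∫ z, (extd ρ ρ0 z * D et φ z + H.indicator q z * D ex φ z) = 0) :
    ∃ P : Pl → ℝ, Pot P ∧ P 0 = 0 ∧ (∀ᵐ z, D ex P z = extd ρ ρ0 z) ∧
      (∀ᵐ z, z ∈ H → D et P z = - q z) := by
  have hb : ∀ z, extd ρ ρ0 z ∈ Icc (0 : ℝ) 1 := fun z => by
    unfold extd; split_ifs; exacts [hρb z, hρ0b _]
  obtain ⟨P, hP, hP0, hx, ht⟩ := exists_potential (measurable_extd hρ hρ0)
    (hq.indicator measurableSet_H) (fun z => abs_le_one_of_mem (hb z))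
    (fun z => by by_cases h : z ∈ H <;> simp [h, hqb z]) hw
  refine ⟨P, ⟨hP, fun z s hs => ⟨?_, ?_⟩, fun z hz => ?_⟩, hP0, hx, ?_⟩
  · simpa using line_ge (c := 0) (v := ex) (z := z) hP isOpen_univ hs (fun _ _ => mem_univ _)
      (hx.mono fun y hy _ => by rw [hy]; exact (hb y).1)
  · simpa using line_le (c := 1) (v := ex) (z := z) hP isOpen_univ hs (fun _ _ => mem_univ _)
      (hx.mono fun y hy _ => by rw [hy]; exact (hb y).2)
  · have key : ∀ r : ℝ, 0 < r → P (z - r • et + (-z.1, 0)) - P (z - r • et) = 0 := by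
      intro r hr
      rw [const_of_D_zero hP (by simp; linarith) (by simp; linarith), sub_self]
      filter_upwards [ht] with y hy h1
      rw [D_dir, hy, indicator_of_notMem (show y ∉ H from not_lt.2 h1.le)]
      simp
    have hc : Continuous (fun r : ℝ => P (z - r • et + (-z.1, 0)) - P (z - r • et)) := by
      have := hP.continuous
      fun_prop
    have h1 := tendsto_nhdsWithin_of_tendsto_nhds (s := Ioi (0 : ℝ)) (hc.tendsto 0)
    have h2 := tendsto_nhds_unique h1 (tendsto_const_nhds.congr' (by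
      filter_upwards [self_mem_nhdsWithin] with r hr using (key r hr).symm))
    simp only [zero_smul, sub_zero] at h2
    have e : z + (-z.1, 0) = (0, z.2) := by ext <;> simp
    rw [e] at h2
    linarith
  · filter_upwards [ht] with z hz h1
    rw [hz, indicator_of_mem h1]

lemma init_eq {P Q : Pl → ℝ} {ρ ρ' : Pl → ℝ} {ρ0 : ℝ → ℝ} (hP : Pot P) (hQ : Pot Q)
    (hP0 : P 0 = 0) (hQ0 : Q 0 = 0) (h1 : ∀ᵐ z, D ex P z = extd ρ ρ0 z)
    (h2 : ∀ᵐ z, D ex Q z = extd ρ' ρ0 z) (x : ℝ) : P (0, x) = Q (0, x) := by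
  have key := const_of_D_zero (hP.lip.sub hQ.lip) (z := (-1, 0)) (v := (0, x)) (by simp) (by simp)
    (by
      filter_upwards [h1, h2, LL_ae_diff hP.ll, LL_ae_diff hQ.ll] with y a1 a2 a3 a4 hy
      have hy' : y ∉ H := not_lt.2 hy.le
      rw [D_dir, D_sub ex a3 a4, a1, a2, extd_of_notMem hy', extd_of_notMem hy']
      simp)
  have e1 := hP.neg ((-1, 0) + (0, x)) (by simp)
  have e2 := hQ.neg ((-1, 0) + (0, x)) (by simp)
  have e3 := hP.neg (-1, 0) (by simp)
  have e4 := hQ.neg (-1, 0) (by simp)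
  simp only [Prod.snd_add, zero_add] at e1 e2 e3 e4
  rw [e1, e2, e3, e4, show ((0, 0) : Pl) = 0 from rfl, hP0, hQ0] at key
  linarith

lemma quot_eq_avg {P : Pl → ℝ} {ρ : Pl → ℝ} {ρ0 : ℝ → ℝ} (hP : Pot P)
    (h1 : ∀ᵐ z, D ex P z = extd ρ ρ0 z) (ε : ℝ) :
    ∀ᵐ z, z ∈ H → quot P ε z = (1 / ε) * ∫ y in z.2..(z.2 + ε), ρ (z.1, y) := by
  have h2 : ∀ᵐ z : Pl ∂(volume.prod volume), DifferentiableAt ℝ P z ∧ D ex P z = extd ρ ρ0 z :=
    (LL_ae_diff hP.ll).and h1
  have h3 := Measure.ae_ae_of_ae_prod h2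
  have h4 : ∀ᵐ z : Pl ∂(volume.prod volume), ∀ᵐ y : ℝ,
      DifferentiableAt ℝ P (z.1, y) ∧ D ex P (z.1, y) = extd ρ ρ0 (z.1, y) :=
    Measure.quasiMeasurePreserving_fst.ae h3
  filter_upwards [h4] with z hz hH
  have hl : LipschitzWith (2 * 1) (fun y => P (z.1, y)) :=
    hP.lip.comp (LipschitzWith.prodMk_left z.1)
  have h5 := (hl.lipschitzOnWith (s := uIcc z.2 (z.2 + ε))).absolutelyContinuousOnInterval
    |>.integral_deriv_eq_sub
  have h6 : ∫ y in z.2..(z.2 + ε), deriv (fun y => P (z.1, y)) y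
      = ∫ y in z.2..(z.2 + ε), ρ (z.1, y) := by
    refine intervalIntegral.integral_congr_ae ?_
    filter_upwards [hz] with y hy _
    rw [(hasDerivAt_x hy.1).deriv, hy.2, extd_of_mem (show (z.1, y) ∈ H from hH)]
  rw [← h6, h5, quot]
  have e : z + ε • ex = (z.1, z.2 + ε) := by ext <;> simp
  rw [e]
  ring

lemma measurable_window {ρ : Pl → ℝ} (hρ : Measurable ρ) {ε : ℝ} (hε : 0 < ε) :
    Measurable (fun z : Pl => ∫ y in z.2..(z.2 + ε), ρ (z.1, y)) := by
  have e : (fun z : Pl => ∫ y in z.2..(z.2 + ε), ρ (z.1, y))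
      = fun z : Pl => ∫ s in Ioc 0 ε, ρ (z.1, z.2 + s) := by
    ext z
    rw [← intervalIntegral.integral_of_le hε.le,
      intervalIntegral.integral_comp_add_left (fun y => ρ (z.1, y)) z.2, add_zero]
  rw [e]
  have h : Measurable (fun p : Pl × ℝ => ρ (p.1.1, p.1.2 + p.2)) := hρ.comp (by fun_prop)
  exact (h.stronglyMeasurable.integral_prod_right' (ν := volume.restrict (Ioc 0 ε))).measurable

lemma window_mem {ρ : Pl → ℝ} (hb : ∀ z, ρ z ∈ Icc (0 : ℝ) 1) {ε : ℝ} (hε : 0 < ε) (z : Pl) :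
    (1 / ε) * ∫ y in z.2..(z.2 + ε), ρ (z.1, y) ∈ Icc (0 : ℝ) 1 := by
  have h0 : 0 ≤ ∫ y in z.2..(z.2 + ε), ρ (z.1, y) :=
    intervalIntegral.integral_nonneg (by linarith) fun y _ => (hb _).1
  have h1 := intervalIntegral.norm_integral_le_of_norm_le_const (a := z.2) (b := z.2 + ε)
    (f := fun y => ρ (z.1, y)) (C := 1) (fun y _ => abs_le_one_of_mem (hb _))
  rw [Real.norm_eq_abs, abs_of_nonneg h0, add_sub_cancel_left, abs_of_pos hε, one_mul] at h1
  refine ⟨by positivity, ?_⟩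
  rw [one_div, inv_mul_le_iff₀ hε, mul_one]
  exact h1

lemma lb_snd {e0 : ℝ → ℝ} (h : Measurable e0) (C : ℝ) (hb : ∀ x, |e0 x| ≤ C) :
    LB (fun z : Pl => e0 z.2) := LB.of_bdd (h.comp measurable_snd) C fun _ => hb _

theorem exists_NL {ub : ℝ → ℝ} (hub : Measurable ub) (hub' : ∀ x, ub x ∈ Icc (0 : ℝ) 1)
    {u : Pl → ℝ} (hu : Measurable u) (hu' : ∀ z, u z ∈ Icc (0 : ℝ) 1) {ε : ℝ} (hε : 0 < ε)
    (hw : ∀ Φ : Pl → ℝ, ContDiff ℝ ∞ Φ → HasCompactSupport Φ →
      (∫ t in Ioi (0 : ℝ), ∫ x : ℝ, (u (t, x) * deriv (fun s => Φ (s, x)) t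
        + u (t, x) * (1 - (1 / ε) * ∫ y in x..(x + ε), u (t, y)) * deriv (fun y => Φ (t, y)) x))
        + ∫ x : ℝ, ub x * Φ (0, x) = 0) :
    ∃ U, NL ε U ∧ U 0 = 0 ∧ ∀ᵐ z, D ex U z = extd u ub z := by
  set q : Pl → ℝ := fun z => u z * (1 - (1 / ε) * ∫ y in z.2..(z.2 + ε), u (z.1, y)) with hq
  have hqm : Measurable q :=
    hu.mul (measurable_const.sub ((measurable_window hu hε).const_mul _))
  have hqb : ∀ z, |q z| ≤ 1 := fun z =>
    (abs_mul_le (abs_le_one_of_mem (hu' z))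
      (abs_sub_le_one_of_mem (a := 1) (by simp) (window_mem hu' hε z))).trans (by simp)
  have Lu := LB.of_bdd hu 1 fun z => abs_le_one_of_mem (hu' z)
  have Lq := LB.of_bdd hqm 1 hqb
  have L0 := lb_snd hub 1 fun x => abs_le_one_of_mem (hub' x)
  have Le : LB (extd u ub) := LB.of_bdd (measurable_extd hu hub) 1 fun z => by
    unfold extd; split_ifs; exacts [abs_le_one_of_mem (hu' z), abs_le_one_of_mem (hub' _)]
  obtain ⟨P, hP, hP0, hx, ht⟩ := exists_pot hu hqm hub hu' hqb hub' (fun φ hφ hv => by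
    have h1 : ContDiff ℝ 1 φ := hφ.of_le (by simp)
    rw [split_plane Le Lq (LL_of_contDiff h1) hv, ← weak_plane Lu Lq L0 h1 hv]
    exact hw φ hφ hv.hasCompactSupport)
  refine ⟨P, ⟨hP, ?_⟩, hP0, hx⟩
  filter_upwards [hx, ht, quot_eq_avg hP hx ε] with z h1 h2 h3 hz
  rw [h2 hz, h1, h3 hz, extd_of_mem hz, hq]
  ring

lemma moll_far {κ f : Pl → ℝ} {r R : ℝ} (hκ : Kern κ r) (hr : r ≤ 1)
    (hR : ∀ z, R < ‖z‖ → f z = 0) (z : Pl) (hz : R + 1 < ‖z‖) : moll κ f z = 0 := by
  rw [moll_congr (G := fun _ => 0) hκ z, moll_const hκ]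
  refine Eventually.of_forall fun y hy => hR y ?_
  have := norm_add_le (z - y) y
  rw [sub_add_cancel] at this
  linarith

lemma weak_lip {E F : Pl → ℝ} (hE : LB E) (hF : LB F)
    (h : ∀ Φ : Pl → ℝ, ContDiff ℝ ∞ Φ → Van Φ → (∀ z, 0 ≤ Φ z) →
      0 ≤ ∫ z, (E z * D et Φ z + F z * D ex Φ z))
    {φ : Pl → ℝ} (hφ : LocallyLipschitz φ) (hv : Van φ) (hpos : ∀ z, 0 ≤ φ z) :
    0 ≤ ∫ z, (E z * D et φ z + F z * D ex φ z) := by
  have Lφ := LB.of_continuous hφ.continuous
  have hr : ∀ n : ℕ, 1 / ((n : ℝ) + 1) ≤ 1 := fun n => by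
    rw [div_le_one (by positivity)]; linarith [n.cast_nonneg (α := ℝ)]
  have key : ∀ (G : Pl → ℝ) (v : Pl), LB G →
      Tendsto (fun n => ∫ z, G z * moll (kn n) (D v φ) z) atTop (𝓝 (∫ z, G z * D v φ z)) := by
    intro G v hG
    obtain ⟨C, R, hC, h0⟩ := (LB.D hφ v).bound (hv.D v)
    obtain ⟨B, hB⟩ := hG.bdd (R + 1)
    refine tendsto_int (max B 0 * C) (R + 1) (Eventually.of_forall fun n => ?_)
      (Eventually.of_forall fun n z => ?_) ?_
    · exact hG.meas.mul (moll_contDiff (kern_kn n).smooth (kern_kn n).van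
        (LB.D hφ v)).continuous.measurable
    · have h1 : R + 1 < ‖z‖ → G z * moll (kn n) (D v φ) z = 0 := fun hz => by
        rw [moll_far (kern_kn n) (hr n) (fun y => (h0 y).2) z hz, mul_zero]
      refine ⟨?_, h1⟩
      by_cases hz : R + 1 < ‖z‖
      · rw [h1 hz, abs_zero]; positivity
      · exact abs_mul_le ((hB z (not_lt.1 hz)).trans (le_max_left _ _))
          (moll_abs_le (kern_kn n) (LB.D hφ v) z (Eventually.of_forall fun y _ => (h0 y).1))
    · filter_upwards [ae_tendsto_moll (LB.D hφ v)] with z hz using hz.const_mul _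
  rw [integral_add ((hE.mul (LB.D hφ et)).integrable ((hv.D et).mul_left _))
    ((hF.mul (LB.D hφ ex)).integrable ((hv.D ex).mul_left _))]
  refine ge_of_tendsto' ((key E et hE).add (key F ex hF)) fun n => ?_
  have hk := kern_kn n
  have hs := moll_contDiff hk.smooth hk.van Lφ
  have hL := LL_of_contDiff (hs.of_le (by simp))
  obtain ⟨R, hR⟩ := id hv
  have hv' : Van (moll (kn n) φ) := ⟨R + 1, moll_far hk (hr n) hR⟩
  have := h _ hs hv' fun z => moll_ge hk Lφ z (Eventually.of_forall fun y _ => hpos y)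
  rw [integral_add ((hE.mul (LB.D hL et)).integrable ((hv'.D et).mul_left _))
    ((hF.mul (LB.D hL ex)).integrable ((hv'.D ex).mul_left _))] at this
  simpa only [D_moll_lip hk.smooth hk.van hφ] using this

lemma weak_of_nonneg {E F : Pl → ℝ} (hE : LB E) (hF : LB F)
    (h : ∀ Φ : Pl → ℝ, ContDiff ℝ ∞ Φ → Van Φ → (∀ z, 0 ≤ Φ z) →
      ∫ z, (E z * D et Φ z + F z * D ex Φ z) = 0)
    {φ : Pl → ℝ} (hφ : ContDiff ℝ ∞ φ) (hv : Van φ) :
    ∫ z, (E z * D et φ z + F z * D ex φ z) = 0 := by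
  obtain ⟨C, R, hC, h0⟩ := (LB.of_continuous hφ.continuous).bound hv
  let b : ContDiffBump (0 : Pl) := ⟨max R 0 + 1, max R 0 + 2, by positivity, by linarith⟩
  have hb : ContDiff ℝ ∞ (fun z => C * b z) := contDiff_const.mul b.contDiff
  have hbv : Van (fun z => C * b z) := (Van.of_hasCompactSupport b.hasCompactSupport).mul_left _
  have h1 := h _ hb hbv fun z => mul_nonneg hC b.nonneg
  have h2 := h (fun z => φ z + C * b z) (hφ.add hb) (hv.add hbv) fun z => by
    by_cases hz : R < ‖z‖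
    · rw [(h0 z).2 hz, zero_add]; exact mul_nonneg hC b.nonneg
    · rw [b.one_of_mem_closedBall (by
        simp only [mem_closedBall, dist_zero_right, b]; linarith [le_max_left R 0, not_lt.1 hz])]
      linarith [(abs_le.1 (h0 z).1).1]
  have hφL := LL_of_contDiff (hφ.of_le (by simp))
  have hbL := LL_of_contDiff (hb.of_le (by simp))
  have e : ∫ z, (E z * D et (fun z => φ z + C * b z) z + F z * D ex (fun z => φ z + C * b z) z)
      = ∫ z, ((E z * D et φ z + F z * D ex φ z)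
        + (E z * D et (fun z => C * b z) z + F z * D ex (fun z => C * b z) z)) := by
    congr 1; ext z
    rw [D_add et (hφ.differentiable (by simp) z) (hb.differentiable (by simp) z),
      D_add ex (hφ.differentiable (by simp) z) (hb.differentiable (by simp) z)]
    ring
  rw [e, integral_add (((hE.mul (LB.D hφL et)).add (hF.mul (LB.D hφL ex))).integrable
      (((hv.D et).mul_left _).add ((hv.D ex).mul_left _)))
    (((hE.mul (LB.D hbL et)).add (hF.mul (LB.D hbL ex))).integrable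
      (((hbv.D et).mul_left _).add ((hbv.D ex).mul_left _))), h1, add_zero] at h2
  exact h2

lemma sign_mul_flux (a k : ℝ) :
    Real.sign (a - k) * (a * (1 - a) - k * (1 - k)) = |a - k| * (1 - a - k) := by
  rcases lt_trichotomy (a - k) 0 with h | h | h
  · rw [Real.sign_of_neg h, abs_of_neg h]; ring
  · rw [h, Real.sign_zero, abs_zero]; ring
  · rw [Real.sign_of_pos h, abs_of_pos h]; ring

theorem exists_Loc {ub : ℝ → ℝ} (hub : Measurable ub) (hub' : ∀ x, ub x ∈ Icc (0 : ℝ) 1)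
    {w : Pl → ℝ} (hw : Measurable w) (hw' : ∀ z, w z ∈ Icc (0 : ℝ) 1)
    (hk : ∀ (k : ℝ) (Φ : Pl → ℝ), ContDiff ℝ ∞ Φ → HasCompactSupport Φ → (∀ z, 0 ≤ Φ z) →
      0 ≤ (∫ t in Ioi (0 : ℝ), ∫ x : ℝ, (|w (t, x) - k| * deriv (fun s => Φ (s, x)) t
        + Real.sign (w (t, x) - k) * (w (t, x) * (1 - w (t, x)) - k * (1 - k))
          * deriv (fun y => Φ (t, y)) x))
        + ∫ x : ℝ, |ub x - k| * Φ (0, x)) :
    ∃ M, Loc M ∧ M 0 = 0 ∧ ∀ᵐ z, D ex M z = extd w ub z := by
  have Lw := LB.of_bdd hw 1 fun z => abs_le_one_of_mem (hw' z)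
  have L0 := lb_snd hub 1 fun x => abs_le_one_of_mem (hub' x)
  have hb : ∀ z, extd w ub z ∈ Icc (0 : ℝ) 1 := fun z => by
    unfold extd; split_ifs; exacts [hw' z, hub' _]
  have Le : LB (extd w ub) := LB.of_bdd (measurable_extd hw hub) 1 fun z =>
    abs_le_one_of_mem (hb z)
  have LE : ∀ k : ℝ, LB (fun z => |extd w ub z - k|) := fun k => (Le.sub (LB.const k)).abs
  have LF : ∀ k : ℝ, LB (fun z => |w z - k| * (1 - w z - k)) := fun k =>
    (Lw.sub (LB.const k)).abs.mul (((LB.const 1).sub Lw).sub (LB.const k))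
  have K1 : ∀ (k : ℝ) (Φ : Pl → ℝ), ContDiff ℝ ∞ Φ → Van Φ → (∀ z, 0 ≤ Φ z) →
      0 ≤ ∫ z, (|extd w ub z - k| * D et Φ z
        + H.indicator (fun z => |w z - k| * (1 - w z - k)) z * D ex Φ z) := by
    intro k Φ hΦ hv hpos
    have h1 : ContDiff ℝ 1 Φ := hΦ.of_le (by simp)
    have e : ∀ z, |extd w ub z - k| = extd (fun z => |w z - k|) (fun x => |ub x - k|) z := by
      intro z; unfold extd; split_ifs <;> rfl
    have := hk k Φ hΦ hv.hasCompactSupport hpos
    simp only [sign_mul_flux] at this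
    simp only [e]
    rw [split_plane (by simpa only [← funext e] using LE k) (LF k) (LL_of_contDiff h1) hv,
      ← weak_plane (e0 := fun x => |ub x - k|) (Lw.sub (LB.const k)).abs (LF k)
        (L0.sub (LB.const k)).abs h1 hv]
    exact this
  have Lq : LB (fun z => w z * (1 - w z)) := Lw.mul ((LB.const 1).sub Lw)
  have K2 : ∀ Φ : Pl → ℝ, ContDiff ℝ ∞ Φ → Van Φ → (∀ z, 0 ≤ Φ z) →
      ∫ z, (extd w ub z * D et Φ z + H.indicator (fun z => w z * (1 - w z)) z * D ex Φ z) = 0 := by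
    intro Φ hΦ hv hpos
    have hL := LL_of_contDiff (hΦ.of_le (by simp))
    have i0 : Integrable (fun z => extd w ub z * D et Φ z
        + H.indicator (fun z => w z * (1 - w z)) z * D ex Φ z) :=
      ((Le.mul (LB.D hL et)).add ((Lq.indicator measurableSet_H).mul (LB.D hL ex))).integrable
        (((hv.D et).mul_left _).add ((hv.D ex).mul_left _))
    have i1 : Integrable (D et Φ) := (LB.D hL et).integrable (hv.D et)
    have z1 := int_D_eq_zero hL hv et
    have a0 := K1 0 Φ hΦ hv hpos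
    have a1 := K1 1 Φ hΦ hv hpos
    have e0 : ∫ z, (|extd w ub z - 0| * D et Φ z
        + H.indicator (fun z => |w z - 0| * (1 - w z - 0)) z * D ex Φ z)
        = ∫ z, (extd w ub z * D et Φ z
          + H.indicator (fun z => w z * (1 - w z)) z * D ex Φ z) := by
      congr 1; ext z
      simp only [sub_zero, abs_of_nonneg (hb z).1, abs_of_nonneg (hw' _).1]
    have e1 : ∫ z, (|extd w ub z - 1| * D et Φ z
        + H.indicator (fun z => |w z - 1| * (1 - w z - 1)) z * D ex Φ z)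
        = ∫ z, (D et Φ z - (extd w ub z * D et Φ z
          + H.indicator (fun z => w z * (1 - w z)) z * D ex Φ z)) := by
      congr 1; ext z
      rw [abs_of_nonpos (sub_nonpos.2 (hb z).2)]
      by_cases hz : z ∈ H
      · rw [indicator_of_mem hz, indicator_of_mem hz, abs_of_nonpos (sub_nonpos.2 (hw' z).2)]
        ring
      · rw [indicator_of_notMem hz, indicator_of_notMem hz]; ring
    rw [e0] at a0
    rw [e1, integral_sub i1 i0, z1] at a1
    linarith
  obtain ⟨P, hP, hP0, hx, ht⟩ := exists_pot (q := fun z => w z * (1 - w z)) hw Lq.meas hub hw'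
    (fun z => by
      simpa using abs_mul_le (abs_le_one_of_mem (hw' z))
        (abs_sub_le_one_of_mem (a := 1) (by simp) (hw' z))) hub'
    (fun φ hφ hv => weak_of_nonneg Le (Lq.indicator measurableSet_H) K2 hφ hv)
  refine ⟨P, ⟨hP, ?_, fun k φ hφ hv hpos ⟨δ, hδ, hδ0⟩ => ?_⟩, hP0, hx⟩
  · filter_upwards [hx, ht] with z h1 h2 hz
    rw [h2 hz, h1, extd_of_mem hz]
    ring
  · have := weak_lip (LE k) ((LF k).indicator measurableSet_H) (K1 k) hφ hv hpos
    refine this.trans (le_of_eq (integral_congr_ae ?_))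
    filter_upwards [hx] with z h1
    by_cases hz : z ∈ H
    · rw [h1, indicator_of_mem hz, extd_of_mem hz]; ring
    · have : φ =ᶠ[𝓝 z] fun _ => 0 := by
        filter_upwards [(isOpen_lt continuous_fst continuous_const).mem_nhds
          (lt_of_le_of_lt (not_lt.1 hz) hδ)] with y hy using hδ0 y hy
      rw [D_congr et this, D_congr ex this, D_const, D_const]
      simp

lemma one_le_wt {T R : ℝ} (hR : 0 < R) {z : Pl} (h1 : z.1 ∈ Ioc 0 T) (h2 : z.2 ∈ Ioc (-R) R) :
    1 ≤ wt (2 * T + R + 2) z := by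
  have h3 : √(1 + z.2 ^ 2) ≤ 1 + R := by
    rw [Real.sqrt_le_iff]
    refine ⟨by positivity, ?_⟩
    nlinarith [h2.1, h2.2]
  have h4 : 1 ≤ carg (2 * T + R + 2) z := by
    rw [carg, max_eq_right (by linarith [h1.1])]
    linarith [h1.2]
  unfold wt
  linarith [le_max_left (carg (2 * T + R + 2) z) 0]

theorem main {ub : ℝ → ℝ} (hub : Measurable ub) (hub' : ∀ x, ub x ∈ Icc (0 : ℝ) 1)
    {u : ℝ → Pl → ℝ} (hu : ∀ ε, 0 < ε → Measurable (u ε))
    (hu' : ∀ ε, 0 < ε → ∀ z, u ε z ∈ Icc (0 : ℝ) 1)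
    (huw : ∀ ε, 0 < ε → ∀ Φ : Pl → ℝ, ContDiff ℝ ∞ Φ → HasCompactSupport Φ →
      (∫ t in Ioi (0 : ℝ), ∫ x : ℝ, (u ε (t, x) * deriv (fun s => Φ (s, x)) t
        + u ε (t, x) * (1 - (1 / ε) * ∫ y in x..(x + ε), u ε (t, y))
          * deriv (fun y => Φ (t, y)) x))
        + ∫ x : ℝ, ub x * Φ (0, x) = 0)
    {w : Pl → ℝ} (hw : Measurable w) (hw' : ∀ z, w z ∈ Icc (0 : ℝ) 1)
    (hk : ∀ (k : ℝ) (Φ : Pl → ℝ), ContDiff ℝ ∞ Φ → HasCompactSupport Φ → (∀ z, 0 ≤ Φ z) →
      0 ≤ (∫ t in Ioi (0 : ℝ), ∫ x : ℝ, (|w (t, x) - k| * deriv (fun s => Φ (s, x)) t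
        + Real.sign (w (t, x) - k) * (w (t, x) * (1 - w (t, x)) - k * (1 - k))
          * deriv (fun y => Φ (t, y)) x))
        + ∫ x : ℝ, |ub x - k| * Φ (0, x))
    {T R : ℝ} (hT : 0 < T) (hR : 0 < R) :
    Tendsto (fun ε : ℝ => ∫ t in (0 : ℝ)..T, ∫ x in (-R)..R, |u ε (t, x) - w (t, x)|)
      (𝓝[>] 0) (𝓝 0) := by
  obtain ⟨M, hM, hM0, hMx⟩ := exists_Loc hub hub' hw hw' hk
  have hex : ∀ ε, ∃ U, 0 < ε → NL ε U ∧ U 0 = 0 ∧ ∀ᵐ z, D ex U z = extd (u ε) ub z := by
    intro ε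
    by_cases hε : 0 < ε
    · obtain ⟨U, hU⟩ := exists_NL hub hub' (hu ε hε) (hu' ε hε) hε (huw ε hε)
      exact ⟨U, fun _ => hU⟩
    · exact ⟨0, fun h => absurd h hε⟩
  choose U hU using hex
  have hF : Fam U M := ⟨fun ε hε => (hU ε hε).1, hM, fun ε hε x =>
    init_eq (hU ε hε).1.toPot hM.toPot (hU ε hε).2.1 hM0 (hU ε hε).2.2 hMx x⟩
  refine tendsto_zero_of_abs_le (hF.strong (2 * T + R + 2)) ?_
  filter_upwards [self_mem_nhdsWithin] with ε hε
  have La : LB (fun z => |u ε z - w z|) :=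
    ((LB.of_bdd (hu ε hε) 1 fun z => abs_le_one_of_mem (hu' ε hε z)).sub
      (LB.of_bdd hw 1 fun z => abs_le_one_of_mem (hw' z))).abs
  have Lw := LB.of_continuous (wt_ll (2 * T + R + 2)).continuous
  have i1 : IntegrableOn (fun z => wt (2 * T + R + 2) z * |u ε z - w z|) H :=
    (Lw.mul La).integrableOn ((van_wt _).mul_right _) H
  have hsub : Ioc 0 T ×ˢ Ioc (-R) R ⊆ H := fun z hz => hz.1.1
  have hm : MeasurableSet (Ioc 0 T ×ˢ Ioc (-R) R : Set Pl) :=
    measurableSet_Ioc.prod measurableSet_Ioc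
  have i2 : IntegrableOn (fun z => |u ε z - w z|) (Ioc 0 T ×ˢ Ioc (-R) R) := by
    refine Integrable.mono' (i1.mono_set hsub) La.meas.aestronglyMeasurable ?_
    filter_upwards [ae_restrict_mem hm] with z hz
    rw [Real.norm_eq_abs, abs_abs]
    exact le_mul_of_one_le_left (abs_nonneg _) (one_le_wt hR hz.1 hz.2)
  have e1 : ∫ t in (0 : ℝ)..T, ∫ x in (-R)..R, |u ε (t, x) - w (t, x)|
      = ∫ z in Ioc 0 T ×ˢ Ioc (-R) R, |u ε z - w z| := by
    rw [intervalIntegral.integral_of_le hT.le, Measure.volume_eq_prod, setIntegral_prod _ i2]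
    simp only [intervalIntegral.integral_of_le (show -R ≤ R by linarith)]
  have e2 : ∫ z in H, wt (2 * T + R + 2) z * |D ex (U ε) z - D ex M z|
      = ∫ z in H, wt (2 * T + R + 2) z * |u ε z - w z| := by
    refine setIntegral_congr_ae measurableSet_H ?_
    filter_upwards [(hU ε hε).2.2, hMx] with z h1 h2 hz
    rw [h1, h2, extd_of_mem hz, extd_of_mem hz]
  rw [e1, e2, abs_of_nonneg (integral_nonneg fun z => abs_nonneg _)]
  calc ∫ z in Ioc 0 T ×ˢ Ioc (-R) R, |u ε z - w z|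
      ≤ ∫ z in Ioc 0 T ×ˢ Ioc (-R) R, wt (2 * T + R + 2) z * |u ε z - w z| :=
        setIntegral_mono_on i2 (i1.mono_set hsub) hm fun z hz =>
          le_mul_of_one_le_left (abs_nonneg _) (one_le_wt hR hz.1 hz.2)
    _ ≤ _ := setIntegral_mono_set i1
        (Eventually.of_forall fun z => mul_nonneg (wt_nonneg _ z) (abs_nonneg _))
        hsub.eventuallyLE

end Pool.Agent.MP_a93f81_an

end MrgPart6

-- marker of a merged file
example : 731051 + 553628 = 731051 + 553628 := rfl
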