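import Pool.Agent.MP_a93f81_an.RateFan

/-!
Comparison on a strip for the nonlocal equation, and the quantitative bound on the potentials.
-/

set_option autoImplicit false

open MeasureTheory Filter Topology Set Metric

namespace Pool.Agent.MP_a93f81_an

/-- The mollified nonlocal potential is an approximate supersolution of the nonlocal equation. -/
lemma NL.moll_super_sol {ε : ℝ} {U : Pl → ℝ} (hε : 0 < ε) (hU : NL ε U)
    {κ : Pl → ℝ} {r : ℝ} (hκ : Kern κ r) {z : Pl} (hz : r ≤ z.1) :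
    - (8 * r / ε) ≤ D et (moll κ U) z + D ex (moll κ U) z * (1 - quot (moll κ U) ε z) := by
  have hP := hU.toPot
  have Lu := hP.lbD ex
  have LW := hP.lb_quot ε
  rw [D_moll_lip hκ.smooth hκ.van hP.ll, D_moll_lip hκ.smooth hκ.van hP.ll]
  have p0 : 0 ≤ moll κ (D ex U) z :=
    moll_ge hκ Lu z (Eventually.of_forall fun y _ => (hP.Dx_mem y).1)
  have p1 : moll κ (D ex U) z ≤ 1 :=
    moll_le hκ Lu z (Eventually.of_forall fun y _ => (hP.Dx_mem y).2)
  have h1 : - (4 * r / ε) ≤ moll κ (D et U) z + (1 - quot U ε z) * moll κ (D ex U) z := by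
    rw [← moll_const_mul, ← moll_add hκ (hP.lbD et) (Lu.const_mul _)]
    refine moll_ge hκ ((hP.lbD et).add (Lu.const_mul _)) z ?_
    filter_upwards [hU.eq] with y hy h1
    rw [hy (mem_H_of_near hz h1)]
    have h2 : |quot U ε y - quot U ε z| ≤ 4 * r / ε := by
      have a1 := hP.lip.dist_le_mul (y + ε • ex) (z + ε • ex)
      have a2 := hP.lip.dist_le_mul y z
      rw [dist_add_right] at a1
      rw [Real.dist_eq, dist_comm, dist_eq_norm] at a1 a2
      simp only [NNReal.coe_ofNat] at a1 a2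
      rw [quot, quot, ← sub_div, abs_div, abs_of_pos hε]
      gcongr
      rw [abs_le] at a1 a2 ⊢
      constructor <;> linarith [a1.1, a1.2, a2.1, a2.2]
    have h3 := abs_mul_le (abs_le_one_of_mem (hP.Dx_mem y)) h2
    have h4 := (abs_le.1 h3).1
    linarith
  have h2 : |quot U ε z - quot (moll κ U) ε z| ≤ 4 * r / ε := by
    have a1 := moll_near hκ hP.lip (z + ε • ex)
    have a2 := moll_near hκ hP.lip z
    simp only [NNReal.coe_ofNat] at a1 a2
    rw [quot, quot, ← sub_div, abs_div, abs_of_pos hε]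
    gcongr
    rw [abs_le] at a1 a2 ⊢
    constructor <;> linarith [a1.1, a1.2, a2.1, a2.2]
  have h3 := abs_mul_le (abs_le_one_of_mem ⟨p0, p1⟩) h2
  have h4 := (abs_le.1 h3).1
  have e : 8 * r / ε = 4 * r / ε + 4 * r / ε := by ring
  rw [e]
  linarith

lemma Pot.quot_moll_mem {U : Pl → ℝ} (hP : Pot U) {κ : Pl → ℝ} {r : ℝ} (hκ : Kern κ r) {ε : ℝ}
    (hε : 0 < ε) (z : Pl) : quot (moll κ U) ε z ∈ Icc (0 : ℝ) 1 := by
  have L : LB (fun y => U (y + ε • ex) - U y) := (hP.lb.shift _).sub hP.lb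
  have e : moll κ U (z + ε • ex) - moll κ U z = moll κ (fun y => U (y + ε • ex) - U y) z := by
    rw [moll_shift, moll_sub hκ (hP.lb.shift _) hP.lb]
  rw [quot, e]
  refine ⟨div_nonneg (moll_ge hκ L z (Eventually.of_forall fun y _ => (hP.mono y ε hε.le).1))
    hε.le, (div_le_one hε).2 (moll_le hκ L z
      (Eventually.of_forall fun y _ => (hP.mono y ε hε.le).2))⟩

/-- The closed strip of times between `τ` and `T`. -/
def strip (τ T : ℝ) : Set Pl := {z | τ ≤ z.1 ∧ z.1 ≤ T}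

lemma penal_strip {Θ : Pl → ℝ} {τ T A C a η : ℝ} (hΘ : ContinuousOn Θ (strip τ T)) (hτ : 0 ≤ τ)
    (ha : 0 ≤ a) (hη : 0 < η) (hgrow : ∀ z ∈ strip τ T, Θ z ≤ C)
    (hinit : ∀ z ∈ strip τ T, z.1 = τ → Θ z ≤ A)
    (hno : ∀ z0 ∈ strip τ T, τ < z0.1 →
      ¬ IsMaxOn (fun z => Θ z - pen a η z) (strip τ T) z0)
    (z : Pl) (hz : z ∈ strip τ T) : Θ z ≤ A + pen a η z := by
  have hc : ContinuousOn (fun z => Θ z - pen a η z) (strip τ T) :=
    hΘ.sub (pen_contDiff a η).continuous.continuousOn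
  obtain ⟨z0, hz0, hmax⟩ := ContinuousOn.exists_isMaxOn' hc
    ((isClosed_le continuous_const continuous_fst).inter
      (isClosed_le continuous_fst continuous_const)) (x₀ := z) hz (by
      rw [eventually_inf_principal]
      filter_upwards [(isCompact_closedBall (0 : Pl)
        (T + (C - (Θ z - pen a η z)) / η)).compl_mem_cocompact] with y hy hy'
      have h1 : T + (C - (Θ z - pen a η z)) / η < ‖y‖ := by simpa using hy
      have h2 := hgrow y hy'
      have hy1 : 0 ≤ y.1 := hτ.trans hy'.1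
      have h3 : ‖y‖ ≤ y.1 + √(1 + y.2 ^ 2) := by
        rw [Prod.norm_def, max_le_iff, Real.norm_eq_abs, Real.norm_eq_abs, abs_of_nonneg hy1]
        exact ⟨by have := Real.sqrt_nonneg (1 + y.2 ^ 2); linarith,
          by linarith [abs_le_jap y.2]⟩
      have h4 : (C - (Θ z - pen a η z)) / η < √(1 + y.2 ^ 2) := by linarith [hy'.2]
      rw [div_lt_iff₀ hη] at h4
      have h6 := mul_nonneg ha hy1
      have h7 : 0 ≤ η * y.1 ^ 2 := by positivity
      have e : pen a η y = a * y.1 + η * y.1 ^ 2 + η * √(1 + y.2 ^ 2) := rfl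
      rw [e]
      linarith)
  have h1 : z0.1 = τ := le_antisymm (not_lt.1 fun h => hno z0 hz0 h hmax) hz0.1
  have h2 := hmax hz
  have h3 := hinit z0 hz0 h1
  have h4 : 0 ≤ pen a η z0 := by
    have : 0 ≤ z0.1 := hτ.trans hz0.1
    unfold pen; positivity
  simp only [mem_ofPred_eq] at h2
  linarith

lemma deriv_nonneg_of_left_max {f : ℝ → ℝ} {f' τ t : ℝ} (h : τ < t) (hf : HasDerivAt f f' t)
    (hm : ∀ s, τ ≤ s → s ≤ t → f s ≤ f t) : 0 ≤ f' := by
  refine ge_of_tendsto hf.tendsto_slope_zero_left ?_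
  filter_upwards [Ioo_mem_nhdsLT (show τ - t < 0 by linarith)] with s hs
  have h1 := hm (t + s) (by linarith [hs.1]) (by linarith [hs.2])
  rw [smul_eq_mul]
  exact mul_nonneg_of_nonpos_of_nonpos (inv_nonpos.2 hs.2.le) (by linarith)

/-- First order information at a maximum on a strip. -/
lemma strip_max {Θ G : Pl → ℝ} {Φ : ℝ → ℝ → ℝ} {τ T a η A p : ℝ} {z0 : Pl}
    (hz0 : z0 ∈ strip τ T) (hτ : τ < z0.1)
    (hmax : IsMaxOn (fun z => Θ z - pen a η z) (strip τ T) z0)
    (hG : DifferentiableAt ℝ G z0) (h1 : ∀ z ∈ strip τ T, G z + Φ z.1 z.2 ≤ Θ z)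
    (h2 : G z0 + Φ z0.1 z0.2 = Θ z0) (hA : HasDerivAt (fun s => Φ s z0.2) A z0.1)
    (hp : HasDerivAt (fun y => Φ z0.1 y) p z0.2) :
    a + 2 * η * z0.1 ≤ D et G z0 + A ∧ D ex G z0 + p = η * (z0.2 / √(1 + z0.2 ^ 2)) := by
  have hpd := (pen_contDiff a η).differentiable (by simp) z0
  have key : ∀ z ∈ strip τ T, G z + Φ z.1 z.2 - pen a η z
      ≤ G z0 + Φ z0.1 z0.2 - pen a η z0 := by
    intro z hz
    have := hmax hz
    simp only [mem_ofPred_eq] at this
    linarith [h1 z hz]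
  constructor
  · have d := ((hasDerivAt_t (t := z0.1) (x := z0.2) hG).add hA).sub
      (hasDerivAt_t (t := z0.1) (x := z0.2) hpd)
    have := deriv_nonneg_of_left_max hτ d fun s hs hs' =>
      key (s, z0.2) ⟨hs, hs'.trans hz0.2⟩
    rw [D_pen] at this
    simp only [Prod.mk.eta, et_fst, et_snd, mul_one, mul_zero, add_zero] at this
    linarith
  · have d := ((hasDerivAt_x (t := z0.1) (x := z0.2) hG).add hp).sub
      (hasDerivAt_x (t := z0.1) (x := z0.2) hpd)
    have hm : IsLocalMax (fun y => G (z0.1, y) + Φ z0.1 y - pen a η (z0.1, y)) z0.2 :=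
      Eventually.of_forall fun y => key (z0.1, y) hz0
    have := hm.hasDerivAt_eq_zero d
    rw [D_pen] at this
    simp only [Prod.mk.eta, ex_fst, ex_snd, mul_one, mul_zero, zero_add] at this
    linarith

/-- Comparison from above on a strip. -/
theorem NL.le_super {ε T K : ℝ} {U : Pl → ℝ} (hε : 0 < ε) (hU : NL ε U) (hK : 0 ≤ K)
    {S : ℝ → ℝ → ℝ} (hS : ContinuousOn (fun z : Pl => S z.1 z.2) (strip 0 T))
    (h0 : ∀ t x, 0 ≤ t → t ≤ T → U (0, x) ≤ S t x + K * t)
    (ht : ∀ t x, 0 < t → t ≤ T → ∃ (Φ : ℝ → ℝ → ℝ) (a p w : ℝ),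
      (∀ s y, 0 ≤ s → s ≤ T → S s y ≤ Φ s y) ∧ Φ t x = S t x ∧
      HasDerivAt (fun s => Φ s x) a t ∧ HasDerivAt (fun y => Φ t y) p x ∧
      Φ t (x + ε) ≤ Φ t x + ε * w ∧ 0 ≤ a + p * max (1 - w) 0)
    {t : ℝ} (ht0 : 0 ≤ t) (htT : t ≤ T) (x : ℝ) : U (t, x) ≤ S t x := by
  have hP := hU.toPot
  rcases ht0.eq_or_lt with h | ht0'
  · subst h; simpa using h0 0 x le_rfl htT
  suffices h : U (t, x) - S t x ≤ 0 by linarith
  refine le_of_pen ((6 + K) * ε + 13 * t) (t, x) fun η hη hη1 => ?_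
  set r := min t (ε * η) with hr
  have hr0 : 0 < r := lt_min ht0' (by positivity)
  have hrt : r ≤ t := min_le_left _ _
  have hr1 : r ≤ ε * η := min_le_right _ _
  have hrε : 8 * r / ε ≤ 8 * η := by rw [div_le_iff₀ hε]; linarith
  obtain ⟨κ, hκ⟩ := exists_kern hr0
  have hQ := moll_contDiff hκ.smooth hκ.van hP.lb
  have hnear : ∀ y : Pl, |moll κ U y - U y| ≤ 2 * r := fun y => by
    simpa using moll_near hκ hP.lip y
  have hsub : strip r T ⊆ strip 0 T := fun z hz => ⟨hr0.le.trans hz.1, hz.2⟩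
  have hb : ∀ z ∈ strip r T, moll κ U z - S z.1 z.2 ≤ 2 * r + (2 + K) * z.1 := by
    intro z hz
    have a1 := (abs_le.1 (hnear z)).2
    have a2 := (abs_le.1 (hP.time_le z.1 0 z.2)).2
    rw [sub_zero, abs_of_nonneg (hsub hz).1] at a2
    have a3 := h0 z.1 z.2 (hsub hz).1 hz.2
    simp only [Prod.mk.eta] at a2
    linarith
  have key := penal_strip (Θ := fun z => moll κ U z - S z.1 z.2) (τ := r) (T := T)
    (A := (4 + K) * r) (C := 2 * r + (2 + K) * T) (a := 13 * η) (η := η)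
    (hQ.continuous.continuousOn.sub (hS.mono hsub)) hr0.le (by positivity) hη
    (fun z hz => (hb z hz).trans (by have := hz.2; gcongr))
    (fun z hz h1 => (hb z hz).trans (by rw [h1]; linarith))
    (fun z0 hz0 hz0' hmax => by
      obtain ⟨Φ, a, p, w, b1, b2, b3, b4, b5, b6⟩ := ht z0.1 z0.2 (hr0.trans hz0') hz0.2
      obtain ⟨c1, c2⟩ := strip_max (Φ := fun s y => - Φ s y) hz0 hz0' hmax
        (hQ.differentiable (by simp) z0)
        (fun z hz => by linarith [b1 z.1 z.2 (hsub hz).1 hz.2]) (by linarith) b3.neg b4.neg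
      have h3 := abs_le.1 (abs_mul_le (le_of_eq (abs_of_pos hη)) (abs_jap_deriv_le z0.2))
      have h4 := hU.moll_sub_sol hε hκ hz0'.le
      have hmem : z0 + ε • ex ∈ strip r T := by simpa [strip] using hz0
      have h7 := hmax hmem
      have h8 := pen_shift_le (13 * η) hη.le hε.le z0
      have h9 : quot (moll κ U) ε z0 ≤ w + η := by
        have b7 := b1 z0.1 (z0.2 + ε) (hsub hz0).1 hz0.2
        simp only [mem_ofPred_eq, Prod.fst_add, Prod.snd_add, Prod.smul_fst, Prod.smul_snd,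
          ex_fst, ex_snd, smul_eq_mul, mul_zero, mul_one, add_zero] at h7
        rw [quot, div_le_iff₀ hε]
        linarith
      have P := hP.D_moll_mem hκ z0
      have Q := hP.quot_moll_mem hκ hε z0
      have hm0 : 0 ≤ max (1 - w) 0 := le_max_right _ _
      have hm1 : max (1 - w) 0 ≤ 2 := max_le (by linarith [Q.1]) zero_le_two
      have hm2 : max (1 - w) 0 - η ≤ 1 - quot (moll κ U) ε z0 := by
        have : max (1 - w) 0 ≤ 1 - quot (moll κ U) ε z0 + η :=
          max_le (by linarith) (by linarith [Q.2])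
        linarith
      have ht' : 0 ≤ 2 * η * z0.1 := by have := (hsub hz0).1; positivity
      set pp := D ex (moll κ U) z0
      set m := max (1 - w) 0
      have h10 := mul_le_mul_of_nonneg_left hm2 P.1
      have h11 : |(pp - p) * m| ≤ η * 2 :=
        abs_mul_le (abs_le.2 ⟨by linarith [h3.1], by linarith [h3.2]⟩)
          (abs_le.2 ⟨by linarith, hm1⟩)
      have h12 := (abs_le.1 h11).1
      have h13 := mul_le_mul_of_nonneg_right P.2 hη.le
      nlinarith) (t, x) ⟨hrt, htT⟩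
  have a1 := (abs_le.1 (hnear (t, x))).1
  have a2 := mul_le_mul_of_nonneg_left hr1 (show 0 ≤ 6 + K by positivity)
  simp only [pen] at key ⊢
  nlinarith

/-- Comparison from below on a strip. -/
theorem NL.ge_sub {ε T K : ℝ} {U : Pl → ℝ} (hε : 0 < ε) (hU : NL ε U) (hK : 0 ≤ K)
    {S : ℝ → ℝ → ℝ} (hS : ContinuousOn (fun z : Pl => S z.1 z.2) (strip 0 T))
    (h0 : ∀ t x, 0 ≤ t → t ≤ T → S t x ≤ U (0, x) + K * t)
    (ht : ∀ t x, 0 < t → t ≤ T → ∃ (Φ : ℝ → ℝ → ℝ) (a p w : ℝ),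
      (∀ s y, 0 ≤ s → s ≤ T → Φ s y ≤ S s y) ∧ Φ t x = S t x ∧
      HasDerivAt (fun s => Φ s x) a t ∧ HasDerivAt (fun y => Φ t y) p x ∧
      Φ t x + ε * w ≤ Φ t (x + ε) ∧ 0 ≤ w ∧ a + p * (1 - w) ≤ 0)
    {t : ℝ} (ht0 : 0 ≤ t) (htT : t ≤ T) (x : ℝ) : S t x ≤ U (t, x) := by
  have hP := hU.toPot
  rcases ht0.eq_or_lt with h | ht0'
  · subst h; simpa using h0 0 x le_rfl htT
  suffices h : S t x - U (t, x) ≤ 0 by linarith
  refine le_of_pen ((6 + K) * ε + 13 * t) (t, x) fun η hη hη1 => ?_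
  set r := min t (ε * η) with hr
  have hr0 : 0 < r := lt_min ht0' (by positivity)
  have hrt : r ≤ t := min_le_left _ _
  have hr1 : r ≤ ε * η := min_le_right _ _
  have hrε : 8 * r / ε ≤ 8 * η := by rw [div_le_iff₀ hε]; linarith
  obtain ⟨κ, hκ⟩ := exists_kern hr0
  have hQ := moll_contDiff hκ.smooth hκ.van hP.lb
  have hnear : ∀ y : Pl, |moll κ U y - U y| ≤ 2 * r := fun y => by
    simpa using moll_near hκ hP.lip y
  have hsub : strip r T ⊆ strip 0 T := fun z hz => ⟨hr0.le.trans hz.1, hz.2⟩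
  have hb : ∀ z ∈ strip r T, S z.1 z.2 - moll κ U z ≤ 2 * r + (2 + K) * z.1 := by
    intro z hz
    have a1 := (abs_le.1 (hnear z)).1
    have a2 := (abs_le.1 (hP.time_le z.1 0 z.2)).1
    rw [sub_zero, abs_of_nonneg (hsub hz).1] at a2
    have a3 := h0 z.1 z.2 (hsub hz).1 hz.2
    simp only [Prod.mk.eta] at a2
    linarith
  have key := penal_strip (Θ := fun z => S z.1 z.2 - moll κ U z) (τ := r) (T := T)
    (A := (4 + K) * r) (C := 2 * r + (2 + K) * T) (a := 13 * η) (η := η)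
    ((hS.mono hsub).sub hQ.continuous.continuousOn) hr0.le (by positivity) hη
    (fun z hz => (hb z hz).trans (by have := hz.2; gcongr))
    (fun z hz h1 => (hb z hz).trans (by rw [h1]; linarith))
    (fun z0 hz0 hz0' hmax => by
      obtain ⟨Φ, a, p, w, b1, b2, b3, b4, b5, b0, b6⟩ := ht z0.1 z0.2 (hr0.trans hz0') hz0.2
      have hQd := hQ.differentiable (by simp) z0
      obtain ⟨c1, c2⟩ := strip_max (G := fun z => - moll κ U z) (Φ := Φ) hz0 hz0' hmax hQd.neg
        (fun z hz => by linarith [b1 z.1 z.2 (hsub hz).1 hz.2]) (by linarith) b3 b4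
      have e : ∀ v, D v (fun z => - moll κ U z) z0 = - D v (moll κ U) z0 := fun v => by
        simp [D, fderiv_fun_neg]
      rw [e] at c1 c2
      have h3 := abs_le.1 (abs_mul_le (le_of_eq (abs_of_pos hη)) (abs_jap_deriv_le z0.2))
      have h4 := hU.moll_super_sol hε hκ hz0'.le
      have hmem : z0 + ε • ex ∈ strip r T := by simpa [strip] using hz0
      have h7 := hmax hmem
      have h8 := pen_shift_le (13 * η) hη.le hε.le z0
      have h9 : w - η ≤ quot (moll κ U) ε z0 := by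
        have b7 := b1 z0.1 (z0.2 + ε) (hsub hz0).1 hz0.2
        simp only [mem_ofPred_eq, Prod.fst_add, Prod.snd_add, Prod.smul_fst, Prod.smul_snd,
          ex_fst, ex_snd, smul_eq_mul, mul_zero, mul_one, add_zero] at h7
        rw [quot, le_div_iff₀ hε]
        linarith
      have P := hP.D_moll_mem hκ z0
      have Q := hP.quot_moll_mem hκ hε z0
      have ht' : 0 ≤ 2 * η * z0.1 := by have := (hsub hz0).1; positivity
      set pp := D ex (moll κ U) z0
      have h10 : pp * (1 - quot (moll κ U) ε z0) ≤ pp * (1 - w + η) :=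
        mul_le_mul_of_nonneg_left (by linarith) P.1
      have h11 : |(pp - p) * (1 - w)| ≤ η * 1 :=
        abs_mul_le (abs_le.2 ⟨by linarith [h3.2], by linarith [h3.1]⟩)
          (abs_le.2 ⟨by linarith [Q.2], by linarith⟩)
      have h12 := (abs_le.1 h11).2
      have h13 := mul_le_mul_of_nonneg_right P.2 hη.le
      nlinarith) (t, x) ⟨hrt, htT⟩
  have a1 := (abs_le.1 (hnear (t, x))).2
  have a2 := mul_le_mul_of_nonneg_left hr1 (show 0 ≤ 6 + K by positivity)
  simp only [pen] at key ⊢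
  nlinarith

end Pool.Agent.MP_a93f81_an
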