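import Pool.Agent.MP_a93f81_an.RateUp
import Mathlib.Analysis.Complex.ExponentialBounds

/-!
Barriers for the example: a rarefaction fan followed by a focusing compression wave.
-/

set_option autoImplicit false

open MeasureTheory Filter Topology Set Metric

namespace Pool.Agent.MP_a93f81_an

/-- Smooth positive part at scale `ε`. -/
noncomputable def sp (ε y : ℝ) : ℝ := ε * Real.log (1 + Real.exp (y / ε))

/-- Derivative of the smooth positive part. -/
noncomputable def lg (ε y : ℝ) : ℝ := Real.exp (y / ε) / (1 + Real.exp (y / ε))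

lemma lg_mem (ε y : ℝ) : lg ε y ∈ Icc (0 : ℝ) 1 := by
  have := Real.exp_pos (y / ε)
  exact ⟨by unfold lg; positivity, by unfold lg; rw [div_le_one (by positivity)]; linarith⟩

lemma sp_hasDerivAt {ε : ℝ} (hε : 0 < ε) {f : ℝ → ℝ} {f' t : ℝ} (hf : HasDerivAt f f' t) :
    HasDerivAt (fun s => sp ε (f s)) (lg ε (f t) * f') t := by
  have h1 := Real.exp_pos (f t / ε)
  refine (((((hf.div_const ε).exp).const_add 1).log (by positivity)).const_mul ε).congr_deriv ?_
  unfold lg
  field_simp

lemma sp_continuous (ε : ℝ) : Continuous (sp ε) :=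
  continuous_const.mul (Continuous.log (by fun_prop) fun y => by
    have := Real.exp_pos (y / ε); positivity)

lemma sp_nonneg {ε : ℝ} (hε : 0 < ε) (y : ℝ) : 0 ≤ sp ε y :=
  mul_nonneg hε.le (Real.log_nonneg (by linarith [Real.exp_pos (y / ε)]))

lemma le_sp {ε : ℝ} (hε : 0 < ε) (y : ℝ) : y ≤ sp ε y := by
  have h1 := Real.log_le_log (Real.exp_pos (y / ε))
    (show Real.exp (y / ε) ≤ 1 + Real.exp (y / ε) by linarith)
  rw [Real.log_exp, div_le_iff₀ hε] at h1
  unfold sp
  linarith

lemma sp_mono {ε : ℝ} (hε : 0 < ε) {y y' : ℝ} (h : y ≤ y') : sp ε y ≤ sp ε y' := by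
  have h1 := Real.exp_pos (y / ε)
  have h2 : Real.exp (y / ε) ≤ Real.exp (y' / ε) := Real.exp_le_exp.2 (by gcongr)
  exact mul_le_mul_of_nonneg_left (Real.log_le_log (by linarith) (by linarith)) hε.le

lemma sp_le {ε : ℝ} (hε : 0 < ε) {y : ℝ} (h : y ≤ 0) : sp ε y ≤ ε := by
  have h1 := Real.exp_pos (y / ε)
  have h2 : Real.exp (y / ε) ≤ 1 :=
    Real.exp_le_one_iff.2 (div_nonpos_of_nonpos_of_nonneg h hε.le)
  have h3 := Real.log_le_sub_one_of_pos (show 0 < 1 + Real.exp (y / ε) by linarith)
  unfold sp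
  nlinarith

lemma sp_incr {ε : ℝ} (hε : 0 < ε) (y : ℝ) : sp ε (y + ε) ≤ sp ε y + ε * (2 * lg ε y) := by
  have h1 := Real.exp_pos (y / ε)
  have e : Real.exp ((y + ε) / ε) = Real.exp (y / ε) * Real.exp 1 := by
    rw [← Real.exp_add]; congr 1; field_simp
  have h2 : Real.exp 1 ≤ 3 := by linarith [Real.exp_one_lt_d9]
  have h3 := Real.exp_pos 1
  have h4 := Real.log_le_sub_one_of_pos (show 0 < (1 + Real.exp (y / ε) * Real.exp 1)
    / (1 + Real.exp (y / ε)) by positivity)
  rw [Real.log_div (by positivity) (by positivity)] at h4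
  have h5 : (1 + Real.exp (y / ε) * Real.exp 1) / (1 + Real.exp (y / ε)) - 1 ≤ 2 * lg ε y := by
    unfold lg
    rw [div_sub_one (by positivity), ← mul_div_assoc]
    gcongr
    nlinarith
  unfold sp
  rw [e]
  nlinarith

/-- The parameters of the barriers. -/
structure Par (η ε τ B : ℝ) : Prop where
  η0 : 0 < η
  η1 : η ≤ 1 / 10
  ε0 : 0 < ε
  τ0 : 0 < τ
  τ1 : τ ≤ 1 / 2
  B0 : 0 < B
  b1 : 4 * B ≤ η * τ
  b2 : (1 - 3 * η) / 4 * ε * (- Real.log τ) ≤ B * η ^ 2
  b3 : 16 * B ^ 2 * η ^ 2 ≤ ε * τ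
  b4 : ε ≤ η * τ

/-- Consequences of being in the active zone of a barrier. -/
lemma Par.zone {η ε τ B s ξ : ℝ} (h : Par η ε τ B) (hs : τ ≤ s)
    (hξ : B * (ξ - (-1 + 2 * η)) ^ 2 ≤ B * η ^ 2) :
    -1 + η ≤ ξ ∧ ξ ≤ -1 + 3 * η ∧ ε / s ≤ η ∧
      (2 * B * (ξ - (-1 + 2 * η)) / s) ^ 2 ≤ 4 * B ^ 2 * η ^ 2 / s ^ 2 ∧
      1 - 2 * η ≤ (1 - ξ) / 2 + 2 * B * (ξ - (-1 + 2 * η)) / s ∧
      (1 - ξ) / 2 + 2 * B * (ξ - (-1 + 2 * η)) / s ≤ 1 ∧
      (1 - 3 * η) * (ε / (4 * s)) ≤ ((1 - ξ) / 2 + 2 * B * (ξ - (-1 + 2 * η)) / s)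
        * (ε / (4 * s) - B * ε / s ^ 2) ∧ 0 ≤ ε / (4 * s) - B * ε / s ^ 2 := by
  have hs0 : 0 < s := h.τ0.trans_le hs
  have η0 := h.η0
  have η1 := h.η1
  have ε0 := h.ε0
  have B0 := h.B0
  have a1 : (ξ - (-1 + 2 * η)) ^ 2 ≤ η ^ 2 := le_of_mul_le_mul_left hξ B0
  have a2 := abs_le.1 (abs_le_of_sq_le_sq' a1 η0.le |> abs_le.2)
  have a3 : η * τ ≤ η * s := mul_le_mul_of_nonneg_left hs η0.le
  have a4 : 4 * B / s ≤ η := by rw [div_le_iff₀ hs0]; linarith [h.b1]
  have a5 : |2 * B * (ξ - (-1 + 2 * η)) / s| ≤ η / 2 * η := by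
    have e : 2 * B * (ξ - (-1 + 2 * η)) / s = (4 * B / s / 2) * (ξ - (-1 + 2 * η)) := by ring
    rw [e]
    refine abs_mul_le ?_ (abs_le.2 a2)
    rw [abs_of_nonneg (by positivity)]
    linarith
  have a6 := abs_le.1 a5
  have a7 : η / 2 * η ≤ η / 2 := by nlinarith
  have a8 : (1 - η) * (ε / (4 * s)) ≤ ε / (4 * s) - B * ε / s ^ 2 := by
    have e : B * ε / s ^ 2 = (4 * B / s) * (ε / (4 * s)) := by field_simp
    have := mul_le_mul_of_nonneg_right a4 (show 0 ≤ ε / (4 * s) by positivity)
    rw [e]; linarith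
  have a9 : 0 ≤ (1 - η) * (ε / (4 * s)) := mul_nonneg (by linarith) (by positivity)
  have a10 : 1 - 2 * η ≤ (1 - ξ) / 2 + 2 * B * (ξ - (-1 + 2 * η)) / s := by
    linarith [a2.2, a6.1]
  refine ⟨by linarith [a2.1], by linarith [a2.2], ?_, ?_, a10, by linarith [a2.1, a6.2], ?_,
    a9.trans a8⟩
  · rw [div_le_iff₀ hs0]; linarith [h.b4]
  · rw [div_pow, mul_pow, mul_pow]
    gcongr
    norm_num
  · calc (1 - 3 * η) * (ε / (4 * s)) ≤ ((1 - 2 * η) * (1 - η)) * (ε / (4 * s)) :=
          mul_le_mul_of_nonneg_right (by nlinarith) (by positivity)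
      _ = (1 - 2 * η) * ((1 - η) * (ε / (4 * s))) := by ring
      _ ≤ _ := mul_le_mul a10 a8 a9 (by linarith)

lemma ex_upper {η ε τ B : ℝ} (h : Par η ε τ B) {U : Pl → ℝ} (hU : NL ε U)
    (h0 : ∀ y, U (0, y) ≤ min y 0 + max (y - 3) 0) :
    U (1 - τ, (-1 + 2 * η) * (1 - τ + ε)) ≤ fR (1 - τ + ε) ((-1 + 2 * η) * (1 - τ + ε))
      + 5 / 2 * ε - (1 - 3 * η) / 4 * ε * (- Real.log τ) := by
  have η0 := h.η0
  have η1 := h.η1
  have ε0 := h.ε0
  have B0 := h.B0
  have τ0 := h.τ0
  have τ1 := h.τ1
  have ετ : ε ≤ τ := by nlinarith [h.b4]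
  obtain ⟨γ, hγ⟩ : ∃ γ, γ = (1 - 3 * η) / 4 := ⟨_, rfl⟩
  have γ0 : 0 ≤ γ * ε := mul_nonneg (by linarith) ε0.le
  obtain ⟨c, hc⟩ : ∃ c, c = -1 + 2 * η := ⟨_, rfl⟩
  obtain ⟨k, hk⟩ : ∃ k, k = 16 * B ^ 2 * η ^ 2 := ⟨_, rfl⟩
  have k0 : 0 ≤ k := by rw [hk]; positivity
  rw [← hγ, ← hc]
  have key := hU.le_super (T := 1 - τ) (K := 1 / 4 + γ * ε / τ) ε0 (by positivity)
    (S := fun t y => fR (t + ε) y + ε / 4
      + min 0 (B * (y / (t + ε) - c) ^ 2 - γ * ε * (Real.log (t + ε) - Real.log τ))
      + k * (1 / τ - 1 / (t + ε + τ)) + sp ε (y + 3 * t - 3))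
    (by
      have hp : ∀ z ∈ strip 0 (1 - τ), 0 < z.1 + ε := fun z hz => by have := hz.1; linarith
      refine (((fR_continuousOn (by fun_prop) (by fun_prop) hp).add continuousOn_const).add
        (continuousOn_const.inf ((continuousOn_const.mul (((continuousOn_snd.div (by fun_prop)
          fun z hz => (hp z hz).ne').sub continuousOn_const).pow 2)).sub
          (continuousOn_const.mul ((ContinuousOn.log (by fun_prop)
            fun z hz => (hp z hz).ne').sub continuousOn_const))))).add
        (continuousOn_const.mul (continuousOn_const.sub (continuousOn_const.div (by fun_prop)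
          fun z hz => by have := hp z hz; positivity))) |>.add
        ((sp_continuous ε).comp_continuousOn (by fun_prop)))
    (fun t y h1 h2 => by
      have hs : 0 < t + ε := by linarith
      have a1 := fR_ge hs y
      have a2 : max (y - 3) 0 ≤ sp ε (y + 3 * t - 3) :=
        max_le (by linarith [le_sp ε0 (y + 3 * t - 3)]) (sp_nonneg ε0 _)
      have a3 : 0 ≤ k * (1 / τ - 1 / (t + ε + τ)) :=
        mul_nonneg k0 (sub_nonneg.2 (one_div_le_one_div_of_le τ0 (by linarith)))
      have a4 : Real.log (t + ε) - Real.log τ ≤ t / τ := by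
        rw [← Real.log_div hs.ne' τ0.ne']
        refine (Real.log_le_sub_one_of_pos (by positivity)).trans ?_
        rw [div_sub_one τ0.ne']
        gcongr
        linarith
      have a5 := mul_le_mul_of_nonneg_left a4 γ0
      have a6 : 0 ≤ γ * ε * (t / τ) := by positivity
      have a7 : - (γ * ε * (t / τ)) ≤ min 0 (B * (y / (t + ε) - c) ^ 2
          - γ * ε * (Real.log (t + ε) - Real.log τ)) :=
        le_min (by linarith) (by nlinarith [sq_nonneg (y / (t + ε) - c)])
      have e : γ * ε / τ * t = γ * ε * (t / τ) := by ring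
      linarith [h0 y])
    (fun t y h1 h2 => by
      have hs : 0 < t + ε := by linarith
      have d1 : HasDerivAt (fun s => s + ε) 1 t := (hasDerivAt_id t).add_const _
      have d2 := fR_hasDerivAt d1 (hasDerivAt_const t y) hs
      have d3 := fR_hasDerivAt (hasDerivAt_const y (t + ε)) (hasDerivAt_id y) hs
      have d4 : HasDerivAt (fun s => k * (1 / τ - 1 / (s + ε + τ))) (k / (t + ε + τ) ^ 2) t := by
        refine ((((hasDerivAt_const t (1 : ℝ)).div (d1.add_const τ)
          (by positivity)).const_sub (1 / τ)).const_mul k).congr_deriv ?_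
        field_simp
        ring
      have d5 : HasDerivAt (fun s => sp ε (y + 3 * s - 3)) (lg ε (y + 3 * t - 3) * (3 * 1)) t :=
        sp_hasDerivAt ε0 ((((hasDerivAt_id t).const_mul 3).const_add y).sub_const 3)
      have d6 : HasDerivAt (fun x => sp ε (x + 3 * t - 3)) (lg ε (y + 3 * t - 3) * 1) y :=
        sp_hasDerivAt ε0 (((hasDerivAt_id y).add_const (3 * t)).sub_const 3)
      have s1 := sp_incr ε0 (y + 3 * t - 3)
      rw [show y + 3 * t - 3 + ε = y + ε + 3 * t - 3 by ring] at s1
      have q := fq_mem (t + ε) y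
      have σ := lg_mem ε (y + 3 * t - 3)
      have k1 : 0 ≤ k / (t + ε + τ) ^ 2 := by positivity
      rcases le_total 0 (B * (y / (t + ε) - c) ^ 2
        - γ * ε * (Real.log (t + ε) - Real.log τ)) with hG | hG
      · refine ⟨fun s x => fR (s + ε) x + ε / 4 + k * (1 / τ - 1 / (s + ε + τ))
          + sp ε (x + 3 * s - 3), _, _, fq (t + ε) y + 2 * lg ε (y + 3 * t - 3),
          fun s x _ _ => by linarith [min_le_left 0 (B * (x / (s + ε) - c) ^ 2
            - γ * ε * (Real.log (s + ε) - Real.log τ))],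
          by simp only [min_eq_left hG, add_zero],
          ((d2.add_const _).add d4).add d5, ((d3.add_const _).add_const _).add d6, ?_, ?_⟩
        · linarith [fR_incr_le hs y ε]
        · simp only [id]
          have a1 := mul_le_mul_of_nonneg_left (le_max_left (1 - (fq (t + ε) y
            + 2 * lg ε (y + 3 * t - 3))) 0) q.1
          have a2 := mul_nonneg σ.1 (le_max_right (1 - (fq (t + ε) y
            + 2 * lg ε (y + 3 * t - 3))) 0)
          have a3 := mul_le_mul_of_nonneg_right q.2 σ.1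
          linarith [σ.1]
      · have hl : Real.log (t + ε) ≤ 0 := Real.log_nonpos hs.le (by linarith)
        have hl' := mul_le_mul_of_nonneg_left hl γ0
        have hb := h.b2
        rw [← hγ] at hb
        have hτs : τ ≤ t + ε := by
          by_contra hlt
          have a1 := Real.log_lt_log hs (not_le.1 hlt)
          have a2 : 0 < γ * ε := mul_pos (by linarith) ε0
          nlinarith [mul_nonneg B0.le (sq_nonneg (y / (t + ε) - c))]
        obtain ⟨z1, z2, z3, z4, z5, z6, z7, z8⟩ := h.zone (ξ := y / (t + ε)) hτs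
          (by rw [← hc]; linarith)
        rw [← hc] at z4 z5 z6 z7
        have y1 : -(t + ε) ≤ y := by
          have : -1 ≤ y / (t + ε) := by linarith
          rw [le_div_iff₀ hs] at this; linarith
        have y2 : y + ε ≤ t + ε := by
          have : (y + ε) / (t + ε) ≤ 1 := by rw [add_div]; linarith
          rwa [div_le_one hs] at this
        have eq : fq (t + ε) y = (1 - y / (t + ε)) / 2 := by
          rw [fq_mid hs y1 (by linarith)]; field_simp
        have d7 : HasDerivAt (fun s => B * (y / (s + ε) - c) ^ 2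
            - γ * ε * (Real.log (s + ε) - Real.log τ))
            (- (2 * B * (y / (t + ε) - c) / (t + ε)) * (y / (t + ε))
              - 4 * γ * (ε / (4 * (t + ε)))) t := by
          refine ((((((hasDerivAt_const t y).div d1 hs.ne').sub_const c).pow 2).const_mul B).sub
            (((d1.log hs.ne').sub_const _).const_mul (γ * ε))).congr_deriv ?_
          simp only [Pi.div_apply, Nat.cast_ofNat, Nat.add_one_sub_one, pow_one]
          field_simp
          ring
        have d8 : HasDerivAt (fun x => B * (x / (t + ε) - c) ^ 2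
            - γ * ε * (Real.log (t + ε) - Real.log τ))
            (2 * B * (y / (t + ε) - c) / (t + ε)) y := by
          refine ((((((hasDerivAt_id y).div_const (t + ε)).sub_const c).pow 2).const_mul
            B).sub_const _).congr_deriv ?_
          simp only [id, Nat.cast_ofNat, Nat.add_one_sub_one, pow_one]
          field_simp
        have k2 : 4 * B ^ 2 * η ^ 2 / (t + ε) ^ 2 ≤ k / (t + ε + τ) ^ 2 := by
          have e : 4 * B ^ 2 * η ^ 2 / (t + ε) ^ 2 = k / (2 * (t + ε)) ^ 2 := by
            rw [hk]; field_simp; ring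
          rw [e]
          gcongr
          linarith
        refine ⟨fun s x => fR (s + ε) x + ε / 4 + (B * (x / (s + ε) - c) ^ 2
            - γ * ε * (Real.log (s + ε) - Real.log τ)) + k * (1 / τ - 1 / (s + ε + τ))
          + sp ε (x + 3 * s - 3), _, _, fq (t + ε) y + 2 * B * (y / (t + ε) - c) / (t + ε)
            - (ε / (4 * (t + ε)) - B * ε / (t + ε) ^ 2) + 2 * lg ε (y + 3 * t - 3),
          fun s x _ _ => by linarith [min_le_right 0 (B * (x / (s + ε) - c) ^ 2
            - γ * ε * (Real.log (s + ε) - Real.log τ))],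
          by simp only [min_eq_right hG],
          (((d2.add_const _).add d7).add d4).add d5,
          (((d3.add_const _).add d8).add_const _).add d6, ?_, ?_⟩
        · have a1 := fR_incr_mid hs y1 (by linarith) (by linarith) y2
          have a2 : B * ((y + ε) / (t + ε) - c) ^ 2 = B * (y / (t + ε) - c) ^ 2
              + ε * (2 * B * (y / (t + ε) - c) / (t + ε)) + ε * (B * ε / (t + ε) ^ 2) := by
            field_simp; ring
          have e : ε ^ 2 / (4 * (t + ε)) = ε * (ε / (4 * (t + ε))) := by ring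
          simp only
          linarith
        · simp only [id]
          rw [eq]
          set ξ := y / (t + ε)
          set g := 2 * B * (ξ - c) / (t + ε)
          set e := ε / (4 * (t + ε))
          set b := B * ε / (t + ε) ^ 2
          set σ' := lg ε (y + 3 * t - 3)
          have a1 := mul_le_mul_of_nonneg_left (le_max_left
            (1 - ((1 - ξ) / 2 + g - (e - b) + 2 * σ')) 0) (show 0 ≤ (1 - ξ) / 2 + g by linarith)
          have a2 := mul_nonneg σ.1 (le_max_right (1 - ((1 - ξ) / 2 + g - (e - b) + 2 * σ')) 0)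
          have a3 := mul_le_mul_of_nonneg_right z6 σ.1
          rw [hγ]
          linarith [σ.1])
    (t := 1 - τ) (by linarith) le_rfl (c * (1 - τ + ε))
  have hs : 0 < 1 - τ + ε := by linarith
  have a1 := min_le_right 0 (B * (c * (1 - τ + ε) / (1 - τ + ε) - c) ^ 2
    - γ * ε * (Real.log (1 - τ + ε) - Real.log τ))
  rw [mul_div_assoc, div_self hs.ne', mul_one, sub_self, zero_pow two_ne_zero, mul_zero] at a1 key
  have a2 : sp ε (c * (1 - τ + ε) + 3 * (1 - τ) - 3) ≤ ε := sp_le ε0 (by
    have : c * (1 - τ + ε) ≤ 0 := mul_nonpos_of_nonpos_of_nonneg (by linarith) hs.le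
    linarith)
  have a3 : k * (1 / τ - 1 / (1 - τ + ε + τ)) ≤ ε := by
    have b1 : k * (1 / τ) ≤ ε := by
      rw [mul_one_div, div_le_iff₀ τ0, hk]; exact h.b3
    have b2 : 0 ≤ k * (1 / (1 - τ + ε + τ)) := by
      have : 0 < 1 - τ + ε + τ := by linarith
      positivity
    linarith
  have a4 : -1 ≤ Real.log (1 - τ + ε) := by
    have b1 := Real.one_sub_inv_le_log_of_pos hs
    have b2 : (1 - τ + ε)⁻¹ ≤ 2 := by
      rw [inv_le_comm₀ hs two_pos]; linarith
    linarith
  have a5 := mul_le_mul_of_nonneg_left a4 γ0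
  have a6 : γ * ε ≤ 1 / 4 * ε := mul_le_mul_of_nonneg_right (by linarith) ε0.le
  linarith

lemma ex_lower {η ε τ B : ℝ} (h : Par η ε τ B) {U : Pl → ℝ} (hU : NL ε U)
    (h0 : ∀ y, - fR 1 (4 - y) - max (-y) 0 ≤ U (0, y)) :
    - fR τ ((-1 + 2 * η) * τ) + (1 - 3 * η) / 4 * ε * (- Real.log τ) - ε
      ≤ U (1 - τ, 4 - (-1 + 2 * η) * τ) := by
  have η0 := h.η0
  have η1 := h.η1
  have ε0 := h.ε0
  have B0 := h.B0
  have τ0 := h.τ0
  have τ1 := h.τ1
  obtain ⟨γ, hγ⟩ : ∃ γ, γ = (1 - 3 * η) / 4 := ⟨_, rfl⟩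
  have γ0 : 0 ≤ γ * ε := mul_nonneg (by linarith) ε0.le
  obtain ⟨c, hc⟩ : ∃ c, c = -1 + 2 * η := ⟨_, rfl⟩
  rw [← hγ, ← hc]
  have key := hU.ge_sub (T := 1 - τ) (K := γ * ε / τ) ε0 (by positivity)
    (S := fun t y => - fR (1 - t) (4 - y)
      + max 0 (γ * ε * (- Real.log (1 - t)) - B * ((4 - y) / (1 - t) - c) ^ 2) - sp ε (t - y))
    (by
      have hp : ∀ z ∈ strip 0 (1 - τ), 0 < 1 - z.1 := fun z hz => by have := hz.2; linarith
      exact ((fR_continuousOn (by fun_prop) (by fun_prop) hp).neg.add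
        (continuousOn_const.sup ((continuousOn_const.mul (ContinuousOn.log (by fun_prop)
            fun z hz => (hp z hz).ne').neg).sub (continuousOn_const.mul
          (((ContinuousOn.div (by fun_prop) (by fun_prop)
          fun z hz => (hp z hz).ne').sub continuousOn_const).pow 2))))).sub
        ((sp_continuous ε).comp_continuousOn (by fun_prop)))
    (fun t y h1 h2 => by
      have hs : 0 < 1 - t := by linarith
      have a1 := fR_anti hs (show 1 - t ≤ 1 by linarith) (4 - y)
      have a2 : max (-y) 0 ≤ sp ε (t - y) :=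
        max_le (by linarith [le_sp ε0 (t - y)]) (sp_nonneg ε0 _)
      have a4 : - Real.log (1 - t) ≤ t / τ := by
        have b1 := Real.one_sub_inv_le_log_of_pos hs
        have b2 : (1 - t)⁻¹ - 1 = t / (1 - t) := by field_simp; ring
        have b3 : t / (1 - t) ≤ t / τ := by gcongr; linarith
        linarith
      have a5 := mul_le_mul_of_nonneg_left a4 γ0
      have a6 : 0 ≤ γ * ε * (t / τ) := by positivity
      have a7 : max 0 (γ * ε * (- Real.log (1 - t)) - B * ((4 - y) / (1 - t) - c) ^ 2)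
          ≤ γ * ε * (t / τ) :=
        max_le a6 (by nlinarith [sq_nonneg ((4 - y) / (1 - t) - c)])
      have e : γ * ε / τ * t = γ * ε * (t / τ) := by ring
      linarith [h0 y])
    (fun t y h1 h2 => by
      have hs : 0 < 1 - t := by linarith
      have d1 : HasDerivAt (fun s => 1 - s) (-1) t := (hasDerivAt_id t).const_sub _
      have d1' : HasDerivAt (fun x => 4 - x) (-1) y := (hasDerivAt_id y).const_sub _
      have d2 := (fR_hasDerivAt d1 (hasDerivAt_const t (4 - y)) hs).neg
      have d3 := (fR_hasDerivAt (hasDerivAt_const y (1 - t)) d1' hs).neg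
      have d5 : HasDerivAt (fun s => sp ε (s - y)) (lg ε (t - y) * 1) t :=
        sp_hasDerivAt ε0 ((hasDerivAt_id t).sub_const y)
      have d6 : HasDerivAt (fun x => sp ε (t - x)) (lg ε (t - y) * (-1)) y :=
        sp_hasDerivAt ε0 ((hasDerivAt_id y).const_sub t)
      have s1 := sp_mono ε0 (show t - (y + ε) ≤ t - y by linarith)
      have q := fq_mem (1 - t) (4 - y)
      have σ := lg_mem ε (t - y)
      rcases le_total (γ * ε * (- Real.log (1 - t)) - B * ((4 - y) / (1 - t) - c) ^ 2) 0
        with hG | hG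
      · refine ⟨fun s x => - fR (1 - s) (4 - x) - sp ε (s - x), _, _, fq (1 - t) (4 - y),
          fun s x _ _ => by linarith [le_max_left 0 (γ * ε * (- Real.log (1 - s))
            - B * ((4 - x) / (1 - s) - c) ^ 2)],
          by simp only [max_eq_left hG, add_zero], d2.sub d5, d3.sub d6, ?_, q.1, ?_⟩
        · have a1 := fR_incr_le hs (4 - y) (-ε)
          rw [show 4 - y + -ε = 4 - (y + ε) by ring] at a1
          simp only
          linarith
        · have a3 := mul_nonneg q.1 σ.1
          linarith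
      · have hτs : τ ≤ 1 - t := by linarith
        have hl := mul_le_mul_of_nonneg_left (Real.log_le_log τ0 hτs) γ0
        have hb := h.b2
        rw [← hγ] at hb
        obtain ⟨z1, z2, z3, z4, z5, z6, z7, z8⟩ := h.zone (ξ := (4 - y) / (1 - t)) hτs
          (by rw [← hc]; linarith)
        rw [← hc] at z4 z5 z6 z7
        have y1 : -(1 - t) ≤ 4 - y + -ε := by
          have : -1 ≤ (4 - y - ε) / (1 - t) := by rw [sub_div]; linarith
          rw [le_div_iff₀ hs] at this; linarith
        have y2 : 4 - y ≤ 1 - t := by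
          have : (4 - y) / (1 - t) ≤ 1 := by linarith
          rwa [div_le_one hs] at this
        have eq : fq (1 - t) (4 - y) = (1 - (4 - y) / (1 - t)) / 2 := by
          rw [fq_mid hs (by linarith) y2]; field_simp
        have d7 : HasDerivAt (fun s => γ * ε * (- Real.log (1 - s))
            - B * ((4 - y) / (1 - s) - c) ^ 2)
            (4 * γ * (ε / (4 * (1 - t)))
              - (2 * B * ((4 - y) / (1 - t) - c) / (1 - t)) * ((4 - y) / (1 - t))) t := by
          refine (((d1.log hs.ne').neg.const_mul (γ * ε)).sub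
            (((((hasDerivAt_const t (4 - y)).div d1 hs.ne').sub_const c).pow 2).const_mul
              B)).congr_deriv ?_
          simp only [Pi.div_apply, Nat.cast_ofNat, Nat.add_one_sub_one, pow_one]
          field_simp
          ring
        have d8 : HasDerivAt (fun x => γ * ε * (- Real.log (1 - t))
            - B * ((4 - x) / (1 - t) - c) ^ 2)
            (2 * B * ((4 - y) / (1 - t) - c) / (1 - t)) y := by
          refine (((((d1'.div_const (1 - t)).sub_const c).pow 2).const_mul
            B).const_sub _).congr_deriv ?_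
          simp only [Nat.cast_ofNat, Nat.add_one_sub_one, pow_one]
          field_simp
        have e0 : ε / (4 * (1 - t)) = ε / (1 - t) / 4 := by field_simp
        have b0 : 0 ≤ B * ε / (1 - t) ^ 2 := by positivity
        refine ⟨fun s x => - fR (1 - s) (4 - x) + (γ * ε * (- Real.log (1 - s))
            - B * ((4 - x) / (1 - s) - c) ^ 2) - sp ε (s - x), _, _,
            fq (1 - t) (4 - y) + 2 * B * ((4 - y) / (1 - t) - c) / (1 - t)
            + (ε / (4 * (1 - t)) - B * ε / (1 - t) ^ 2),
          fun s x _ _ => by linarith [le_max_right 0 (γ * ε * (- Real.log (1 - s))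
            - B * ((4 - x) / (1 - s) - c) ^ 2)],
          by simp only [max_eq_right hG],
          (d2.add d7).sub d5, (d3.add d8).sub d6, ?_, by rw [eq]; linarith, ?_⟩
        · have a1 := fR_incr_mid hs (by linarith) y2 y1 (by linarith)
          rw [show 4 - y + -ε = 4 - (y + ε) by ring] at a1
          have a2 : B * ((4 - (y + ε)) / (1 - t) - c) ^ 2 = B * ((4 - y) / (1 - t) - c) ^ 2
              - ε * (2 * B * ((4 - y) / (1 - t) - c) / (1 - t)) + ε * (B * ε / (1 - t) ^ 2) := by
            field_simp; ring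
          have e : (-ε) ^ 2 / (4 * (1 - t)) = ε * (ε / (4 * (1 - t))) := by ring
          simp only
          linarith
        · rw [eq]
          set ξ := (4 - y) / (1 - t)
          set g := 2 * B * (ξ - c) / (1 - t)
          set e := ε / (4 * (1 - t))
          set b := B * ε / (1 - t) ^ 2
          set σ' := lg ε (t - y)
          have a1 := mul_nonneg σ.1 (show 0 ≤ (1 - ξ) / 2 + g + (e - b) by linarith)
          rw [hγ]
          linarith [sq_nonneg g])
    (t := 1 - τ) (by linarith) le_rfl (4 - c * τ)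
  rw [show 1 - (1 - τ) = τ by ring, show 4 - (4 - c * τ) = c * τ by ring, mul_div_assoc,
    div_self τ0.ne', mul_one, sub_self, zero_pow two_ne_zero, mul_zero, sub_zero] at key
  have a1 := le_max_right 0 (γ * ε * (- Real.log τ))
  have a2 : sp ε (1 - τ - (4 - c * τ)) ≤ ε := sp_le ε0 (by
    have : c * τ ≤ 0 := mul_nonpos_of_nonpos_of_nonneg (by linarith) τ0.le
    linarith)
  linarith

end Pool.Agent.MP_a93f81_an
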