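import Pool.Agent.MP_a93f81_an.Translate

/-!
The potential of the centred rarefaction fan and the two Hopf-Lax type bounds for the potential
of an entropy solution.
-/

set_option autoImplicit false

open MeasureTheory Filter Topology Set Metric

namespace Pool.Agent.MP_a93f81_an

/-- Density of the centred rarefaction fan from one to zero, at time `s` and place `x`. -/
noncomputable def fq (s x : ℝ) : ℝ := max 0 (min 1 ((s - x) / (2 * s)))

/-- Potential of the centred rarefaction fan. -/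
noncomputable def fR (s x : ℝ) : ℝ := (max (-x - s) 0 ^ 2 - max (s - x) 0 ^ 2) / (4 * s)

lemma fq_mem (s x : ℝ) : fq s x ∈ Icc (0 : ℝ) 1 :=
  ⟨le_max_left _ _, max_le zero_le_one (min_le_left _ _)⟩

lemma fq_mid {s x : ℝ} (hs : 0 < s) (h1 : -s ≤ x) (h2 : x ≤ s) : fq s x = (s - x) / (2 * s) := by
  have a : 0 ≤ (s - x) / (2 * s) := div_nonneg (by linarith) (by linarith)
  have b : (s - x) / (2 * s) ≤ 1 := by rw [div_le_one (by linarith)]; linarith
  rw [fq, min_eq_right b, max_eq_right a]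

lemma fR_mid {s x : ℝ} (h1 : -s ≤ x) (h2 : x ≤ s) : fR s x = - (s - x) ^ 2 / (4 * s) := by
  rw [fR, max_eq_right (by linarith), max_eq_left (by linarith)]
  ring

lemma fq_left {s x : ℝ} (hs : 0 < s) (h : x ≤ -s) : fq s x = 1 := by
  have b : 1 ≤ (s - x) / (2 * s) := by rw [le_div_iff₀ (by linarith)]; linarith
  rw [fq, min_eq_left b, max_eq_right zero_le_one]

lemma fR_left {s x : ℝ} (hs : 0 < s) (h : x ≤ -s) : fR s x = x := by
  rw [fR, max_eq_left (by linarith), max_eq_left (by linarith)]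
  field_simp
  ring

lemma fq_right {s x : ℝ} (hs : 0 < s) (h : s ≤ x) : fq s x = 0 := by
  have b : (s - x) / (2 * s) ≤ 0 := div_nonpos_of_nonpos_of_nonneg (by linarith) (by linarith)
  rw [fq, max_eq_left ((min_le_right _ _).trans b)]

lemma fR_right {s x : ℝ} (hs : 0 < s) (h : s ≤ x) : fR s x = 0 := by
  rw [fR, max_eq_right (by linarith), max_eq_right (by linarith)]
  simp

lemma fR_eq {s : ℝ} (hs : 0 < s) (x : ℝ) :
    fR s x = fq s x * x - fq s x * (1 - fq s x) * s := by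
  rcases le_total x (-s) with h1 | h1
  · rw [fR_left hs h1, fq_left hs h1]; ring
  rcases le_total x s with h2 | h2
  · rw [fR_mid h1 h2, fq_mid hs h1 h2]; field_simp; ring
  · rw [fR_right hs h2, fq_right hs h2]; ring

lemma fq_opt {s : ℝ} (hs : 0 < s) (x : ℝ) {r : ℝ} (hr : r ∈ Icc (0 : ℝ) 1) :
    0 ≤ (r - fq s x) * (x - s + 2 * fq s x * s) := by
  rcases le_total x (-s) with h1 | h1
  · rw [fq_left hs h1]; nlinarith [hr.2]
  rcases le_total x s with h2 | h2
  · rw [fq_mid hs h1 h2]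
    have : x - s + 2 * ((s - x) / (2 * s)) * s = 0 := by field_simp; ring
    rw [this, mul_zero]
  · rw [fq_right hs h2]; nlinarith [hr.1]

lemma fR_le_sq {s : ℝ} (hs : 0 < s) (x : ℝ) {r : ℝ} (hr : r ∈ Icc (0 : ℝ) 1) :
    fR s x + s * (r - fq s x) ^ 2 ≤ r * x - r * (1 - r) * s := by
  have := fq_opt hs x hr
  rw [fR_eq hs]
  nlinarith

lemma fR_le_lin {s : ℝ} (hs : 0 < s) (x : ℝ) {r : ℝ} (hr : r ∈ Icc (0 : ℝ) 1) :
    fR s x ≤ r * x - r * (1 - r) * s := by
  have := fR_le_sq hs x hr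
  nlinarith [mul_nonneg hs.le (sq_nonneg (r - fq s x))]

lemma fR_le_self {s : ℝ} (hs : 0 < s) (x : ℝ) : fR s x ≤ x := by
  simpa using fR_le_lin hs x (r := 1) (by simp)

lemma fR_nonpos {s : ℝ} (hs : 0 < s) (x : ℝ) : fR s x ≤ 0 := by
  simpa using fR_le_lin hs x (r := 0) (by simp)

lemma mul_one_sub_le (q : ℝ) : q * (1 - q) ≤ 1 / 4 := by nlinarith [sq_nonneg (2 * q - 1)]

lemma mul_one_sub_nonneg {q : ℝ} (h : q ∈ Icc (0 : ℝ) 1) : 0 ≤ q * (1 - q) :=
  mul_nonneg h.1 (sub_nonneg.2 h.2)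

lemma fR_ge {s : ℝ} (hs : 0 < s) (x : ℝ) : min x 0 - s / 4 ≤ fR s x := by
  have h := fq_mem s x
  have h1 := mul_le_mul_of_nonneg_right (mul_one_sub_le (fq s x)) hs.le
  have h2 : min x 0 ≤ fq s x * x := by
    rcases le_total x 0 with h3 | h3
    · rw [min_eq_left h3]; nlinarith [h.2]
    · rw [min_eq_right h3]; exact mul_nonneg h.1 h3
  rw [fR_eq hs]
  linarith

lemma fR_zero {s : ℝ} (hs : 0 < s) : - (s / 4) ≤ fR s 0 := by
  simpa using fR_ge hs 0

lemma fR_anti {s s' : ℝ} (hs : 0 < s) (h : s ≤ s') (x : ℝ) : fR s' x ≤ fR s x := by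
  have h1 := fR_le_lin (hs.trans_le h) x (fq_mem s x)
  have h2 := mul_le_mul_of_nonneg_left h (mul_one_sub_nonneg (fq_mem s x))
  rw [fR_eq hs]
  linarith

lemma fR_loss {s s' : ℝ} (hs : 0 < s) (h : s ≤ s') (x : ℝ) :
    fR s x ≤ fR s' x + (s' - s) / 4 := by
  have h1 := fR_le_lin hs x (fq_mem s' x)
  have h2 := mul_le_mul_of_nonneg_right (mul_one_sub_le (fq s' x)) (sub_nonneg.2 h)
  rw [fR_eq (hs.trans_le h)]
  linarith

lemma fR_incr_le {s : ℝ} (hs : 0 < s) (x h : ℝ) : fR s (x + h) ≤ fR s x + fq s x * h := by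
  have h1 := fR_le_lin hs (x + h) (fq_mem s x)
  rw [fR_eq hs x]
  linarith

lemma fR_incr_ge {s : ℝ} (hs : 0 < s) (x h : ℝ) :
    fR s x + fq s x * h - h ^ 2 / (4 * s) ≤ fR s (x + h) := by
  have h1 := fR_le_sq hs x (fq_mem s (x + h))
  have h2 : 0 ≤ s * (fq s (x + h) - fq s x) ^ 2 + (fq s (x + h) - fq s x) * h
      + h ^ 2 / (4 * s) := by
    have : s * (fq s (x + h) - fq s x) ^ 2 + (fq s (x + h) - fq s x) * h + h ^ 2 / (4 * s)
        = (2 * s * (fq s (x + h) - fq s x) + h) ^ 2 / (4 * s) := by field_simp; ring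
    rw [this]; positivity
  rw [fR_eq hs (x + h)]
  linarith

lemma fR_incr_mid {s x h : ℝ} (hs : 0 < s) (h1 : -s ≤ x) (h2 : x ≤ s) (h3 : -s ≤ x + h)
    (h4 : x + h ≤ s) : fR s (x + h) = fR s x + fq s x * h - h ^ 2 / (4 * s) := by
  rw [fR_mid h1 h2, fR_mid h3 h4, fq_mid hs h1 h2]
  field_simp
  ring

lemma fR_mono {s : ℝ} (hs : 0 < s) {x y : ℝ} (h : x ≤ y) : fR s x ≤ fR s y := by
  have h1 := fR_incr_le hs y (x - y)
  have h2 := mul_nonneg (fq_mem s y).1 (sub_nonneg.2 h)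
  rw [add_sub_cancel] at h1
  linarith

lemma fR_lip {s : ℝ} (hs : 0 < s) {x y : ℝ} (h : x ≤ y) : fR s y ≤ fR s x + (y - x) := by
  have h1 := fR_incr_le hs x (y - x)
  have h2 := mul_le_mul_of_nonneg_right (fq_mem s x).2 (sub_nonneg.2 h)
  rw [add_sub_cancel] at h1
  linarith

lemma fR_hasDerivAt {σ ξ : ℝ → ℝ} {σ' ξ' t : ℝ} (hσ : HasDerivAt σ σ' t) (hξ : HasDerivAt ξ ξ' t)
    (hs : 0 < σ t) :
    HasDerivAt (fun t => fR (σ t) (ξ t))
      (fq (σ t) (ξ t) * ξ' - fq (σ t) (ξ t) * (1 - fq (σ t) (ξ t)) * σ') t := by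
  have d1 := (hasDerivAt_posSq _).comp t (hξ.neg.sub hσ)
  have d2 := (hasDerivAt_posSq _).comp t (hσ.sub hξ)
  have d3 : DifferentiableAt ℝ (fun t => fR (σ t) (ξ t)) t :=
    ((d1.sub d2).div (hσ.const_mul 4) (by positivity)).differentiableAt
  have d4 := (hξ.const_mul (fq (σ t) (ξ t))).sub
    (hσ.const_mul (fq (σ t) (ξ t) * (1 - fq (σ t) (ξ t))))
  have hm : IsLocalMax (fun u => fR (σ u) (ξ u) - (fq (σ t) (ξ t) * ξ u
      - fq (σ t) (ξ t) * (1 - fq (σ t) (ξ t)) * σ u)) t := by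
    filter_upwards [hσ.continuousAt.eventually (lt_mem_nhds hs)] with u hu
    have := fR_le_lin hu (ξ u) (fq_mem (σ t) (ξ t))
    rw [fR_eq hs]
    linarith
  have h0 := hm.hasDerivAt_eq_zero (d3.hasDerivAt.sub d4)
  refine d3.hasDerivAt.congr_deriv ?_
  linarith

lemma fR_contDiff {σ ξ : Pl → ℝ} (hσ : ContDiff ℝ 1 σ) (hξ : ContDiff ℝ 1 ξ)
    (hs : ∀ z, 0 < σ z) : ContDiff ℝ 1 (fun z => fR (σ z) (ξ z)) :=
  ((contDiff_posSq.comp (hξ.neg.sub hσ)).sub (contDiff_posSq.comp (hσ.sub hξ))).div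
    (contDiff_const.mul hσ) fun z => by have := hs z; positivity

lemma fR_continuousOn {σ ξ : Pl → ℝ} {A : Set Pl} (hσ : ContinuousOn σ A) (hξ : ContinuousOn ξ A)
    (hs : ∀ z ∈ A, 0 < σ z) : ContinuousOn (fun z => fR (σ z) (ξ z)) A := by
  unfold fR
  refine ContinuousOn.div (by fun_prop) (by fun_prop) fun z hz => ?_
  have := hs z hz
  positivity

lemma Pot.time_le {U : Pl → ℝ} (hU : Pot U) (t t' x : ℝ) :
    |U (t, x) - U (t', x)| ≤ 2 * |t - t'| := by
  have h1 := hU.lip.dist_le_mul (t, x) (t', x)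
  rw [Prod.dist_eq, Real.dist_eq, Real.dist_eq] at h1
  simpa using h1

lemma Pot.space_le {U : Pl → ℝ} (hU : Pot U) (t : ℝ) {x y : ℝ} (h : x ≤ y) :
    U (t, x) ≤ U (t, y) ∧ U (t, y) ≤ U (t, x) + (y - x) := by
  have h1 := hU.mono (t, x) (y - x) (sub_nonneg.2 h)
  have e : ((t, x) : Pl) + (y - x) • ex = (t, y) := by ext <;> simp
  rw [e] at h1
  constructor <;> linarith [h1.1, h1.2]

/-- Lower Hopf-Lax bound. -/
lemma Loc.lower {M : Pl → ℝ} (hM : Loc M) {t : ℝ} (ht : 0 < t) (x y : ℝ) :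
    M (0, y) + fR t (x - y) ≤ M (t, x) := by
  have h := line_ge_H (z := (0, y)) (v := (t, x - y)) (s := 1) (c := fR t (x - y)) hM.lip
    zero_le_one le_rfl ht.le (by
      filter_upwards [hM.eq] with z hz h1
      have := fR_le_lin ht (x - y) (hM.toPot.Dx_mem z)
      rw [D_dir, hz h1]
      linarith)
  have e : ((0, y) : Pl) + (1 : ℝ) • ((t, x - y) : Pl) = (t, x) := by ext <;> simp
  rw [e] at h
  linarith

/-- Upper Hopf-Lax bound. -/
lemma Loc.upper {M : Pl → ℝ} (hM : Loc M) {C s x1 t : ℝ} (ht : 0 ≤ t) (hts : t < s)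
    (h0 : ∀ y, M (0, y) ≤ C - fR s (x1 - y)) (x : ℝ) :
    M (t, x) ≤ C - fR (s - t) (x1 - x) := by
  have hP := hM.toPot
  have hτ : 0 < s - t := sub_pos.2 hts
  set σ : ℝ → ℝ := fun u => s - u + max (u - t) 0 ^ 2 / (2 * (s - t)) with hσ
  have σpos : ∀ u, 0 < σ u := by
    intro u
    rcases le_total u t with h | h
    · simp only [hσ, max_eq_right (sub_nonpos.2 h)]
      have : (0 : ℝ) ^ 2 / (2 * (s - t)) = 0 := by simp
      linarith
    · simp only [hσ, max_eq_left (sub_nonneg.2 h)]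
      have : s - u + (u - t) ^ 2 / (2 * (s - t))
          = ((s - u) ^ 2 + (s - t) ^ 2) / (2 * (s - t)) := by field_simp; ring
      rw [this]; positivity
  have σd : ∀ u, HasDerivAt σ (-1 + 2 * max (u - t) 0 * 1 / (2 * (s - t))) u := fun u =>
    ((hasDerivAt_id u).const_sub s).add
      (((hasDerivAt_posSq _).comp u ((hasDerivAt_id u).sub_const t)).div_const _)
  have σc : ContDiff ℝ 1 (fun z : Pl => σ z.1) :=
    (contDiff_const.sub contDiff_fst).add
      ((contDiff_posSq.comp (contDiff_fst.sub contDiff_const)).div_const _)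
  have hζ : ContDiff ℝ 1 (fun z : Pl => C - fR (σ z.1) (x1 - z.2)) :=
    contDiff_const.sub (fR_contDiff σc (contDiff_const.sub contDiff_snd) fun z => σpos _)
  have σt : σ t = s - t := by simp [hσ]
  have σ0 : σ 0 = s := by simp [hσ, ht]
  have hs : 0 < s := ht.trans_lt hts
  suffices h : M (t, x) - (C - fR (σ t) (x1 - x)) ≤ 0 by rw [σt] at h; linarith
  refine le_of_pen (3 * t) (t, x) fun η hη hη1 => ?_
  have key := penal (Θ := fun z => M z - (C - fR (σ z.1) (x1 - z.2)))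
    (hP.lip.continuous.sub hζ.continuous) (τ := 0) (A := 0) (C := 2 + s) (a := 3 * η) (η := η)
    le_rfl (by positivity) hη (fun z hz => by
      have a1 := (abs_le.1 (hP.time_le z.1 0 z.2)).2
      rw [sub_zero, abs_of_nonneg hz] at a1
      have a2 := h0 z.2
      have a3 : fR (σ z.1) (x1 - z.2) ≤ fR s (x1 - z.2) + s := by
        rcases le_total (σ z.1) s with h | h
        · linarith [fR_loss (σpos z.1) h (x1 - z.2), σpos z.1]
        · linarith [fR_anti hs h (x1 - z.2)]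
      have a4 := mul_nonneg hs.le hz
      simp only [Prod.mk.eta] at a1
      nlinarith) (fun z hz => by
      have a2 := h0 z.2
      have e : z = (0, z.2) := Prod.ext hz rfl
      rw [hz, σ0]
      rw [e]
      simpa using a2) (fun z0 hz0 hmax => by
      have hl := isLocalMax_of_isMaxOn hz0 hmax
      have hpd := (pen_contDiff (3 * η) η).differentiable (by simp) z0
      have hQd := hζ.differentiable (by simp) z0
      have h1 := hM.subsol (ζ := fun z => (C - fR (σ z.1) (x1 - z.2)) + pen (3 * η) η z)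
        (hζ.add (pen_contDiff _ _)) hz0 (by simpa only [sub_sub] using hl)
      rw [D_add et hQd hpd, D_add ex hQd hpd, D_pen, D_pen] at h1
      have e1 := (hasDerivAt_t (t := z0.1) (x := z0.2) hQd).unique
        ((fR_hasDerivAt (σd z0.1) (hasDerivAt_const z0.1 (x1 - z0.2)) (σpos _)).const_sub C)
      have e2 := (hasDerivAt_x (t := z0.1) (x := z0.2) hQd).unique
        ((fR_hasDerivAt (hasDerivAt_const z0.2 (σ z0.1)) ((hasDerivAt_id z0.2).const_sub x1)
          (σpos _)).const_sub C)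
      simp only [Prod.mk.eta, id] at e1 e2
      rw [e1, e2] at h1
      simp only [et_fst, et_snd, ex_fst, ex_snd, mul_one, mul_zero, add_zero, zero_add] at h1
      have h3 := abs_mul_le (le_of_eq (abs_of_pos hη)) (abs_jap_deriv_le z0.2)
      have q := fq_mem (σ z0.1) (x1 - z0.2)
      have hq := mul_one_sub_nonneg q
      have ht' : 0 ≤ 2 * η * z0.1 := by have := hz0.le; positivity
      have hm : 0 ≤ 2 * max (z0.1 - t) 0 / (2 * (s - t)) := by positivity
      have hm' := mul_nonneg hq hm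
      set qq := fq (σ z0.1) (x1 - z0.2)
      set j := η * (z0.2 / √(1 + z0.2 ^ 2))
      have h5 := abs_le.1 h3
      have h11 : |j * (1 - 2 * qq - j)| ≤ η * 1 * 2 :=
        abs_mul_le h3 (abs_le.2 ⟨by linarith [q.2, h5.2], by linarith [q.1, h5.1]⟩)
      have h12 := (abs_le.1 h11).1
      nlinarith) (t, x) ht
  simp only [pen] at key
  linarith

end Pool.Agent.MP_a93f81_an
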