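import Pool.Agent.MP_a93f81_an.RateEx

/-!
The example: identification of the initial potential, choice of the parameters, conclusion.
-/

set_option autoImplicit false

open MeasureTheory Filter Topology Set Metric

namespace Pool.Agent.MP_a93f81_an

/-- The datum of the example. -/
noncomputable def exu (x : ℝ) : ℝ := if x < 0 then 1 else max 0 (min 1 ((x - 3) / 2))

/-- Its primitive vanishing at the origin. -/
noncomputable def exF (x : ℝ) : ℝ := min x (- fR 1 (4 - x))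

lemma exu_measurable : Measurable exu :=
  Measurable.ite (measurableSet_lt measurable_id measurable_const) measurable_const (by fun_prop)

lemma exu_mem (x : ℝ) : exu x ∈ Icc (0 : ℝ) 1 := by
  unfold exu
  split_ifs
  · simp
  · exact ⟨le_max_left _ _, max_le zero_le_one (min_le_left _ _)⟩

lemma exZ_eq {x : ℝ} (h : x ≤ 3) : fR 1 (4 - x) = 0 := fR_right one_pos (by linarith)

lemma exZ_mono {x y : ℝ} (h : x ≤ y) :
    - fR 1 (4 - x) ≤ - fR 1 (4 - y) ∧ - fR 1 (4 - y) ≤ - fR 1 (4 - x) + (y - x) := by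
  have h1 := fR_mono one_pos (show 4 - y ≤ 4 - x by linarith)
  have h2 := fR_lip one_pos (show 4 - y ≤ 4 - x by linarith)
  constructor <;> linarith

lemma exF_neg {x : ℝ} (h : x ≤ 0) : exF x = x := by
  rw [exF, exZ_eq (by linarith), neg_zero, min_eq_left h]

lemma exF_pos {x : ℝ} (h : 0 ≤ x) : exF x = - fR 1 (4 - x) := by
  have h1 := (exZ_mono h).2
  rw [exZ_eq (x := 0) (by norm_num)] at h1
  exact min_eq_right (by linarith)

lemma exF_mono {x y : ℝ} (h : x ≤ y) : exF x ≤ exF y ∧ exF y ≤ exF x + (y - x) := by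
  obtain ⟨h1, h2⟩ := exZ_mono h
  refine ⟨min_le_min h h1, ?_⟩
  unfold exF
  rw [← min_add_add_right]
  exact min_le_min (by linarith) h2

lemma exF_pot : Pot (fun z => exF z.2) := by
  refine ⟨LipschitzWith.of_dist_le_mul fun z z' => ?_, fun z s hs => ?_, fun z _ => rfl⟩
  · have h1 : |z.2 - z'.2| ≤ dist z z' := by
      rw [Prod.dist_eq, ← Real.dist_eq]; exact le_max_right _ _
    have h2 := abs_le.1 h1
    rw [Real.dist_eq, NNReal.coe_ofNat, abs_le]
    rcases le_total z.2 z'.2 with h | h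
    · have := exF_mono h
      constructor <;> linarith [this.1, this.2, h2.1, h2.2]
    · have := exF_mono h
      constructor <;> linarith [this.1, this.2, h2.1, h2.2]
  · have := exF_mono (show z.2 ≤ z.2 + s by linarith)
    simp only [Prod.snd_add, Prod.smul_snd, ex_snd, smul_eq_mul, mul_one]
    constructor <;> linarith [this.1, this.2]

lemma exF_hasDerivAt {x : ℝ} (hx : x ≠ 0) : HasDerivAt exF (exu x) x := by
  rcases hx.lt_or_gt with h | h
  · rw [exu, if_pos h]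
    refine (hasDerivAt_id x).congr_of_eventuallyEq ?_
    filter_upwards [Iio_mem_nhds h] with y hy using exF_neg (le_of_lt hy)
  · rw [exu, if_neg h.not_gt]
    have d := (fR_hasDerivAt (hasDerivAt_const x (1 : ℝ)) ((hasDerivAt_id x).const_sub 4)
      one_pos).neg
    refine (d.congr_deriv ?_).congr_of_eventuallyEq ?_
    · simp only [id, fq]
      rw [show (1 - (4 - x)) / (2 * 1) = (x - 3) / 2 by ring]
      ring
    · filter_upwards [Ioi_mem_nhds h] with y hy using exF_pos (le_of_lt hy)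

lemma ae_snd_ne (c : ℝ) : ∀ᵐ z : Pl, z.2 ≠ c := by
  have : (volume : Measure Pl) {z | z.2 = c} = 0 := by
    have e : {z : Pl | z.2 = c} = (univ : Set ℝ) ×ˢ ({c} : Set ℝ) := by
      ext z; simp
    rw [e, Measure.volume_eq_prod, Measure.prod_prod]
    simp
  rw [ae_iff]
  simpa using this

lemma init_ex {P ρ : Pl → ℝ} (hP : Pot P) (hP0 : P 0 = 0)
    (h1 : ∀ᵐ z, D ex P z = extd ρ exu z) (x : ℝ) : P (0, x) = exF x :=
  init_eq (Q := fun z => exF z.2) (ρ' := fun z => exu z.2) hP exF_pot hP0 (exF_neg le_rfl) h1 (by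
    filter_upwards [ae_snd_ne 0] with z hz
    rw [D_comp ex (exF_hasDerivAt hz) differentiableAt_snd, D_snd]
    simp [extd]) x

lemma ex_gap {η ε τ B : ℝ} (h : Par η ε τ B) {U M : Pl → ℝ} (hU : NL ε U) (hM : Loc M)
    (hU0 : ∀ x, U (0, x) = exF x) (hM0 : ∀ x, M (0, x) = exF x) {t : ℝ} (h1 : 1 - τ ≤ t)
    (h2 : t ≤ 1 - τ + ε) :
    (1 - 3 * η) / 2 * ε * (- Real.log τ) - 12 * ε
      ≤ (U (t, 4 - (-1 + 2 * η) * τ) - M (t, 4 - (-1 + 2 * η) * τ))
        - (U (t, (-1 + 2 * η) * (1 - τ + ε)) - M (t, (-1 + 2 * η) * (1 - τ + ε))) := by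
  have τ0 := h.τ0
  have τ1 := h.τ1
  have ε0 := h.ε0
  have a1 := ex_upper h hU (fun y => by
    rw [hU0]
    rcases le_total y 0 with hy | hy
    · rw [exF_neg hy, min_eq_left hy]; linarith [le_max_right (y - 3) 0]
    · rw [exF_pos hy, min_eq_right hy]
      rcases le_total y 3 with hy' | hy'
      · rw [exZ_eq hy']; linarith [le_max_right (y - 3) 0]
      · have := (exZ_mono hy').2
        rw [exZ_eq le_rfl] at this
        linarith [le_max_left (y - 3) 0])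
  have a2 := ex_lower h hU (fun y => by
    rw [hU0]
    rcases le_total y 0 with hy | hy
    · rw [exF_neg hy, exZ_eq (by linarith)]; linarith [le_max_left (-y) 0]
    · rw [exF_pos hy]; linarith [le_max_right (-y) 0])
  have a3 := hM.lower (t := 1 - τ) (by linarith) ((-1 + 2 * η) * (1 - τ + ε)) 0
  rw [hM0, exF_neg le_rfl, sub_zero] at a3
  have a4 := fR_anti (s := 1 - τ) (s' := 1 - τ + ε) (by linarith) (by linarith)
    ((-1 + 2 * η) * (1 - τ + ε))
  have a5 := hM.upper (C := 0) (s := 1) (x1 := 4) (t := 1 - τ) (by linarith) (by linarith)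
    (fun y => by rw [hM0, zero_sub]; exact min_le_right _ _) (4 - (-1 + 2 * η) * τ)
  rw [show 1 - (1 - τ) = τ by ring, sub_sub_cancel] at a5
  have e : |t - (1 - τ)| ≤ ε := abs_le.2 ⟨by linarith, by linarith⟩
  have b1 := abs_le.1 (hU.toPot.time_le t (1 - τ) (4 - (-1 + 2 * η) * τ))
  have b2 := abs_le.1 (hM.toPot.time_le t (1 - τ) (4 - (-1 + 2 * η) * τ))
  have b3 := abs_le.1 (hU.toPot.time_le t (1 - τ) ((-1 + 2 * η) * (1 - τ + ε)))
  have b4 := abs_le.1 (hM.toPot.time_le t (1 - τ) ((-1 + 2 * η) * (1 - τ + ε)))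
  linarith [b1.1, b2.2, b3.2, b4.1]

lemma exists_par {η ε : ℝ} (η0 : 0 < η) (η1 : η ≤ 1 / 10) (ε0 : 0 < ε)
    (hε : ε < Real.exp (-(6 / η ^ 5))) :
    ∃ τ B, Par η ε τ B ∧ - Real.log τ = (1 - η) * Real.log (1 / ε) ∧
      12 ≤ η * Real.log (1 / ε) := by
  obtain ⟨L, hL⟩ : ∃ L, L = Real.log (1 / ε) := ⟨_, rfl⟩
  rw [← hL]
  have eL : ε = Real.exp (-L) := by
    rw [hL, one_div, Real.log_inv, neg_neg, Real.exp_log ε0]
  have h1 : 6 / η ^ 5 < L := by
    rw [eL, Real.exp_lt_exp] at hε; linarith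
  rw [div_lt_iff₀ (by positivity)] at h1
  have L0 : 0 < L := by
    by_contra h
    have := mul_nonpos_of_nonpos_of_nonneg (not_lt.1 h) (show 0 ≤ η ^ 5 by positivity)
    linarith
  have h2 : η ^ 4 ≤ 1 / 2 := (pow_le_pow_left₀ η0.le η1 4).trans (by norm_num)
  have h3 : 12 ≤ η * L := by
    have := mul_le_mul_of_nonneg_right h2 (show 0 ≤ η * L by positivity)
    nlinarith
  obtain ⟨τ, hτ⟩ : ∃ τ, τ = Real.exp (-((1 - η) * L)) := ⟨_, rfl⟩
  have τ0 : 0 < τ := by rw [hτ]; exact Real.exp_pos _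
  have h4 : τ = ε * Real.exp (η * L) := by
    rw [hτ, eL, ← Real.exp_add]; congr 1; ring
  have h5 : L ^ 2 ≤ η ^ 2 * Real.exp (η * L) := by
    have a1 := Real.pow_div_factorial_le_exp (η * L) (by positivity) 3
    have a2 : ((Nat.factorial 3 : ℕ) : ℝ) = 6 := by norm_num [Nat.factorial]
    rw [a2] at a1
    have a3 := mul_le_mul_of_nonneg_left a1 (show 0 ≤ η ^ 2 by positivity)
    have a4 := mul_le_mul_of_nonneg_right h1.le (show 0 ≤ L ^ 2 by positivity)
    nlinarith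
  have h6 : ε * L ^ 2 ≤ η ^ 2 * τ := by
    rw [h4]; nlinarith [mul_le_mul_of_nonneg_left h5 ε0.le]
  have L1 : 1 ≤ L := by nlinarith
  have h7 : ε * L ≤ η ^ 3 * τ := by
    refine le_of_mul_le_mul_right ?_ L0
    have := mul_le_mul_of_nonneg_left (show 1 ≤ η * L by linarith)
      (show 0 ≤ η ^ 2 * τ by positivity)
    nlinarith
  have g0 : 0 < (1 - 3 * η) / 4 := by linarith
  have g1 : (1 - 3 * η) / 4 ≤ 1 / 4 := by linarith
  obtain ⟨γ, hγ⟩ : ∃ γ, γ = (1 - 3 * η) / 4 := ⟨_, rfl⟩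
  have hlog : - Real.log τ = (1 - η) * L := by rw [hτ, Real.log_exp, neg_neg]
  refine ⟨τ, γ * ε * L / η ^ 2, ⟨η0, η1, ε0, τ0, ?_, by rw [hγ]; positivity, ?_, ?_, ?_, ?_⟩,
    hlog, h3⟩
  · have a1 := Real.add_one_le_exp ((1 - η) * L)
    have a2 : 1 ≤ (1 - η) * L := by nlinarith
    rw [hτ, Real.exp_neg, inv_le_comm₀ (Real.exp_pos _) (by norm_num)]
    linarith
  · rw [← mul_div_assoc, div_le_iff₀ (by positivity)]
    rw [← hγ] at g1
    have := mul_le_mul_of_nonneg_right g1 (show 0 ≤ ε * L by positivity)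
    nlinarith
  · rw [div_mul_cancel₀ _ (by positivity), hlog, ← hγ]
    rw [← hγ] at g0
    have : 0 ≤ γ * ε * (η * L) := by positivity
    nlinarith
  · have e : 16 * (γ * ε * L / η ^ 2) ^ 2 * η ^ 2 = (4 * γ) ^ 2 * (ε * (ε * L ^ 2)) / η ^ 2 := by
      field_simp; ring
    rw [e, div_le_iff₀ (by positivity)]
    rw [← hγ] at g0 g1
    have a1 : (4 * γ) ^ 2 ≤ 1 := by nlinarith
    have a2 := mul_le_mul_of_nonneg_left h6 ε0.le
    have a3 := mul_le_mul_of_nonneg_right a1 (show 0 ≤ ε * (ε * L ^ 2) by positivity)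
    linarith
  · have a1 : η ^ 3 * τ ≤ η * τ := by
      refine mul_le_mul_of_nonneg_right ?_ τ0.le
      have : η ^ 2 ≤ 1 := by nlinarith
      nlinarith
    nlinarith

theorem rate_pot {ε : ℝ} {U M : Pl → ℝ} (hε : 0 < ε) (hU : NL ε U) (hM : Loc M)
    (h0 : ∀ x, U (0, x) = M (0, x)) {t : ℝ} (ht : 0 < t) (a b : ℝ) :
    |(U (t, b) - M (t, b)) - (U (t, a) - M (t, a))| ≤ ε / 2 * (1 + Real.log (1 + t / ε)) := by
  have a1 := rate_upper hε hU hM h0 ht a
  have a2 := rate_upper hε hU hM h0 ht b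
  have a3 := rate_lower hε hU hM h0 ht a
  have a4 := rate_lower hε hU hM h0 ht b
  rw [abs_le]
  constructor <;> linarith

theorem sharp_pot {κ : ℝ} (hκ : 0 < κ) : ∃ ε0 : ℝ, 0 < ε0 ∧ ∀ ε : ℝ, 0 < ε → ε < ε0 →
    ∃ t1 a b : ℝ, 1 / 2 ≤ t1 ∧ t1 + ε < 1 ∧ -1 < a ∧ a < b ∧ b < 5 ∧
      ∀ U M : Pl → ℝ, NL ε U → Loc M → (∀ x, U (0, x) = exF x) → (∀ x, M (0, x) = exF x) →
        ∀ t, t1 ≤ t → t ≤ t1 + ε → (1 / 2 - κ) * ε * Real.log (1 / ε)
          ≤ (U (t, b) - M (t, b)) - (U (t, a) - M (t, a)) := by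
  obtain ⟨η, hη⟩ : ∃ η, η = min (κ / 3) (1 / 10) := ⟨_, rfl⟩
  have η0 : 0 < η := by rw [hη]; positivity
  have η1 : η ≤ 1 / 10 := by rw [hη]; exact min_le_right _ _
  have η2 : η ≤ κ / 3 := by rw [hη]; exact min_le_left _ _
  refine ⟨Real.exp (-(6 / η ^ 5)), Real.exp_pos _, fun ε ε0 hε => ?_⟩
  obtain ⟨τ, B, h, h1, h2⟩ := exists_par η0 η1 ε0 hε
  have τ0 := h.τ0
  have τ1 := h.τ1
  have ετ : ε < τ := by nlinarith [h.b4]
  refine ⟨1 - τ, (-1 + 2 * η) * (1 - τ + ε), 4 - (-1 + 2 * η) * τ, by linarith, by linarith,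
    by nlinarith, by nlinarith, by nlinarith, fun U M hU hM hU0 hM0 t t1 t2 => ?_⟩
  refine le_trans ?_ (ex_gap h hU hM hU0 hM0 t1 t2)
  rw [h1]
  obtain ⟨L, hL⟩ : ∃ L, L = Real.log (1 / ε) := ⟨_, rfl⟩
  rw [← hL] at h2 ⊢
  have L0 : 0 < L := by
    by_contra h
    have := mul_nonpos_of_nonneg_of_nonpos η0.le (not_lt.1 h)
    linarith
  have a1 := mul_le_mul_of_nonneg_left h2 ε0.le
  have a2 := mul_le_mul_of_nonneg_right η2 (show 0 ≤ ε * L by positivity)
  have a3 : 0 ≤ η ^ 2 * (ε * L) := by positivity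
  nlinarith

end Pool.Agent.MP_a93f81_an
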