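import Pool.Agent.MP_a93f81_an.RateCmp

/-!
The logarithmic bound on the difference of the potentials.
-/

set_option autoImplicit false

open MeasureTheory Filter Topology Set Metric

namespace Pool.Agent.MP_a93f81_an

lemma log_shift {ε t : ℝ} (hε : 0 < ε) (ht : 0 ≤ t) :
    Real.log (t + ε) - Real.log ε = Real.log (1 + t / ε) := by
  rw [← Real.log_div (by linarith) hε.ne']
  congr 1
  field_simp
  ring

lemma rate_upper {ε : ℝ} {U M : Pl → ℝ} (hε : 0 < ε) (hU : NL ε U) (hM : Loc M)
    (h0 : ∀ x, U (0, x) = M (0, x)) {t0 : ℝ} (ht0 : 0 < t0) (x : ℝ) :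
    U (t0, x) - M (t0, x) ≤ ε / 4 * (1 + Real.log (1 + t0 / ε)) := by
  set l : ℝ → ℝ := fun t => ε / 4 * (Real.log (t0 + ε) - Real.log (t0 + ε - t)) with hl
  have hl0 : ∀ t, 0 ≤ t → t ≤ t0 → 0 ≤ l t := fun t h1 h2 =>
    mul_nonneg (by positivity) (sub_nonneg.2 (Real.log_le_log (by linarith) (by linarith)))
  have hlt : l t0 = ε / 4 * Real.log (1 + t0 / ε) := by
    simp only [hl]
    rw [show t0 + ε - t0 = ε by ring, log_shift hε ht0.le]
  obtain ⟨x0, hx0⟩ : ∃ x0, x0 = x + l t0 := ⟨_, rfl⟩
  have key := hU.le_super (T := t0) (K := 1 / 4) hε (by norm_num)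
    (S := fun t y => M (t0, x0) - fR (t0 + ε - t) (x0 - y - l t))
    (continuousOn_const.sub (fR_continuousOn (by fun_prop)
      ((continuousOn_const.sub continuousOn_snd).sub (continuousOn_const.mul
        (continuousOn_const.sub (ContinuousOn.log (by fun_prop) fun z hz => by
          have := hz.2; linarith)))) fun z hz => by have := hz.2; linarith))
    (fun t y h1 h2 => by
      have a1 := hM.lower ht0 x0 y
      have a2 := fR_mono (s := t0 + ε - t) (by linarith)
        (show x0 - y - l t ≤ x0 - y by linarith [hl0 t h1 h2])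
      have a3 := fR_anti ht0 (show t0 ≤ t0 + ε by linarith) (x0 - y)
      have a4 := fR_loss (s := t0 + ε - t) (s' := t0 + ε) (by linarith) (by linarith) (x0 - y)
      rw [h0]
      linarith)
    (fun t y h1 h2 => by
      have hs : 0 < t0 + ε - t := by linarith
      have d1 : HasDerivAt (fun s => t0 + ε - s) (-1) t := (hasDerivAt_id t).const_sub _
      have d2 : HasDerivAt l (ε / 4 * (- (-1 / (t0 + ε - t)))) t :=
        ((d1.log hs.ne').const_sub _).const_mul _
      have d3 := (fR_hasDerivAt d1 (d2.const_sub (x0 - y)) hs).const_sub (M (t0, x0))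
      have d4 := (fR_hasDerivAt (hasDerivAt_const y (t0 + ε - t))
        (((hasDerivAt_id y).const_sub x0).sub_const (l t)) hs).const_sub (M (t0, x0))
      refine ⟨_, _, _, fq (t0 + ε - t) (x0 - y - l t) + ε / (4 * (t0 + ε - t)),
        fun _ _ _ _ => le_rfl, rfl, d3, d4, ?_, ?_⟩
      · have a1 := fR_incr_ge hs (x0 - y - l t) (-ε)
        rw [show x0 - y - l t + -ε = x0 - (y + ε) - l t by ring] at a1
        have e : (-ε) ^ 2 / (4 * (t0 + ε - t)) = ε * (ε / (4 * (t0 + ε - t))) := by ring
        linarith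
      · simp only [id]
        have q := fq_mem (t0 + ε - t) (x0 - y - l t)
        have a1 := mul_le_mul_of_nonneg_left (le_max_left (1 - (fq (t0 + ε - t) (x0 - y - l t)
          + ε / (4 * (t0 + ε - t)))) 0) q.1
        have e : ε / 4 * (- (-1 / (t0 + ε - t))) = ε / (4 * (t0 + ε - t)) := by field_simp
        rw [e]
        linarith) ht0.le le_rfl x
  have a1 := fR_zero hε
  have a2 := (hM.toPot.space_le t0 (show x ≤ x0 by linarith [hl0 t0 ht0.le le_rfl])).2
  rw [show t0 + ε - t0 = ε by ring, show x0 - x - l t0 = 0 by linarith] at key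
  linarith

lemma rate_lower {ε : ℝ} {U M : Pl → ℝ} (hε : 0 < ε) (hU : NL ε U) (hM : Loc M)
    (h0 : ∀ x, U (0, x) = M (0, x)) {t0 : ℝ} (ht0 : 0 < t0) (x : ℝ) :
    M (t0, x) - U (t0, x) ≤ ε / 4 * (1 + Real.log (1 + t0 / ε)) := by
  set l : ℝ → ℝ := fun t => ε / 4 * (Real.log (t + ε) - Real.log ε) with hl
  have hl0 : ∀ t, 0 ≤ t → 0 ≤ l t := fun t h1 =>
    mul_nonneg (by positivity) (sub_nonneg.2 (Real.log_le_log hε (by linarith)))
  have hlt : l t0 = ε / 4 * Real.log (1 + t0 / ε) := by
    simp only [hl]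
    rw [log_shift hε ht0.le]
  have key : ∀ y0, U (0, y0) + fR (t0 + ε) (x - y0 - l t0) ≤ U (t0, x) := fun y0 =>
    hU.ge_sub (T := t0) (K := 0) hε le_rfl
    (S := fun t y => U (0, y0) + fR (t + ε) (y - y0 - l t))
    (continuousOn_const.add (fR_continuousOn (by fun_prop)
      ((continuousOn_snd.sub continuousOn_const).sub (continuousOn_const.mul
        ((ContinuousOn.log (by fun_prop) fun z hz => by
          have := hz.1; linarith).sub continuousOn_const))) fun z hz => by
            have := hz.1; linarith))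
    (fun t y h1 h2 => by
      have hs : 0 < t + ε := by linarith
      have a1 := fR_le_self hs (y - y0 - l t)
      have a2 := fR_nonpos hs (y - y0 - l t)
      have a3 := hl0 t h1
      rcases le_total y y0 with h | h
      · linarith [(hU.toPot.space_le 0 h).2]
      · linarith [(hU.toPot.space_le 0 h).1])
    (fun t y h1 h2 => by
      have hs : 0 < t + ε := by linarith
      have d1 : HasDerivAt (fun s => s + ε) 1 t := (hasDerivAt_id t).add_const _
      have d2 : HasDerivAt l (ε / 4 * (1 / (t + ε))) t :=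
        ((d1.log hs.ne').sub_const _).const_mul _
      have d3 := (fR_hasDerivAt d1 (d2.const_sub (y - y0)) hs).const_add (U (0, y0))
      have d4 := (fR_hasDerivAt (hasDerivAt_const y (t + ε))
        (((hasDerivAt_id y).sub_const y0).sub_const (l t)) hs).const_add (U (0, y0))
      have q := fq_mem (t + ε) (y - y0 - l t)
      refine ⟨_, _, _, max (fq (t + ε) (y - y0 - l t) - ε / (4 * (t + ε))) 0,
        fun _ _ _ _ => le_rfl, rfl, d3, d4, ?_, le_max_right _ _, ?_⟩
      · have a1 := fR_incr_ge hs (y - y0 - l t) ε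
        have a2 := fR_mono hs (show y - y0 - l t ≤ y + ε - y0 - l t by linarith)
        rw [show y - y0 - l t + ε = y + ε - y0 - l t by ring] at a1
        have e : ε ^ 2 / (4 * (t + ε)) = ε * (ε / (4 * (t + ε))) := by ring
        rcases le_total (fq (t + ε) (y - y0 - l t) - ε / (4 * (t + ε))) 0 with h | h
        · rw [max_eq_right h]; linarith
        · rw [max_eq_left h]; linarith
      · simp only [id]
        have a1 := mul_le_mul_of_nonneg_left (le_max_left (fq (t + ε) (y - y0 - l t)
          - ε / (4 * (t + ε))) 0) q.1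
        have e : ε / 4 * (1 / (t + ε)) = ε / (4 * (t + ε)) := by field_simp
        rw [e]
        linarith) ht0.le le_rfl x
  have h1 := hM.upper (C := U (t0, x)) (s := t0 + ε) (x1 := x - l t0) ht0.le (by linarith)
    (fun y => by
      have := key y
      rw [h0, show x - y - l t0 = x - l t0 - y by ring] at this
      linarith) (x - l t0)
  rw [show t0 + ε - t0 = ε by ring, sub_self] at h1
  have a1 := fR_zero hε
  have a2 := (hM.toPot.space_le t0 (show x - l t0 ≤ x by linarith [hl0 t0 ht0.le])).2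
  linarith

/-- Integrals of the density over intervals, at almost every positive time. -/
lemma Pot.int_eq {P : Pl → ℝ} {ρ : Pl → ℝ} {ρ0 : ℝ → ℝ} (hP : Pot P)
    (h1 : ∀ᵐ z, D ex P z = extd ρ ρ0 z) :
    ∀ᵐ t : ℝ, 0 < t → ∀ a b : ℝ, ∫ y in a..b, ρ (t, y) = P (t, b) - P (t, a) := by
  have h2 : ∀ᵐ z : Pl ∂(volume.prod volume), DifferentiableAt ℝ P z ∧ D ex P z = extd ρ ρ0 z :=
    (LL_ae_diff hP.ll).and h1
  filter_upwards [Measure.ae_ae_of_ae_prod h2] with t hz ht a b
  have hl : LipschitzWith (2 * 1) (fun y => P (t, y)) :=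
    hP.lip.comp (LipschitzWith.prodMk_left t)
  have h5 := (hl.lipschitzOnWith (s := uIcc a b)).absolutelyContinuousOnInterval
    |>.integral_deriv_eq_sub
  rw [← h5]
  refine intervalIntegral.integral_congr_ae ?_
  filter_upwards [hz] with y hy _
  rw [(hasDerivAt_x hy.1).deriv, hy.2, extd_of_mem (show (t, y) ∈ H from ht)]

lemma int_sub_eq {U M u w : Pl → ℝ} {ub : ℝ → ℝ} (hU : Pot U) (hM : Pot M)
    (hu : Measurable u) (hu' : ∀ z, u z ∈ Icc (0 : ℝ) 1)
    (hw : Measurable w) (hw' : ∀ z, w z ∈ Icc (0 : ℝ) 1)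
    (h1 : ∀ᵐ z, D ex U z = extd u ub z) (h2 : ∀ᵐ z, D ex M z = extd w ub z) :
    ∀ᵐ t : ℝ, 0 < t → ∀ a b : ℝ, ∫ y in a..b, (u (t, y) - w (t, y))
      = (U (t, b) - M (t, b)) - (U (t, a) - M (t, a)) := by
  have hi : ∀ (ρ : Pl → ℝ), Measurable ρ → (∀ z, ρ z ∈ Icc (0 : ℝ) 1) → ∀ t a b : ℝ,
      IntervalIntegrable (fun y => ρ (t, y)) volume a b := by
    intro ρ hρ hb t a b
    refine (intervalIntegrable_const (c := (1 : ℝ))).mono_fun'
      (hρ.comp (measurable_const.prodMk measurable_id)).aestronglyMeasurable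
      (Eventually.of_forall fun y => ?_)
    exact abs_le_one_of_mem (hb _)
  filter_upwards [hU.int_eq h1, hM.int_eq h2] with t a1 a2 ht a b
  rw [intervalIntegral.integral_sub (hi u hu hu' t a b) (hi w hw hw' t a b), a1 ht, a2 ht]
  ring

end Pool.Agent.MP_a93f81_an
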